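import Pool.Agent.BarCx.CptDefs

/-!
# MP_5c7eee_an: the end of the proof (Banach-Steinhaus), abstractly
-/

namespace HUN

open Pool.Agent.BarCx Filter Topology

section Bar

universe u

variable {A : Type u} [NonUnitalRing A] [Module ℂ A] [IsScalarTower ℂ A A] [SMulCommClass ℂ A A]

/-- If the bar complex of `A` is exact at `A`, then `A` is spanned by its products. -/
theorem mem_span_of_surj (h : Function.Surjective (bar A 0)) (x : A) :
    x ∈ Submodule.span ℂ {c : A | ∃ a b : A, c = a * b} := by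
  obtain ⟨y, hy⟩ := h x
  have key : ∀ z : TensorProduct ℂ A A,
      (TensorProduct.lift (LinearMap.mul ℂ A) z : A) ∈
        Submodule.span ℂ {c : A | ∃ a b : A, c = a * b} := by
    intro z
    induction z using TensorProduct.induction_on with
    | zero => rw [map_zero]; exact Submodule.zero_mem _
    | tmul a b =>
      refine Submodule.subset_span ⟨a, b, ?_⟩
      simp
    | add z w hz hw => rw [map_add]; exact Submodule.add_mem _ hz hw
  have := key y
  rw [← hy]
  exact this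

end Bar

section

universe u

variable {W : Type u} [NormedAddCommGroup W] [NormedSpace ℂ W]

/-- products of two compact operators -/
def cptProds (W : Type u) [NormedAddCommGroup W] [NormedSpace ℂ W] : Set (W →L[ℂ] W) :=
  {C | ∃ A B : W →L[ℂ] W, IsCompactOperator A ∧ IsCompactOperator B ∧ C = A * B}

/-- finite rank operators are compact -/
theorem IsFinRank.isCpt {S : W →L[ℂ] W} (hS : IsFinRank S) : IsCpt S := by
  have hS' : FiniteDimensional ℂ (LinearMap.range (S : W →ₗ[ℂ] W)) := hS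
  let R : Submodule ℂ W := LinearMap.range (S : W →ₗ[ℂ] W)
  let S' : W →L[ℂ] R := S.codRestrict R (fun x => ⟨x, rfl⟩)
  have hR : LocallyCompactSpace R := by
    have : FiniteDimensional ℂ R := hS'
    have : ProperSpace R := FiniteDimensional.proper ℂ R
    infer_instance
  have h1 : IsCompactOperator (id : R → R) := isCompactOperator_id
  have h2 : IsCompactOperator S' := h1.comp_clm S'
  exact h2.clm_comp R.subtypeL

/-- approximable operators are compact -/
theorem isCpt_of_mem_opApprox [CompleteSpace W] {T : W →L[ℂ] W} (hT : T ∈ opApprox W) :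
    IsCpt T := by
  have h : T ∈ closure {S : W →L[ℂ] W | IsFinRank S} := hT
  have hcl : IsClosed {S : W →L[ℂ] W | IsCompactOperator S} :=
    isClosed_setOfPred_isCompactOperator
  exact hcl.closure_subset_iff.2 (fun S hS => IsFinRank.isCpt hS) h

/-- every operator in the span of products of compact operators is fine -/
theorem bounded_of_mem_span (lam : ℕ → (W →L[ℂ] W) →L[ℂ] ℂ) (a : ℕ → ℝ)
    (hmain : ∀ A B : W →L[ℂ] W, IsCpt A → IsCpt B → ∃ C : ℝ, ∀ n, (a n) ^ 2 * ‖lam n (A * B)‖ ≤ C)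
    (T : W →L[ℂ] W) (hT : T ∈ Submodule.span ℂ (cptProds W)) :
    ∃ C : ℝ, ∀ n, (a n) ^ 2 * ‖lam n T‖ ≤ C := by
  induction hT using Submodule.span_induction with
  | mem x hx =>
    obtain ⟨A, B, hA, hB, rfl⟩ := hx
    exact hmain A B hA hB
  | zero => exact ⟨0, fun n => by simp⟩
  | add x y _ _ hx hy =>
    obtain ⟨C, hC⟩ := hx
    obtain ⟨D, hD⟩ := hy
    refine ⟨C + D, fun n => ?_⟩
    rw [map_add]
    have := norm_add_le (lam n x) (lam n y)
    nlinarith [hC n, hD n, sq_nonneg (a n)]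
  | smul c x _ hx =>
    obtain ⟨C, hC⟩ := hx
    refine ⟨‖c‖ * C, fun n => ?_⟩
    rw [map_smul, norm_smul]
    nlinarith [hC n, norm_nonneg c]

/-- the finite rank operators as a subspace -/
def frk (W : Type u) [NormedAddCommGroup W] [NormedSpace ℂ W] : Submodule ℂ (W →L[ℂ] W) where
  carrier := {T | IsFinRank T}
  add_mem' := fun hS hT => IsFinRank.add hS hT
  zero_mem' := IsFinRank.zero
  smul_mem' := fun c _ hT => IsFinRank.smul c hT

/-- Banach-Steinhaus, abstract form. -/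
theorem bs_abstract {𝔅 : Type*} [NormedAddCommGroup 𝔅] [NormedSpace ℂ 𝔅] [CompleteSpace 𝔅]
    (E : Submodule ℂ 𝔅) (hE : IsClosed (E : Set 𝔅)) (lam : ℕ → 𝔅 →L[ℂ] ℂ) (a : ℕ → ℝ)
    (ha : Tendsto a atTop atTop) (T : ℕ → 𝔅) (hT : ∀ n, T n ∈ E) (hTn : ∀ n, ‖T n‖ ≤ 1)
    (hlam : ∀ n, lam n (T n) = 1 / (a n : ℂ))
    (hb : ∀ x ∈ E, ∃ C : ℝ, ∀ n, (a n) ^ 2 * ‖lam n x‖ ≤ C) : False := by
  have hEc : CompleteSpace E := hE.completeSpace_coe
  let g : ℕ → E →L[ℂ] ℂ := fun n => ((a n : ℂ) ^ 2) • (lam n).comp E.subtypeL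
  have hg : ∀ n (x : E), ‖g n x‖ = (a n) ^ 2 * ‖lam n x‖ := by
    intro n x
    show ‖((a n : ℂ) ^ 2) • (lam n (x : 𝔅))‖ = _
    rw [norm_smul, norm_pow, Complex.norm_real, Real.norm_eq_abs, sq_abs]
  obtain ⟨C', hC'⟩ := banach_steinhaus (g := g) (by
    intro x
    obtain ⟨C, hC⟩ := hb x x.2
    exact ⟨C, fun n => by rw [hg]; exact hC n⟩)
  obtain ⟨n, hn⟩ := (ha.eventually_gt_atTop (max C' 0)).exists
  have hn0 : 0 < a n := lt_of_le_of_lt (le_max_right _ _) hn
  have hnC : C' < a n := lt_of_le_of_lt (le_max_left _ _) hn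
  let y : E := ⟨T n, hT n⟩
  have h1 : ‖g n y‖ ≤ ‖g n‖ * ‖y‖ := (g n).le_opNorm y
  rw [hg] at h1
  have h2 : ‖lam n (T n)‖ = 1 / a n := by
    rw [hlam, norm_div, norm_one, Complex.norm_real, Real.norm_of_nonneg hn0.le]
  have h3 : ‖y‖ ≤ 1 := hTn n
  have h4 : (a n) ^ 2 * ‖lam n (T n)‖ = a n := by
    rw [h2]; field_simp
  have h5 : a n ≤ ‖g n‖ * ‖y‖ := by
    rw [← h4]; exact h1
  have h6 : ‖g n‖ * ‖y‖ ≤ ‖g n‖ * 1 := mul_le_mul_of_nonneg_left h3 (norm_nonneg (g n))
  have h7 := hC' n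
  linarith

/-- **Banach-Steinhaus end of the proof.** -/
theorem exists_not_mem_span [CompleteSpace W] (lam : ℕ → (W →L[ℂ] W) →L[ℂ] ℂ) (a : ℕ → ℝ)
    (ha : Tendsto a atTop atTop) (T : ℕ → W →L[ℂ] W) (hT : ∀ n, IsFinRank (T n))
    (hTn : ∀ n, ‖T n‖ ≤ 1) (hlam : ∀ n, lam n (T n) = 1 / (a n : ℂ))
    (hmain : ∀ A B : W →L[ℂ] W, IsCompactOperator A → IsCompactOperator B →
      ∃ C : ℝ, ∀ n, (a n) ^ 2 * ‖lam n (A * B)‖ ≤ C) :
    ∃ S : W →L[ℂ] W, S ∈ opApprox W ∧ S ∉ Submodule.span ℂ (cptProds W) := by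
  by_contra hcon
  push Not at hcon
  have hE : ∀ S : W →L[ℂ] W, S ∈ (frk W).topologicalClosure → S ∈ opApprox W := fun S hS => hS
  exact bs_abstract (𝔅 := W →L[ℂ] W) (frk W).topologicalClosure
    (Submodule.isClosed_topologicalClosure (frk W)) lam a ha T
    (fun n => subset_closure (hT n)) hTn hlam
    (fun x hx => bounded_of_mem_span lam a hmain x (hcon x (hE x hx)))

/-- If some approximable operator is not a sum of products of compact operators, then neither
`K(W)` nor `F(W)` is H-unital. -/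
theorem not_hunital [CompleteSpace W] {S : W →L[ℂ] W} (hS : S ∈ opApprox W)
    (hS' : S ∉ Submodule.span ℂ (cptProds W)) : ¬ CompactHUnital W ∧ ¬ ApproxHUnital W := by
  refine ⟨fun h => hS' ?_, fun h => hS' ?_⟩
  · let x : KW W := ⟨S, isCpt_of_mem_opApprox hS⟩
    have hx := mem_span_of_surj (A := KW W) h.1 x
    let φ : KW W →ₗ[ℂ] (W →L[ℂ] W) := (opCompact W).toSubmodule.subtype
    have h1 := Submodule.mem_map_of_mem (f := φ) hx
    rw [Submodule.map_span] at h1
    refine Submodule.span_mono ?_ h1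
    rintro _ ⟨_, ⟨a, b, rfl⟩, rfl⟩
    exact ⟨a.1, b.1, a.2, b.2, rfl⟩
  · let x : FW W := ⟨S, hS⟩
    have hx := mem_span_of_surj (A := FW W) h.1 x
    let φ : FW W →ₗ[ℂ] (W →L[ℂ] W) := (opApprox W).toSubmodule.subtype
    have h1 := Submodule.mem_map_of_mem (f := φ) hx
    rw [Submodule.map_span] at h1
    refine Submodule.span_mono ?_ h1
    rintro _ ⟨_, ⟨a, b, rfl⟩, rfl⟩
    exact ⟨a.1, b.1, isCpt_of_mem_opApprox a.2, isCpt_of_mem_opApprox b.2, rfl⟩

end

end HUN
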