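import Mathlib

/-!
Block (iii) (FAR part) of the construction of a Banach space `X` with
`F(X)` not contained in the span of `K(X) * K(X)` (helper10), as an abstract finite statement.
-/

namespace Pool.Agent.Lib.MP_5c7eee_an.Neg

open Finset

/-- Near orthogonality: for real vectors `v i` with small mutual inner products the square of the
norm of `∑ a i • v i` is almost `∑ ‖a i‖^2 |v i|^2`. -/
theorem near_orth {I J : Type*} [Fintype I] [Fintype J] (v : I → J → ℝ) (gam : ℝ)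
    (hg : 0 ≤ gam)
    (hv : ∀ i i', i ≠ i' → |∑ j, v i j * v i' j| ≤ gam) (a : I → ℂ) (s : ℝ)
    (ha : ∑ i, ‖a i‖ ≤ s) :
    |∑ j, ‖∑ i, a i * (v i j : ℂ)‖ ^ 2 - ∑ i, ‖a i‖ ^ 2 * ∑ j, v i j ^ 2| ≤ gam * s ^ 2 := by
  classical
  have key : ((∑ j, ‖∑ i, a i * (v i j : ℂ)‖ ^ 2 : ℝ) : ℂ)
      = ∑ i, ∑ i', a i * (starRingEnd ℂ) (a i') * ((∑ j, v i j * v i' j : ℝ) : ℂ) := by
    push_cast
    have h1 : ∀ j, ((‖∑ i, a i * (v i j : ℂ)‖ : ℂ)) ^ 2
        = ∑ i, ∑ i', a i * (starRingEnd ℂ) (a i') * ((v i j : ℂ) * (v i' j : ℂ)) := by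
      intro j
      rw [← Complex.mul_conj', map_sum, Finset.sum_mul_sum]
      refine Finset.sum_congr rfl fun i _ => Finset.sum_congr rfl fun i' _ => ?_
      rw [map_mul, Complex.conj_ofReal]
      ring
    rw [Finset.sum_congr rfl fun j _ => h1 j, Finset.sum_comm]
    refine Finset.sum_congr rfl fun i _ => ?_
    rw [Finset.sum_comm]
    refine Finset.sum_congr rfl fun i' _ => ?_
    rw [Finset.mul_sum]
  have key2 : ((∑ j, ‖∑ i, a i * (v i j : ℂ)‖ ^ 2 - ∑ i, ‖a i‖ ^ 2 * ∑ j, v i j ^ 2 : ℝ) : ℂ)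
      = ∑ i, ∑ i', (if i = i' then 0 else
        a i * (starRingEnd ℂ) (a i') * ((∑ j, v i j * v i' j : ℝ) : ℂ)) := by
    rw [Complex.ofReal_sub, key]
    have h2 : ((∑ i, ‖a i‖ ^ 2 * ∑ j, v i j ^ 2 : ℝ) : ℂ)
        = ∑ i, ∑ i', (if i = i' then
          a i * (starRingEnd ℂ) (a i') * ((∑ j, v i j * v i' j : ℝ) : ℂ) else 0) := by
      rw [Complex.ofReal_sum]
      refine Finset.sum_congr rfl fun i _ => ?_
      simp only [Finset.sum_ite_eq, Finset.mem_univ, if_true]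
      have h9 : ∑ j, v i j ^ 2 = ∑ j, v i j * v i j :=
        Finset.sum_congr rfl fun j _ => sq (v i j)
      rw [Complex.mul_conj', Complex.ofReal_mul, Complex.ofReal_pow, h9]
    rw [h2, ← Finset.sum_sub_distrib]
    refine Finset.sum_congr rfl fun i _ => ?_
    rw [← Finset.sum_sub_distrib]
    refine Finset.sum_congr rfl fun i' _ => ?_
    split_ifs <;> simp
  have h3 : |∑ j, ‖∑ i, a i * (v i j : ℂ)‖ ^ 2 - ∑ i, ‖a i‖ ^ 2 * ∑ j, v i j ^ 2|
      = ‖((∑ j, ‖∑ i, a i * (v i j : ℂ)‖ ^ 2 - ∑ i, ‖a i‖ ^ 2 * ∑ j, v i j ^ 2 : ℝ) : ℂ)‖ := by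
    rw [Complex.norm_real, Real.norm_eq_abs]
  rw [h3, key2]
  have h4 : ∀ i i', ‖(if i = i' then 0 else
        a i * (starRingEnd ℂ) (a i') * ((∑ j, v i j * v i' j : ℝ) : ℂ))‖
        ≤ ‖a i‖ * ‖a i'‖ * gam := by
    intro i i'
    split_ifs with h
    · rw [norm_zero]; positivity
    · rw [norm_mul, norm_mul, Complex.norm_real, Real.norm_eq_abs, RCLike.norm_conj]
      exact mul_le_mul_of_nonneg_left (hv i i' h) (by positivity)
  have hs0 : 0 ≤ ∑ i, ‖a i‖ := Finset.sum_nonneg fun i _ => norm_nonneg _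
  calc _ ≤ ∑ i, ∑ i', ‖a i‖ * ‖a i'‖ * gam := by
        refine (norm_sum_le _ _).trans (Finset.sum_le_sum fun i _ => ?_)
        exact (norm_sum_le _ _).trans (Finset.sum_le_sum fun i' _ => h4 i i')
    _ = gam * (∑ i, ‖a i‖) ^ 2 := by
        rw [sq, Finset.sum_mul_sum, Finset.mul_sum]
        refine Finset.sum_congr rfl fun i _ => ?_
        rw [Finset.mul_sum]
        refine Finset.sum_congr rfl fun i' _ => ?_
        ring
    _ ≤ gam * s ^ 2 := by gcongr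

/-- Bessel's inequality with coherence. -/
theorem bessel_coherent {H N : Type*} [Fintype N] (f : H → N → ℝ) (c : ℝ)
    (hf1 : ∀ h, ∑ a, f h a ^ 2 = 1) (S : Finset H)
    (hc : ∀ h ∈ S, ∀ h' ∈ S, h ≠ h' → |∑ a, f h a * f h' a| ≤ c) (hc0 : 0 ≤ c) (w : N → ℂ) :
    ∑ h ∈ S, ‖∑ a, w a * (f h a : ℂ)‖ ^ 2 ≤ (∑ a, ‖w a‖ ^ 2) * (1 + S.card * c) := by
  classical
  set g : S → ℂ := fun h => (starRingEnd ℂ) (∑ a, w a * (f h a : ℂ)) with hgdef
  set A : ℝ := ∑ h ∈ S, ‖∑ a, w a * (f h a : ℂ)‖ ^ 2 with hA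
  have hA0 : 0 ≤ A := Finset.sum_nonneg fun h _ => by positivity
  have hAg : ∑ h : S, ‖g h‖ ^ 2 = A := by
    rw [hA, ← Finset.sum_coe_sort S]
    refine Finset.sum_congr rfl fun h _ => ?_
    rw [hgdef]
    simp only [RCLike.norm_conj]
  have hcs : (∑ h : S, ‖g h‖) ^ 2 ≤ S.card * A := by
    have := sq_sum_le_card_mul_sum_sq (s := (Finset.univ : Finset S)) (f := fun h => ‖g h‖)
    rw [hAg] at this
    simpa using this
  have hno := near_orth (I := S) (J := N) (fun h a => f h a) c hc0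
    (fun i i' hii => hc i i.2 i' i'.2 (fun h => hii (Subtype.ext h))) g _ le_rfl
  have h1 : ∑ i : S, ‖g i‖ ^ 2 * ∑ a, f i a ^ 2 = A := by
    rw [← hAg]
    refine Finset.sum_congr rfl fun i _ => ?_
    rw [hf1, mul_one]
  rw [h1] at hno
  have hy : ∑ a, ‖∑ h : S, g h * (f h a : ℂ)‖ ^ 2 ≤ A * (1 + S.card * c) := by
    have := (abs_le.1 hno).2
    nlinarith
  have hAsum : (A : ℂ) = ∑ a, w a * ∑ h : S, g h * (f h a : ℂ) := by
    rw [← hAg]
    push_cast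
    have : ∀ h : S, ((‖g h‖ : ℂ)) ^ 2 = ∑ a, w a * (g h * (f h a : ℂ)) := by
      intro h
      have h5 : (starRingEnd ℂ) (g h) = ∑ a, w a * (f h a : ℂ) := by
        rw [hgdef]; simp only [Complex.conj_conj]
      rw [← Complex.mul_conj', h5, Finset.mul_sum]
      refine Finset.sum_congr rfl fun a _ => ?_
      ring
    rw [Finset.sum_congr rfl fun h _ => this h, Finset.sum_comm]
    refine Finset.sum_congr rfl fun a _ => ?_
    rw [Finset.mul_sum]
  have hAle : A ^ 2 ≤ (∑ a, ‖w a‖ ^ 2) * (A * (1 + S.card * c)) := by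
    have h6 : A ≤ ∑ a, ‖w a‖ * ‖∑ h : S, g h * (f h a : ℂ)‖ := by
      have : A = ‖(A : ℂ)‖ := by rw [Complex.norm_real, Real.norm_eq_abs, abs_of_nonneg hA0]
      rw [this, hAsum]
      refine (norm_sum_le _ _).trans (Finset.sum_le_sum fun a _ => ?_)
      rw [norm_mul]
    calc A ^ 2 ≤ (∑ a, ‖w a‖ * ‖∑ h : S, g h * (f h a : ℂ)‖) ^ 2 := by gcongr
      _ ≤ (∑ a, ‖w a‖ ^ 2) * ∑ a, ‖∑ h : S, g h * (f h a : ℂ)‖ ^ 2 :=
          Finset.sum_mul_sq_le_sq_mul_sq _ _ _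
      _ ≤ _ := by
          gcongr
  rcases hA0.eq_or_lt with h | h
  · rw [← h]; positivity
  · have : A * A ≤ ((∑ a, ‖w a‖ ^ 2) * (1 + S.card * c)) * A := by nlinarith
    exact le_of_mul_le_mul_right this h

/-- Orthogonal projection of `H → ℂ` onto a subspace, in coordinates. -/
theorem exists_proj {H : Type*} [Fintype H] (V : Submodule ℂ (H → ℂ)) :
    ∃ P : (H → ℂ) →ₗ[ℂ] (H → ℂ),
      (∀ x, P x ∈ V) ∧ (∀ x ∈ V, P x = x) ∧
      (∀ x, ∀ y ∈ V, ∑ h, (starRingEnd ℂ) (y h) * (x h - P x h) = 0) ∧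
      (∀ x, ∑ h, ‖P x h‖ ^ 2 ≤ ∑ h, ‖x h‖ ^ 2) ∧
      (∀ x, ∑ h, ‖x h - P x h‖ ^ 2 ≤ ∑ h, ‖x h‖ ^ 2) ∧
      (∃ K : H → H → ℂ, (∀ x h, P x h = ∑ h', K h h' * x h') ∧ ∀ h, ∑ h', ‖K h h'‖ ^ 2 ≤ 1) := by
  classical
  set e : EuclideanSpace ℂ H ≃ₗ[ℂ] (H → ℂ) := WithLp.linearEquiv 2 ℂ (H → ℂ) with he
  set V' : Submodule ℂ (EuclideanSpace ℂ H) := V.comap (e : EuclideanSpace ℂ H →ₗ[ℂ] (H → ℂ)) with hV'
  set P' := V'.starProjection with hP'
  have hen : ∀ x : H → ℂ, ∑ h, ‖x h‖ ^ 2 = ‖e.symm x‖ ^ 2 := by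
    intro x
    rw [EuclideanSpace.norm_sq_eq]
    rfl
  refine ⟨(e : EuclideanSpace ℂ H →ₗ[ℂ] (H → ℂ)) ∘ₗ (P' : EuclideanSpace ℂ H →ₗ[ℂ] EuclideanSpace ℂ H)
    ∘ₗ (e.symm : (H → ℂ) →ₗ[ℂ] EuclideanSpace ℂ H), ?_, ?_, ?_, ?_, ?_, ?_⟩
  · intro x
    have : P' (e.symm x) ∈ V' := Submodule.starProjection_apply_mem _ _
    exact this
  · intro x hx
    have h1 : e.symm x ∈ V' := by
      change e (e.symm x) ∈ V
      rwa [e.apply_symm_apply]
    have h2 : P' (e.symm x) = e.symm x := Submodule.starProjection_eq_self_iff.2 h1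
    change e (P' (e.symm x)) = x
    rw [h2, e.apply_symm_apply]
  · intro x y hy
    have h1 : e.symm y ∈ V' := by
      change e (e.symm y) ∈ V
      rwa [e.apply_symm_apply]
    have h2 := Submodule.starProjection_inner_eq_zero (K := V') (e.symm x) (e.symm y) h1
    have h3 : inner ℂ (e.symm y) (e.symm x - P' (e.symm x)) = 0 := by
      rw [← inner_conj_symm, h2, map_zero]
    rw [PiLp.inner_apply] at h3
    rw [← h3]
    refine Finset.sum_congr rfl fun h _ => ?_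
    simp only [RCLike.inner_apply]
    rw [mul_comm]
    rfl
  · intro x
    rw [hen x, hen]
    have h1 : e.symm (((e : EuclideanSpace ℂ H →ₗ[ℂ] (H → ℂ)) ∘ₗ
      (P' : EuclideanSpace ℂ H →ₗ[ℂ] EuclideanSpace ℂ H)
      ∘ₗ (e.symm : (H → ℂ) →ₗ[ℂ] EuclideanSpace ℂ H)) x) = P' (e.symm x) := by
      change e.symm (e (P' (e.symm x))) = _
      rw [e.symm_apply_apply]
    rw [h1]
    have := Submodule.norm_starProjection_apply_le V' (e.symm x)
    gcongr
  · intro x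
    have h1 : (e.symm x - P' (e.symm x)) = V'ᗮ.starProjection (e.symm x) := by
      rw [Submodule.starProjection_orthogonal]
      rfl
    have h2 : ∑ h, ‖x h - e (P' (e.symm x)) h‖ ^ 2 = ‖e.symm x - P' (e.symm x)‖ ^ 2 := by
      rw [EuclideanSpace.norm_sq_eq]
      rfl
    change ∑ h, ‖x h - e (P' (e.symm x)) h‖ ^ 2 ≤ _
    rw [h2, hen, h1]
    have := Submodule.norm_starProjection_apply_le V'ᗮ (e.symm x)
    gcongr
  · refine ⟨fun h h' => (starRingEnd ℂ) (P' (EuclideanSpace.single h 1) h'), ?_, ?_⟩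
    · intro x h
      have h1 : inner ℂ (EuclideanSpace.single h (1 : ℂ)) (P' (e.symm x)) = P' (e.symm x) h := by
        rw [EuclideanSpace.inner_single_left]; simp
      have h2 : inner ℂ (EuclideanSpace.single h (1 : ℂ)) (P' (e.symm x))
          = inner ℂ (P' (EuclideanSpace.single h (1 : ℂ))) (e.symm x) :=
        (Submodule.inner_starProjection_left_eq_right V' _ _).symm
      change P' (e.symm x) h = _
      rw [← h1, h2, PiLp.inner_apply]
      refine Finset.sum_congr rfl fun h' _ => ?_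
      simp only [RCLike.inner_apply]
      rw [mul_comm]
      rfl
    · intro h
      have h1 : ∑ h', ‖(starRingEnd ℂ) (P' (EuclideanSpace.single h (1 : ℂ)) h')‖ ^ 2
          = ‖P' (EuclideanSpace.single h (1 : ℂ))‖ ^ 2 := by
        rw [EuclideanSpace.norm_sq_eq]
        refine Finset.sum_congr rfl fun h' _ => ?_
        rw [RCLike.norm_conj]
      rw [h1]
      have h2 := Submodule.norm_starProjection_apply_le V' (EuclideanSpace.single h (1 : ℂ))
      rw [PiLp.norm_single, norm_one] at h2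
      have h3 := norm_nonneg (V'.starProjection (EuclideanSpace.single h (1 : ℂ)))
      rw [hP']
      nlinarith

/-- Type I indices: a family `x = lin + eta` with `lin h = <w, f h>` and
`8 * sum |eta|^2 < sum |lin|^2` has `sum |x h| >= M |w| / (16 t N)`. -/
theorem typeI {H N : Type*} [Fintype H] [Fintype N] (f : H → N → ℝ) (c t : ℝ)
    (hf1 : ∀ h, ∑ a, f h a ^ 2 = 1)
    (hc : ∀ h h', h ≠ h' → |∑ a, f h a * f h' a| ≤ c) (hc0 : 0 < c) (ht : 0 < t)
    (htc : t ^ 2 = 2 * c)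
    (hM : 16 * (Fintype.card N : ℝ) ≤ Fintype.card H)
    (hlow : ∀ w : N → ℂ, (Fintype.card H : ℝ) * ∑ a, ‖w a‖ ^ 2
      ≤ 2 * Fintype.card N * ∑ h, ‖∑ a, w a * (f h a : ℂ)‖ ^ 2)
    (w : N → ℂ) (x : H → ℂ)
    (hII : 8 * ∑ h, ‖x h - ∑ a, w a * (f h a : ℂ)‖ ^ 2 < ∑ h, ‖∑ a, w a * (f h a : ℂ)‖ ^ 2) :
    (Fintype.card H : ℝ) * Real.sqrt (∑ a, ‖w a‖ ^ 2)
      ≤ 16 * t * Fintype.card N * ∑ h, ‖x h‖ := by
  classical
  set W : ℝ := ∑ a, ‖w a‖ ^ 2 with hW
  set y : H → ℝ := fun h => ‖∑ a, w a * (f h a : ℂ)‖ with hy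
  set z : H → ℝ := fun h => ‖x h - ∑ a, w a * (f h a : ℂ)‖ with hz
  set M : ℝ := (Fintype.card H : ℝ) with hMdef
  set n : ℝ := (Fintype.card N : ℝ) with hndef
  set Y : ℝ := ∑ h, y h ^ 2 with hY
  have hII' : 8 * ∑ h, z h ^ 2 < Y := hII
  have hz0 : 0 ≤ ∑ h, z h ^ 2 := Finset.sum_nonneg fun h _ => by positivity
  have hYpos : 0 < Y := by linarith
  have hW0 : 0 ≤ W := Finset.sum_nonneg fun a _ => by positivity
  have hy0 : ∀ h, 0 ≤ y h := fun h => norm_nonneg _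
  have hM0 : 0 ≤ M := by rw [hMdef]; positivity
  have hn0 : 0 ≤ n := by rw [hndef]; positivity
  -- `S`: large values
  set S : Finset H := Finset.univ.filter fun h => t * Real.sqrt W ≤ y h with hS
  have hbes : ∑ h ∈ S, y h ^ 2 ≤ W * (1 + S.card * c) :=
    bessel_coherent f c hf1 S (fun h _ h' _ => hc h h') hc0.le w
  have hSlow : (S.card : ℝ) * (t ^ 2 * W) ≤ ∑ h ∈ S, y h ^ 2 := by
    rw [← nsmul_eq_mul, ← Finset.sum_const]
    refine Finset.sum_le_sum fun h hh => ?_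
    have h1 : t * Real.sqrt W ≤ y h := (Finset.mem_filter.1 hh).2
    have h2 : (t * Real.sqrt W) ^ 2 ≤ y h ^ 2 := by
      have : 0 ≤ t * Real.sqrt W := by positivity
      gcongr
    rw [mul_pow, Real.sq_sqrt hW0] at h2
    exact h2
  have hSle : ∑ h ∈ S, y h ^ 2 ≤ 2 * W := by
    rcases hW0.eq_or_lt with h | h
    · rw [← h] at hbes ⊢
      linarith
    · have h1 : (S.card : ℝ) * (2 * c * W) ≤ W * (1 + S.card * c) := by
        rw [← htc]; exact hSlow.trans hbes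
      have h2 : (S.card : ℝ) * c ≤ 1 := by
        have : W * (S.card * c) ≤ W * 1 := by nlinarith
        exact le_of_mul_le_mul_left this h
      nlinarith
  have hYlow : M * W ≤ 2 * n * Y := hlow w
  have hWY : 2 * W ≤ Y / 4 := by
    rcases hM0.eq_or_lt with h | h
    · -- no indices: contradiction
      exfalso
      have : Fintype.card H = 0 := by
        rw [hMdef] at h
        exact_mod_cast h.symm
      have := Fintype.card_eq_zero_iff.1 this
      rw [hY] at hYpos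
      simp at hYpos
    · have h1 : 16 * n * W ≤ M * W := by gcongr
      have h2 : n * (8 * W) ≤ n * Y := by nlinarith
      rcases hn0.eq_or_lt with h3 | h3
      · exfalso
        have : Fintype.card N = 0 := by
          rw [hndef] at h3
          exact_mod_cast h3.symm
        have := Fintype.card_eq_zero_iff.1 this
        rw [hY] at hYpos
        simp [hy] at hYpos
      · have := le_of_mul_le_mul_left h2 h3
        linarith
  -- `T`: indices where eta is large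
  set T : Finset H := Finset.univ.filter fun h => y h ≤ 2 * z h with hT
  have hTle : ∑ h ∈ T, y h ^ 2 ≤ Y / 2 := by
    have h1 : ∑ h ∈ T, y h ^ 2 ≤ ∑ h ∈ T, 4 * z h ^ 2 := by
      refine Finset.sum_le_sum fun h hh => ?_
      have h2 : y h ≤ 2 * z h := (Finset.mem_filter.1 hh).2
      nlinarith [hy0 h, norm_nonneg (x h - ∑ a, w a * (f h a : ℂ))]
    have h3 : ∑ h ∈ T, 4 * z h ^ 2 ≤ ∑ h, 4 * z h ^ 2 :=
      Finset.sum_le_sum_of_subset_of_nonneg (Finset.subset_univ _) fun h _ _ => by positivity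
    have h5 : ∑ h, 4 * z h ^ 2 = 4 * ∑ h, z h ^ 2 := (Finset.mul_sum ..).symm
    linarith
  set U : Finset H := Finset.univ.filter fun h => ¬ (t * Real.sqrt W ≤ y h) ∧ ¬ (y h ≤ 2 * z h)
    with hU
  have hcover : Y ≤ ∑ h ∈ S, y h ^ 2 + ∑ h ∈ T, y h ^ 2 + ∑ h ∈ U, y h ^ 2 := by
    have h1 : (Finset.univ : Finset H) ⊆ (S ∪ T) ∪ U := by
      intro h _
      simp only [hS, hT, hU, Finset.mem_union, Finset.mem_filter, Finset.mem_univ, true_and]
      tauto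
    calc Y ≤ ∑ h ∈ (S ∪ T) ∪ U, y h ^ 2 :=
          Finset.sum_le_sum_of_subset_of_nonneg h1 fun h _ _ => by positivity
      _ ≤ ∑ h ∈ S ∪ T, y h ^ 2 + ∑ h ∈ U, y h ^ 2 := by
          rw [← Finset.sum_union_inter]
          have : 0 ≤ ∑ h ∈ (S ∪ T) ∩ U, y h ^ 2 := Finset.sum_nonneg fun h _ => by positivity
          linarith
      _ ≤ _ := by
          have h2 := Finset.sum_union_inter (s₁ := S) (s₂ := T) (f := fun h => y h ^ 2)
          have : 0 ≤ ∑ h ∈ S ∩ T, y h ^ 2 := Finset.sum_nonneg fun h _ => by positivity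
          linarith
  have hUlow : Y / 4 ≤ ∑ h ∈ U, y h ^ 2 := by linarith
  have hUup : ∑ h ∈ U, y h ^ 2 ≤ 2 * t * Real.sqrt W * ∑ h, ‖x h‖ := by
    have h1 : ∑ h ∈ U, y h ^ 2 ≤ ∑ h ∈ U, 2 * t * Real.sqrt W * ‖x h‖ := by
      refine Finset.sum_le_sum fun h hh => ?_
      obtain ⟨h2, h3⟩ := (Finset.mem_filter.1 hh).2
      have h4 : y h ≤ ‖x h‖ + z h := by
        have : ‖∑ a, w a * (f h a : ℂ)‖ ≤ ‖x h‖ + ‖∑ a, w a * (f h a : ℂ) - x h‖ := by
          have := norm_add_le (x h) (∑ a, w a * (f h a : ℂ) - x h)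
          simpa using this
        rw [norm_sub_rev] at this
        exact this
      replace h2 := not_le.1 h2
      replace h3 := not_le.1 h3
      have h5 : y h ≤ 2 * ‖x h‖ := by linarith
      have h6 : y h ^ 2 ≤ (t * Real.sqrt W) * (2 * ‖x h‖) := by
        rw [sq]
        exact mul_le_mul h2.le h5 (hy0 h) (by positivity)
      linarith
    have h7 : ∑ h ∈ U, 2 * t * Real.sqrt W * ‖x h‖ ≤ ∑ h, 2 * t * Real.sqrt W * ‖x h‖ :=
      Finset.sum_le_sum_of_subset_of_nonneg (Finset.subset_univ _) fun h _ _ => by positivity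
    have h8 : ∑ h, 2 * t * Real.sqrt W * ‖x h‖ = 2 * t * Real.sqrt W * ∑ h, ‖x h‖ :=
      (Finset.mul_sum ..).symm
    linarith
  set X1 : ℝ := ∑ h, ‖x h‖ with hX1
  have hX0 : 0 ≤ X1 := Finset.sum_nonneg fun h _ => norm_nonneg _
  set r : ℝ := Real.sqrt W with hr
  have hr0 : 0 ≤ r := Real.sqrt_nonneg _
  have hrW : r ^ 2 = W := Real.sq_sqrt hW0
  have hfin : (M * r) * r ≤ (16 * t * n * X1) * r := by
    have h1 : Y ≤ 8 * t * r * X1 := by linarith
    have h2 : 2 * n * Y ≤ 2 * n * (8 * t * r * X1) := by gcongr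
    calc (M * r) * r = M * W := by rw [← hrW]; ring
      _ ≤ 2 * n * Y := hYlow
      _ ≤ 2 * n * (8 * t * r * X1) := h2
      _ = _ := by ring
  rcases hr0.eq_or_lt with h | h
  · rw [← h, mul_zero]; positivity
  · exact le_of_mul_le_mul_right hfin h

/-- Contribution of a type I index. -/
theorem typeI_contrib {H N : Type*} [Fintype H] [Fintype N] (f : H → N → ℝ) (c t : ℝ)
    (hf1 : ∀ h, ∑ a, f h a ^ 2 = 1)
    (hc : ∀ h h', h ≠ h' → |∑ a, f h a * f h' a| ≤ c) (hc0 : 0 < c) (ht : 0 < t)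
    (htc : t ^ 2 = 2 * c)
    (hM : 16 * (Fintype.card N : ℝ) ≤ Fintype.card H)
    (hlow : ∀ w : N → ℂ, (Fintype.card H : ℝ) * ∑ a, ‖w a‖ ^ 2
      ≤ 2 * Fintype.card N * ∑ h, ‖∑ a, w a * (f h a : ℂ)‖ ^ 2)
    (hup : ∀ w : N → ℂ, (Fintype.card N : ℝ) * ∑ h, ‖∑ a, w a * (f h a : ℂ)‖ ^ 2
      ≤ 2 * Fintype.card H * ∑ a, ‖w a‖ ^ 2)
    (w : N → ℂ) (x : H → ℂ)
    (hII : 8 * ∑ h, ‖x h - ∑ a, w a * (f h a : ℂ)‖ ^ 2 < ∑ h, ‖∑ a, w a * (f h a : ℂ)‖ ^ 2)
    (bet : N → ℂ) (b : ℝ) (hb : 0 ≤ b)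
    (hBv : ∀ w : N → ℂ, ‖∑ a, w a * bet a‖ ≤ 2 * b * Real.sqrt (∑ a, ‖w a‖ ^ 2)) :
    ‖∑ h, (∑ a, w a * (f h a : ℂ)) * ∑ a, bet a * (f h a : ℂ)‖ ≤ 64 * t * b * ∑ h, ‖x h‖ := by
  classical
  set M : ℝ := (Fintype.card H : ℝ) with hMdef
  set n : ℝ := (Fintype.card N : ℝ) with hndef
  have hM0 : 0 ≤ M := by rw [hMdef]; positivity
  have hn0 : 0 ≤ n := by rw [hndef]; positivity
  set lin : H → ℂ := fun h => ∑ a, w a * (f h a : ℂ) with hlin
  have h4 := typeI f c t hf1 hc hc0 ht htc hM hlow w x hII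
  -- Cauchy-Schwarz
  have hbn : Real.sqrt (∑ a, ‖bet a‖ ^ 2) ≤ 2 * b := by
    have h5 := hBv (fun a => (starRingEnd ℂ) (bet a))
    have h6 : ‖∑ a, (starRingEnd ℂ) (bet a) * bet a‖ = ∑ a, ‖bet a‖ ^ 2 := by
      have h7 : ∑ a, (starRingEnd ℂ) (bet a) * bet a
          = ((∑ a, ‖bet a‖ ^ 2 : ℝ) : ℂ) := by
        push_cast
        refine Finset.sum_congr rfl fun a _ => ?_
        rw [← Complex.conj_mul']
      rw [h7, Complex.norm_real, Real.norm_eq_abs, abs_of_nonneg]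
      exact Finset.sum_nonneg fun a _ => by positivity
    have h8 : ∑ a, ‖(starRingEnd ℂ) (bet a)‖ ^ 2 = ∑ a, ‖bet a‖ ^ 2 :=
      Finset.sum_congr rfl fun a _ => by rw [RCLike.norm_conj]
    rw [h6, h8] at h5
    set q := Real.sqrt (∑ a, ‖bet a‖ ^ 2) with hq
    have hq0 : 0 ≤ q := Real.sqrt_nonneg _
    have hqq : q ^ 2 = ∑ a, ‖bet a‖ ^ 2 :=
      Real.sq_sqrt (Finset.sum_nonneg fun a _ => by positivity)
    rw [← hqq] at h5
    rcases hq0.eq_or_lt with h | h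
    · rw [← h]; positivity
    · have : q * q ≤ (2 * b) * q := by nlinarith
      exact le_of_mul_le_mul_right this h
  have h5 : ‖∑ h, lin h * ∑ a, bet a * (f h a : ℂ)‖ ^ 2
      ≤ (∑ h, ‖lin h‖ ^ 2) * ∑ h, ‖∑ a, bet a * (f h a : ℂ)‖ ^ 2 := by
    have h6 : ‖∑ h, lin h * ∑ a, bet a * (f h a : ℂ)‖
        ≤ ∑ h, ‖lin h‖ * ‖∑ a, bet a * (f h a : ℂ)‖ := by
      refine (norm_sum_le _ _).trans (Finset.sum_le_sum fun h _ => ?_)
      rw [norm_mul]
    calc _ ≤ (∑ h, ‖lin h‖ * ‖∑ a, bet a * (f h a : ℂ)‖) ^ 2 := by gcongr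
      _ ≤ _ := Finset.sum_mul_sq_le_sq_mul_sq _ _ _
  have h6 : n * ∑ h, ‖lin h‖ ^ 2 ≤ 2 * M * ∑ a, ‖w a‖ ^ 2 := hup w
  have h7 := hup bet
  set U := ∑ h, ‖lin h‖ ^ 2 with hU
  set U' := ∑ h, ‖∑ a, bet a * (f h a : ℂ)‖ ^ 2 with hU'
  set r := Real.sqrt (∑ a, ‖w a‖ ^ 2) with hr
  set q := Real.sqrt (∑ a, ‖bet a‖ ^ 2) with hq
  have hr0 : 0 ≤ r := Real.sqrt_nonneg _
  have hq0 : 0 ≤ q := Real.sqrt_nonneg _
  have hrr : r ^ 2 = ∑ a, ‖w a‖ ^ 2 :=
    Real.sq_sqrt (Finset.sum_nonneg fun a _ => by positivity)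
  have hqq : q ^ 2 = ∑ a, ‖bet a‖ ^ 2 :=
    Real.sq_sqrt (Finset.sum_nonneg fun a _ => by positivity)
  rw [← hrr] at h6
  rw [← hqq] at h7
  have hU0 : 0 ≤ U := Finset.sum_nonneg fun h _ => by positivity
  have hU'0 : 0 ≤ U' := Finset.sum_nonneg fun h _ => by positivity
  set s := ∑ h, ‖x h‖ with hs
  have hs0 : 0 ≤ s := Finset.sum_nonneg fun h _ => norm_nonneg _
  set y := ‖∑ h, lin h * ∑ a, bet a * (f h a : ℂ)‖ with hy
  have hy0 : 0 ≤ y := norm_nonneg _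
  have h9 : (n * y) ^ 2 ≤ (2 * M * r * q) ^ 2 := by
    calc (n * y) ^ 2 = n * n * y ^ 2 := by ring
      _ ≤ n * n * (U * U') := by gcongr
      _ = (n * U) * (n * U') := by ring
      _ ≤ (2 * M * r ^ 2) * (2 * M * q ^ 2) := by
          have : 0 ≤ n * U' := by positivity
          gcongr
      _ = _ := by ring
  have h10 : n * y ≤ 2 * M * r * q := le_of_sq_le_sq h9 (by positivity)
  have h11 : n * y ≤ n * (64 * t * b * s) := by
    calc n * y ≤ 2 * M * r * q := h10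
      _ = 2 * q * (M * r) := by ring
      _ ≤ 2 * (2 * b) * (16 * t * n * s) := by
          have : 0 ≤ M * r := by positivity
          gcongr
      _ = _ := by ring
  rcases hn0.eq_or_lt with h | h
  · -- N empty: lin = 0
    have hN : Fintype.card N = 0 := by
      rw [hndef] at h
      exact_mod_cast h.symm
    have := Fintype.card_eq_zero_iff.1 hN
    have h12 : y = 0 := by
      rw [hy]
      simp
    change y ≤ _
    rw [h12]
    positivity
  · exact le_of_mul_le_mul_left h11 h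

/-- Block (iii). -/
theorem far_block {H I J N : Type*} [Fintype H] [Fintype I] [Fintype J] [Fintype N]
    (f : H → N → ℝ) (c t : ℝ)
    (hf1 : ∀ h, ∑ a, f h a ^ 2 = 1)
    (hc : ∀ h h', h ≠ h' → |∑ a, f h a * f h' a| ≤ c) (hc0 : 0 < c) (ht : 0 < t)
    (htc : t ^ 2 = 2 * c)
    (hM : 16 * (Fintype.card N : ℝ) ≤ Fintype.card H)
    (hlow : ∀ w : N → ℂ, (Fintype.card H : ℝ) * ∑ a, ‖w a‖ ^ 2
      ≤ 2 * Fintype.card N * ∑ h, ‖∑ a, w a * (f h a : ℂ)‖ ^ 2)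
    (hup : ∀ w : N → ℂ, (Fintype.card N : ℝ) * ∑ h, ‖∑ a, w a * (f h a : ℂ)‖ ^ 2
      ≤ 2 * Fintype.card H * ∑ a, ‖w a‖ ^ 2)
    (v : I → J → ℝ) (gam : ℝ) (hg : 0 ≤ gam)
    (hv : ∀ i i', i ≠ i' → |∑ j, v i j * v i' j| ≤ gam)
    (hgM : gam * (1 + Real.sqrt (Fintype.card H)) ^ 2 ≤ 1)
    (nu : H → I → ℂ) (hnu : ∀ h, ∑ i, ‖nu h i‖ ≤ 1)
    (X : H → J → ℂ) (R : ℝ) (hR : 0 ≤ R) (hX : ∀ h, ∑ j, ‖X h j‖ ^ 2 ≤ R ^ 2)
    (L : N → J → ℂ)
    (hL : ∀ h j, X h j + ∑ i, nu h i * (v i j : ℂ) = ∑ a, L a j * (f h a : ℂ))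
    (B : N → J → ℂ) (b : ℝ) (hb : 0 ≤ b)
    (hB : ∑ h, ∑ j, ‖∑ a, B a j * (f h a : ℂ)‖ ^ 2 ≤ 2 * Fintype.card H)
    (hBv : ∀ i, ∀ w : N → ℂ, ‖∑ a, w a * ∑ j, (v i j : ℂ) * B a j‖
      ≤ 2 * b * Real.sqrt (∑ a, ‖w a‖ ^ 2)) :
    ‖∑ h, ∑ i, nu h i * ∑ j, (v i j : ℂ) * ∑ a, B a j * (f h a : ℂ)‖
      ≤ (64 * t * b + 5 * (R + 1)) * Fintype.card H := by
  classical
  set M : ℝ := (Fintype.card H : ℝ) with hMdef
  set n : ℝ := (Fintype.card N : ℝ) with hndef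
  have hM0 : 0 ≤ M := by rw [hMdef]; positivity
  have hn0 : 0 ≤ n := by rw [hndef]; positivity
  have hgM1 : gam ≤ 1 ∧ gam * M ≤ 1 := by
    have h1 : 0 ≤ Real.sqrt M := Real.sqrt_nonneg _
    have h2 : Real.sqrt M ^ 2 = M := Real.sq_sqrt hM0
    have h3 : (1 + Real.sqrt M) ^ 2 = 1 + 2 * Real.sqrt M + M := by nlinarith
    rw [h3] at hgM
    constructor
    · nlinarith [mul_nonneg hg h1, mul_nonneg hg hM0]
    · nlinarith [mul_nonneg hg h1, mul_nonneg hg hM0]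
  -- the subspace of linear functions of `f h`
  set Phi : (N → ℂ) →ₗ[ℂ] (H → ℂ) :=
    { toFun := fun w h => ∑ a, w a * (f h a : ℂ)
      map_add' := by
        intro w w'
        ext h
        simp only [Pi.add_apply, add_mul, Finset.sum_add_distrib]
      map_smul' := by
        intro r w
        ext h
        simp only [Pi.smul_apply, smul_eq_mul, RingHom.id_apply, Finset.mul_sum, mul_assoc] } with hPhi
  have hPhia : ∀ w h, Phi w h = ∑ a, w a * (f h a : ℂ) := fun w h => rfl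
  obtain ⟨P, hPm, hPf, hPo, hPn, hPn', K, hK, hK1⟩ := exists_proj (LinearMap.range Phi)
  set lin : I → H → ℂ := fun i => P (fun h => nu h i) with hlin
  set eta : I → H → ℂ := fun i h => nu h i - lin i h with heta
  choose w hw using fun i => (LinearMap.mem_range.1 (hPm (fun h => nu h i)))
  have hlinw : ∀ i h, lin i h = ∑ a, w i a * (f h a : ℂ) := by
    intro i h
    rw [← hPhia, hw]
  -- the functionals beta
  set bet : I → N → ℂ := fun i a => ∑ j, (v i j : ℂ) * B a j with hbet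
  have hbetf : ∀ i h, ∑ j, (v i j : ℂ) * ∑ a, B a j * (f h a : ℂ) = ∑ a, bet i a * (f h a : ℂ) := by
    intro i h
    simp only [hbet, Finset.sum_mul, Finset.mul_sum]
    rw [Finset.sum_comm]
    refine Finset.sum_congr rfl fun a _ => Finset.sum_congr rfl fun j _ => ?_
    ring
  have hstep1 : ∀ i, ∑ h, nu h i * ∑ a, bet i a * (f h a : ℂ)
      = ∑ h, lin i h * ∑ a, bet i a * (f h a : ℂ) := by
    intro i
    have h1 := hPo (fun h => nu h i) (Phi fun a => (starRingEnd ℂ) (bet i a))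
      (LinearMap.mem_range_self _ _)
    have h2 : ∀ h, (starRingEnd ℂ) (Phi (fun a => (starRingEnd ℂ) (bet i a)) h)
        = ∑ a, bet i a * (f h a : ℂ) := by
      intro h
      rw [hPhia, map_sum]
      refine Finset.sum_congr rfl fun a _ => ?_
      rw [map_mul, Complex.conj_conj, Complex.conj_ofReal]
    rw [Finset.sum_congr rfl fun h _ => by rw [h2 h]] at h1
    rw [← sub_eq_zero, ← Finset.sum_sub_distrib, ← h1]
    refine Finset.sum_congr rfl fun h _ => ?_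
    simp only [hlin]
    ring
  -- row sums of K
  have hKrow : ∀ h, ∑ h', ‖K h h'‖ ≤ Real.sqrt M := by
    intro h
    have h1 := sq_sum_le_card_mul_sum_sq (s := (Finset.univ : Finset H)) (f := fun h' => ‖K h h'‖)
    apply Real.le_sqrt_of_sq_le
    have h2 : ((Finset.univ : Finset H).card : ℝ) = M := by rw [hMdef]; rfl
    rw [h2] at h1
    nlinarith [hK1 h]
  have hlinrow : ∀ h, ∑ i, ‖lin i h‖ ≤ Real.sqrt M := by
    intro h
    calc ∑ i, ‖lin i h‖ = ∑ i, ‖∑ h', K h h' * nu h' i‖ := by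
          refine Finset.sum_congr rfl fun i _ => ?_
          rw [← hK]
      _ ≤ ∑ i, ∑ h', ‖K h h'‖ * ‖nu h' i‖ := by
          refine Finset.sum_le_sum fun i _ => (norm_sum_le _ _).trans (Finset.sum_le_sum fun h' _ => ?_)
          rw [norm_mul]
      _ = ∑ h', ‖K h h'‖ * ∑ i, ‖nu h' i‖ := by
          rw [Finset.sum_comm]
          refine Finset.sum_congr rfl fun h' _ => ?_
          rw [Finset.mul_sum]
      _ ≤ ∑ h', ‖K h h'‖ * 1 := by
          gcongr with h' _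
          exact hnu h'
      _ ≤ _ := by
          rw [← Finset.sum_mul, mul_one]
          exact hKrow h
  have hetarow : ∀ h, ∑ i, ‖eta i h‖ ≤ 1 + Real.sqrt M := by
    intro h
    calc ∑ i, ‖eta i h‖ ≤ ∑ i, (‖nu h i‖ + ‖lin i h‖) :=
          Finset.sum_le_sum fun i _ => norm_sub_le _ _
      _ ≤ _ := by
          rw [Finset.sum_add_distrib]
          exact add_le_add (hnu h) (hlinrow h)
  -- (1-P) kills the linear family
  set Xp : J → H → ℂ := fun j h => X h j - P (fun h => X h j) h with hXp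
  have hkill : ∀ j h, ∑ i, eta i h * (v i j : ℂ) = - Xp j h := by
    intro j h
    have h1 : (fun h => X h j) + ∑ i, (v i j : ℂ) • (fun h => nu h i)
        = Phi (fun a => L a j) := by
      ext h
      rw [hPhia, ← hL h j]
      simp only [Pi.add_apply, Finset.sum_apply, Pi.smul_apply, smul_eq_mul]
      congr 1
      refine Finset.sum_congr rfl fun i _ => ?_
      ring
    have h2 := hPf _ (LinearMap.mem_range_self Phi (fun a => L a j))
    rw [← h1, map_add, map_sum] at h2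
    have h3 := congrFun h2 h
    simp only [Pi.add_apply, Finset.sum_apply, map_smul, Pi.smul_apply, smul_eq_mul] at h3
    simp only [heta, hXp, hlin, sub_mul, Finset.sum_sub_distrib]
    have h4 : ∑ i, nu h i * (v i j : ℂ) = ∑ i, (v i j : ℂ) * nu h i :=
      Finset.sum_congr rfl fun i _ => mul_comm _ _
    have h5 : ∑ i, P (fun h => nu h i) h * (v i j : ℂ) = ∑ i, (v i j : ℂ) * P (fun h => nu h i) h :=
      Finset.sum_congr rfl fun i _ => mul_comm _ _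
    rw [h4, h5]
    linear_combination -h3
  have hXpsum : ∑ h, ∑ j, ‖Xp j h‖ ^ 2 ≤ R ^ 2 * M := by
    calc ∑ h, ∑ j, ‖Xp j h‖ ^ 2 = ∑ j, ∑ h, ‖Xp j h‖ ^ 2 := Finset.sum_comm
      _ ≤ ∑ j, ∑ h, ‖X h j‖ ^ 2 := Finset.sum_le_sum fun j _ => hPn' (fun h => X h j)
      _ = ∑ h, ∑ j, ‖X h j‖ ^ 2 := Finset.sum_comm
      _ ≤ ∑ _h : H, R ^ 2 := Finset.sum_le_sum fun h _ => hX h
      _ = _ := by rw [Finset.sum_const, nsmul_eq_mul, mul_comm]; rfl
  set vv : I → ℝ := fun i => ∑ j, v i j ^ 2 with hvv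
  have hvv0 : ∀ i, 0 ≤ vv i := fun i => Finset.sum_nonneg fun j _ => sq_nonneg _
  have hetasum : ∑ h, ∑ i, ‖eta i h‖ ^ 2 * vv i ≤ (R ^ 2 + 1) * M := by
    have h1 : ∀ h, ∑ i, ‖eta i h‖ ^ 2 * vv i ≤ ∑ j, ‖Xp j h‖ ^ 2 + 1 := by
      intro h
      have h2 := near_orth v gam hg hv (fun i => eta i h) _ (hetarow h)
      have h3 := (abs_le.1 h2).1
      have h4 : ∑ j, ‖∑ i, eta i h * (v i j : ℂ)‖ ^ 2 = ∑ j, ‖Xp j h‖ ^ 2 := by
        refine Finset.sum_congr rfl fun j _ => ?_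
        rw [hkill, norm_neg]
      rw [h4] at h3
      linarith
    calc ∑ h, ∑ i, ‖eta i h‖ ^ 2 * vv i ≤ ∑ h, (∑ j, ‖Xp j h‖ ^ 2 + 1) :=
          Finset.sum_le_sum fun h _ => h1 h
      _ = ∑ h, ∑ j, ‖Xp j h‖ ^ 2 + M := by
          rw [Finset.sum_add_distrib]
          simp [hMdef]
      _ ≤ _ := by linarith
  -- split of the indices
  set I2 : Finset I := Finset.univ.filter fun i => ∑ h, ‖lin i h‖ ^ 2 ≤ 8 * ∑ h, ‖eta i h‖ ^ 2 with hI2
  have hsplit : ∑ h, ∑ i, nu h i * ∑ j, (v i j : ℂ) * ∑ a, B a j * (f h a : ℂ)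
      = ∑ i ∈ I2, ∑ h, lin i h * ∑ a, bet i a * (f h a : ℂ)
        + ∑ i ∈ I2ᶜ, ∑ h, lin i h * ∑ a, bet i a * (f h a : ℂ) := by
    rw [Finset.sum_add_sum_compl, Finset.sum_comm]
    refine Finset.sum_congr rfl fun i _ => ?_
    rw [← hstep1]
    refine Finset.sum_congr rfl fun h _ => ?_
    rw [hbetf]
  -- type II
  have hTII : ‖∑ i ∈ I2, ∑ h, lin i h * ∑ a, bet i a * (f h a : ℂ)‖ ≤ 5 * (R + 1) * M := by
    set W : H → J → ℂ := fun h j => ∑ i ∈ I2, lin i h * (v i j : ℂ) with hWdef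
    have hWs : ∑ h, ∑ j, ‖W h j‖ ^ 2 ≤ (8 * R ^ 2 + 9) * M := by
      have h1 : ∀ h, ∑ j, ‖W h j‖ ^ 2 ≤ ∑ i ∈ I2, ‖lin i h‖ ^ 2 * vv i + 1 := by
        intro h
        set aa : I → ℂ := fun i => if i ∈ I2 then lin i h else 0 with haa
        have h2 : ∑ i, ‖aa i‖ ≤ Real.sqrt M := by
          refine le_trans (Finset.sum_le_sum fun i _ => ?_) (hlinrow h)
          rw [haa]
          dsimp only
          split_ifs
          · exact le_rfl
          · rw [norm_zero]; exact norm_nonneg _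
        have h3 := near_orth v gam hg hv aa _ h2
        have h4 : ∀ j, ∑ i, aa i * (v i j : ℂ) = W h j := by
          intro j
          simp only [haa, hWdef, ite_mul, zero_mul, Finset.sum_ite_mem, Finset.univ_inter]
        have h5 : ∑ i, ‖aa i‖ ^ 2 * ∑ j, v i j ^ 2 = ∑ i ∈ I2, ‖lin i h‖ ^ 2 * vv i := by
          have : ∀ i, ‖aa i‖ ^ 2 * ∑ j, v i j ^ 2 = if i ∈ I2 then ‖lin i h‖ ^ 2 * vv i else 0 := by
            intro i
            simp only [haa, hvv]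
            split_ifs <;> simp
          rw [Finset.sum_congr rfl fun i _ => this i, Finset.sum_ite_mem, Finset.univ_inter]
        rw [h5, Finset.sum_congr rfl fun j _ => by rw [h4 j]] at h3
        have h6 := (abs_le.1 h3).2
        rw [Real.sq_sqrt hM0] at h6
        linarith [hgM1.2]
      have h7 : ∑ h, ∑ i ∈ I2, ‖lin i h‖ ^ 2 * vv i ≤ 8 * ((R ^ 2 + 1) * M) := by
        calc ∑ h, ∑ i ∈ I2, ‖lin i h‖ ^ 2 * vv i = ∑ i ∈ I2, (∑ h, ‖lin i h‖ ^ 2) * vv i := by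
              rw [Finset.sum_comm]
              refine Finset.sum_congr rfl fun i _ => ?_
              rw [Finset.sum_mul]
          _ ≤ ∑ i ∈ I2, (8 * ∑ h, ‖eta i h‖ ^ 2) * vv i := by
              refine Finset.sum_le_sum fun i hi => ?_
              have := (Finset.mem_filter.1 hi).2
              exact mul_le_mul_of_nonneg_right this (hvv0 i)
          _ ≤ ∑ i, (8 * ∑ h, ‖eta i h‖ ^ 2) * vv i :=
              Finset.sum_le_sum_of_subset_of_nonneg (Finset.subset_univ _) fun i _ _ => by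
                have := hvv0 i
                positivity
          _ = 8 * ∑ h, ∑ i, ‖eta i h‖ ^ 2 * vv i := by
              rw [Finset.sum_comm, Finset.mul_sum]
              refine Finset.sum_congr rfl fun i _ => ?_
              rw [← Finset.sum_mul]
              ring
          _ ≤ _ := by linarith
      calc ∑ h, ∑ j, ‖W h j‖ ^ 2 ≤ ∑ h, (∑ i ∈ I2, ‖lin i h‖ ^ 2 * vv i + 1) :=
            Finset.sum_le_sum fun h _ => h1 h
        _ = ∑ h, ∑ i ∈ I2, ‖lin i h‖ ^ 2 * vv i + M := by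
            rw [Finset.sum_add_distrib]
            simp [hMdef]
        _ ≤ _ := by linarith
    have hre : ∑ i ∈ I2, ∑ h, lin i h * ∑ a, bet i a * (f h a : ℂ)
        = ∑ h, ∑ j, W h j * ∑ a, B a j * (f h a : ℂ) := by
      rw [Finset.sum_comm]
      refine Finset.sum_congr rfl fun h _ => ?_
      simp only [hWdef, Finset.sum_mul]
      rw [Finset.sum_comm]
      refine Finset.sum_congr rfl fun i _ => ?_
      rw [← hbetf, Finset.mul_sum]
      refine Finset.sum_congr rfl fun j _ => ?_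
      ring
    rw [hre]
    have h8 : ‖∑ h, ∑ j, W h j * ∑ a, B a j * (f h a : ℂ)‖ ^ 2
        ≤ (∑ h, ∑ j, ‖W h j‖ ^ 2) * ∑ h, ∑ j, ‖∑ a, B a j * (f h a : ℂ)‖ ^ 2 := by
      have h9 : ‖∑ h, ∑ j, W h j * ∑ a, B a j * (f h a : ℂ)‖
          ≤ ∑ p : H × J, ‖W p.1 p.2‖ * ‖∑ a, B a p.2 * (f p.1 a : ℂ)‖ := by
        rw [← Finset.univ_product_univ, Finset.sum_product]
        refine (norm_sum_le _ _).trans (Finset.sum_le_sum fun h _ => ?_)
        refine (norm_sum_le _ _).trans (Finset.sum_le_sum fun j _ => ?_)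
        rw [norm_mul]
      have h10 := Finset.sum_mul_sq_le_sq_mul_sq (Finset.univ : Finset (H × J))
        (fun p => ‖W p.1 p.2‖) (fun p => ‖∑ a, B a p.2 * (f p.1 a : ℂ)‖)
      rw [← Finset.univ_product_univ, Finset.sum_product (f := fun p : H × J => ‖W p.1 p.2‖ ^ 2),
        Finset.sum_product (f := fun p : H × J => ‖∑ a, B a p.2 * (f p.1 a : ℂ)‖ ^ 2)] at h10
      rw [← Finset.univ_product_univ] at h9
      calc _ ≤ (∑ p ∈ (Finset.univ : Finset H) ×ˢ (Finset.univ : Finset J),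
            ‖W p.1 p.2‖ * ‖∑ a, B a p.2 * (f p.1 a : ℂ)‖) ^ 2 := by gcongr
        _ ≤ _ := h10
    have h11 : ‖∑ h, ∑ j, W h j * ∑ a, B a j * (f h a : ℂ)‖ ^ 2 ≤ (5 * (R + 1) * M) ^ 2 := by
      calc _ ≤ ((8 * R ^ 2 + 9) * M) * (2 * M) := by
            refine h8.trans ?_
            have : 0 ≤ ∑ h, ∑ j, ‖∑ a, B a j * (f h a : ℂ)‖ ^ 2 :=
              Finset.sum_nonneg fun h _ => Finset.sum_nonneg fun j _ => by positivity
            gcongr
        _ ≤ _ := by nlinarith [mul_nonneg hR (sq_nonneg M), mul_nonneg (sq_nonneg R) (sq_nonneg M), sq_nonneg M]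
    exact le_of_sq_le_sq h11 (by positivity)
  -- type I
  have hTI : ‖∑ i ∈ I2ᶜ, ∑ h, lin i h * ∑ a, bet i a * (f h a : ℂ)‖ ≤ 64 * t * b * M := by
    have h1 : ∀ i ∈ I2ᶜ, ‖∑ h, lin i h * ∑ a, bet i a * (f h a : ℂ)‖ ≤ 64 * t * b * ∑ h, ‖nu h i‖ := by
      intro i hi
      have h2 : 8 * ∑ h, ‖eta i h‖ ^ 2 < ∑ h, ‖lin i h‖ ^ 2 := by
        have := Finset.mem_compl.1 hi
        rw [hI2, Finset.mem_filter] at this
        simpa using this
      have h3 : 8 * ∑ h, ‖nu h i - ∑ a, w i a * (f h a : ℂ)‖ ^ 2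
          < ∑ h, ‖∑ a, w i a * (f h a : ℂ)‖ ^ 2 := by
        simpa only [heta, hlinw] using h2
      have h4 := typeI_contrib f c t hf1 hc hc0 ht htc hM hlow hup (w i) (fun h => nu h i) h3
        (bet i) b hb (hBv i)
      simpa only [hlinw] using h4
    calc ‖∑ i ∈ I2ᶜ, ∑ h, lin i h * ∑ a, bet i a * (f h a : ℂ)‖
        ≤ ∑ i ∈ I2ᶜ, 64 * t * b * ∑ h, ‖nu h i‖ :=
          (norm_sum_le _ _).trans (Finset.sum_le_sum h1)
      _ ≤ ∑ i, 64 * t * b * ∑ h, ‖nu h i‖ :=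
          Finset.sum_le_sum_of_subset_of_nonneg (Finset.subset_univ _) fun i _ _ => by
            have : 0 ≤ ∑ h, ‖nu h i‖ := Finset.sum_nonneg fun h _ => norm_nonneg _
            positivity
      _ = 64 * t * b * ∑ h, ∑ i, ‖nu h i‖ := by
          rw [Finset.sum_comm, Finset.mul_sum]
      _ ≤ 64 * t * b * ∑ _h : H, (1 : ℝ) := by
          gcongr with h _
          exact hnu h
      _ = _ := by simp [hMdef]
  rw [hsplit]
  calc _ ≤ ‖∑ i ∈ I2, ∑ h, lin i h * ∑ a, bet i a * (f h a : ℂ)‖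
      + ‖∑ i ∈ I2ᶜ, ∑ h, lin i h * ∑ a, bet i a * (f h a : ℂ)‖ := norm_add_le _ _
    _ ≤ 5 * (R + 1) * M + 64 * t * b * M := add_le_add hTII hTI
    _ = _ := by ring

end Pool.Agent.Lib.MP_5c7eee_an.Neg
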