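import Pool.Agent.Lib.MP_5c7eee_an.Neg.Same

/-!
Averages over a block of sign vectors, from the column bound (C2), (C3).
-/

namespace HUN

open Finset

variable {H N : Type*} [Fintype H] [Fintype N]

/-- Column bound (C2): the average of `f i * f j` is `1/N` on the diagonal and at most `tau / N`
off the diagonal (`f = u / sqrt N`). -/
def ColBd (f : H → N → ℝ) (tau : ℝ) : Prop :=
  (∀ i, (∑ h, f h i * f h i) / (Fintype.card H : ℝ) = 1 / (Fintype.card N : ℝ)) ∧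
  (∀ i j, i ≠ j → |(∑ h, f h i * f h j) / (Fintype.card H : ℝ)| ≤ tau / (Fintype.card N : ℝ))

/-- Average of a double sum. -/
theorem avg_expand {N' : Type*} [Fintype N'] (f : H → N → ℝ) (g : H → N' → ℝ)
    (F : N → N' → ℂ) :
    (∑ h, ∑ i, ∑ j, F i j * ((f h i : ℂ) * (g h j : ℂ))) / (Fintype.card H : ℂ)
      = ∑ i, ∑ j, F i j * (((∑ h, f h i * g h j) / (Fintype.card H : ℝ) : ℝ) : ℂ) := by
  rw [Finset.sum_comm, Finset.sum_div]
  refine Finset.sum_congr rfl fun i _ => ?_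
  rw [Finset.sum_comm, Finset.sum_div]
  refine Finset.sum_congr rfl fun j _ => ?_
  rw [← Finset.mul_sum]
  push_cast
  rw [mul_div_assoc]

/-- Core estimate. -/
theorem avg_core (f : H → N → ℝ) (tau : ℝ) (htau : 0 ≤ tau) (hcol : ColBd f tau)
    (F : N → N → ℂ) :
    ‖(∑ h, ∑ i, ∑ j, F i j * ((f h i : ℂ) * (f h j : ℂ))) / (Fintype.card H : ℂ)
        - (∑ i, F i i) / (Fintype.card N : ℂ)‖
      ≤ tau / (Fintype.card N : ℝ) * ∑ i, ∑ j, ‖F i j‖ := by
  classical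
  rw [avg_expand, Finset.sum_div, ← Finset.sum_sub_distrib, Finset.mul_sum]
  refine le_trans (norm_sum_le _ _) (Finset.sum_le_sum fun i _ => ?_)
  rw [← Finset.add_sum_erase _ (fun j => F i j *
    (((∑ h, f h i * f h j) / (Fintype.card H : ℝ) : ℝ) : ℂ)) (Finset.mem_univ i)]
  rw [hcol.1 i]
  have e : F i i * ((1 / (Fintype.card N : ℝ) : ℝ) : ℂ) = F i i / (Fintype.card N : ℂ) := by
    push_cast
    ring
  rw [e, add_sub_right_comm, sub_self, zero_add]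
  calc ‖∑ j ∈ Finset.univ.erase i, F i j * (((∑ h, f h i * f h j) / (Fintype.card H : ℝ) : ℝ) : ℂ)‖
      ≤ ∑ j ∈ Finset.univ.erase i,
          ‖F i j * (((∑ h, f h i * f h j) / (Fintype.card H : ℝ) : ℝ) : ℂ)‖ := norm_sum_le _ _
    _ ≤ ∑ j ∈ Finset.univ.erase i, tau / (Fintype.card N : ℝ) * ‖F i j‖ := by
        refine Finset.sum_le_sum fun j hj => ?_
        rw [norm_mul, Complex.norm_real, Real.norm_eq_abs, mul_comm]
        exact mul_le_mul_of_nonneg_right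
          (hcol.2 i j (Finset.ne_of_mem_erase hj).symm) (norm_nonneg _)
    _ ≤ ∑ j, tau / (Fintype.card N : ℝ) * ‖F i j‖ :=
        Finset.sum_le_sum_of_subset_of_nonneg (Finset.erase_subset _ _)
          (fun j _ _ => by positivity)
    _ = tau / (Fintype.card N : ℝ) * ∑ j, ‖F i j‖ := by rw [Finset.mul_sum]

theorem sum_norm_le_sqrt (w : N → ℂ) :
    ∑ a, ‖w a‖ ≤ Real.sqrt (Fintype.card N) * Real.sqrt (∑ a, ‖w a‖ ^ 2) := by
  rw [← Real.sqrt_mul (Nat.cast_nonneg _)]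
  refine Real.le_sqrt_of_sq_le ?_
  have := sq_sum_le_card_mul_sum_sq (s := (Finset.univ : Finset N)) (f := fun a => ‖w a‖)
  simpa [Finset.card_univ] using this

/-- Bilinear average. -/
theorem avg_bilin (f : H → N → ℝ) (tau : ℝ) (htau : 0 ≤ tau) (hcol : ColBd f tau)
    (w v : N → ℂ) :
    ‖(∑ h, (∑ i, w i * (f h i : ℂ)) * (∑ j, v j * (f h j : ℂ))) / (Fintype.card H : ℂ)
        - (∑ i, w i * v i) / (Fintype.card N : ℂ)‖
      ≤ tau * (Real.sqrt (∑ i, ‖w i‖ ^ 2) * Real.sqrt (∑ i, ‖v i‖ ^ 2)) := by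
  have h := avg_core f tau htau hcol (fun i j => w i * v j)
  have e : (∑ h, ∑ i, ∑ j, w i * v j * ((f h i : ℂ) * (f h j : ℂ)))
      = ∑ h, (∑ i, w i * (f h i : ℂ)) * (∑ j, v j * (f h j : ℂ)) := by
    refine Finset.sum_congr rfl fun h _ => ?_
    rw [Finset.sum_mul_sum]
    refine Finset.sum_congr rfl fun i _ => Finset.sum_congr rfl fun j _ => by ring
  rw [e] at h
  refine le_trans h ?_
  have e2 : ∑ i, ∑ j, ‖w i * v j‖ = (∑ i, ‖w i‖) * (∑ j, ‖v j‖) := by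
    rw [Finset.sum_mul_sum]
    refine Finset.sum_congr rfl fun i _ => Finset.sum_congr rfl fun j _ => norm_mul _ _
  rw [e2]
  rcases Nat.eq_zero_or_pos (Fintype.card N) with h0 | hpos
  · rw [h0]
    simp only [Nat.cast_zero, div_zero, zero_mul]
    positivity
  have hN : (0 : ℝ) < Fintype.card N := by exact_mod_cast hpos
  calc tau / (Fintype.card N : ℝ) * ((∑ i, ‖w i‖) * (∑ j, ‖v j‖))
      ≤ tau / (Fintype.card N : ℝ) *
        ((Real.sqrt (Fintype.card N) * Real.sqrt (∑ a, ‖w a‖ ^ 2)) *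
          (Real.sqrt (Fintype.card N) * Real.sqrt (∑ a, ‖v a‖ ^ 2))) := by
        gcongr
        · exact sum_norm_le_sqrt w
        · exact sum_norm_le_sqrt v
    _ = tau * (Real.sqrt (∑ i, ‖w i‖ ^ 2) * Real.sqrt (∑ i, ‖v i‖ ^ 2)) *
        (Real.sqrt (Fintype.card N) * Real.sqrt (Fintype.card N) / (Fintype.card N : ℝ)) := by
        ring
    _ = _ := by
        rw [Real.mul_self_sqrt hN.le, div_self hN.ne', mul_one]

/-- Crude bilinear average. -/
theorem avg_bilin_le (f : H → N → ℝ) (tau : ℝ) (htau : 0 ≤ tau) (hcol : ColBd f tau)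
    (w v : N → ℂ) :
    ‖(∑ h, (∑ i, w i * (f h i : ℂ)) * (∑ j, v j * (f h j : ℂ))) / (Fintype.card H : ℂ)‖
      ≤ (1 / (Fintype.card N : ℝ) + tau)
        * (Real.sqrt (∑ i, ‖w i‖ ^ 2) * Real.sqrt (∑ i, ‖v i‖ ^ 2)) := by
  have h := avg_bilin f tau htau hcol w v
  set P : ℂ := (∑ h, (∑ i, w i * (f h i : ℂ)) * (∑ j, v j * (f h j : ℂ))) / (Fintype.card H : ℂ)
  have h2 : ‖(∑ i, w i * v i) / (Fintype.card N : ℂ)‖
      ≤ 1 / (Fintype.card N : ℝ) *
        (Real.sqrt (∑ i, ‖w i‖ ^ 2) * Real.sqrt (∑ i, ‖v i‖ ^ 2)) := by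
    rw [norm_div, Complex.norm_natCast, div_eq_mul_one_div, mul_comm]
    refine mul_le_mul_of_nonneg_left ?_ (by positivity)
    calc ‖∑ i, w i * v i‖ ≤ ∑ i, ‖w i * v i‖ := norm_sum_le _ _
      _ = ∑ i, ‖w i‖ * ‖v i‖ := Finset.sum_congr rfl fun i _ => norm_mul _ _
      _ ≤ _ := Real.sum_mul_le_sqrt_mul_sqrt _ _ _
  calc ‖P‖ = ‖(P - (∑ i, w i * v i) / (Fintype.card N : ℂ))
        + (∑ i, w i * v i) / (Fintype.card N : ℂ)‖ := by ring_nf
    _ ≤ _ := norm_add_le _ _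
    _ ≤ _ := by rw [add_mul]; linarith

/-- Quadratic average: `|avg |<w, f_h>|^2 - |w|^2 / N| ≤ tau |w|^2`. -/
theorem avg_sq (f : H → N → ℝ) (tau : ℝ) (htau : 0 ≤ tau) (hcol : ColBd f tau)
    (w : N → ℂ) :
    |(∑ h, ‖∑ i, w i * (f h i : ℂ)‖ ^ 2) / (Fintype.card H : ℝ)
        - (∑ i, ‖w i‖ ^ 2) / (Fintype.card N : ℝ)|
      ≤ tau * ∑ i, ‖w i‖ ^ 2 := by
  have h := avg_bilin f tau htau hcol w (fun i => (starRingEnd ℂ) (w i))
  have e1 : ∀ h : H, (∑ i, w i * (f h i : ℂ)) * (∑ j, (starRingEnd ℂ) (w j) * (f h j : ℂ))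
      = ((‖∑ i, w i * (f h i : ℂ)‖ ^ 2 : ℝ) : ℂ) := by
    intro h
    have : ∑ j, (starRingEnd ℂ) (w j) * (f h j : ℂ) = (starRingEnd ℂ) (∑ i, w i * (f h i : ℂ)) := by
      rw [map_sum]
      refine Finset.sum_congr rfl fun j _ => ?_
      rw [map_mul, Complex.conj_ofReal]
    rw [this, Complex.mul_conj, Complex.normSq_eq_norm_sq]
  have e2 : ∀ i, w i * (starRingEnd ℂ) (w i) = ((‖w i‖ ^ 2 : ℝ) : ℂ) := by
    intro i
    rw [Complex.mul_conj, Complex.normSq_eq_norm_sq]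
  simp only [e1, e2, RCLike.norm_conj] at h
  rw [← Complex.ofReal_sum, ← Complex.ofReal_sum, ← Complex.ofReal_natCast,
    ← Complex.ofReal_natCast, ← Complex.ofReal_div, ← Complex.ofReal_div, ← Complex.ofReal_sub,
    Complex.norm_real, Real.norm_eq_abs,
    Real.mul_self_sqrt (Finset.sum_nonneg fun i _ => sq_nonneg _)] at h
  exact h

/-- Frame bounds. -/
theorem frame_bounds (f : H → N → ℝ) (tau : ℝ) (htau : 0 ≤ tau) (hcol : ColBd f tau)
    (hN : 2 * (Fintype.card N : ℝ) * tau ≤ 1) (w : N → ℂ) :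
    (∑ i, ‖w i‖ ^ 2) / (2 * (Fintype.card N : ℝ))
        ≤ (∑ h, ‖∑ i, w i * (f h i : ℂ)‖ ^ 2) / (Fintype.card H : ℝ) ∧
      (∑ h, ‖∑ i, w i * (f h i : ℂ)‖ ^ 2) / (Fintype.card H : ℝ)
        ≤ 2 * (∑ i, ‖w i‖ ^ 2) / (Fintype.card N : ℝ) := by
  have h := avg_sq f tau htau hcol w
  set Q : ℝ := ∑ i, ‖w i‖ ^ 2 with hQ
  have hQ0 : 0 ≤ Q := Finset.sum_nonneg fun i _ => sq_nonneg _
  rcases Nat.eq_zero_or_pos (Fintype.card N) with h0 | hpos
  · have : IsEmpty N := Fintype.card_eq_zero_iff.mp h0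
    have hQz : Q = 0 := by rw [hQ]; simp
    rw [hQz] at h ⊢
    simp
  have hNp : (0 : ℝ) < Fintype.card N := by exact_mod_cast hpos
  have ht : tau * Q ≤ Q / (2 * (Fintype.card N : ℝ)) := by
    rw [le_div_iff₀ (by positivity)]
    nlinarith
  have e1 : Q / (2 * (Fintype.card N : ℝ)) = Q / (Fintype.card N : ℝ) / 2 := by
    field_simp
  have e2 : 2 * Q / (Fintype.card N : ℝ) = 2 * (Q / (Fintype.card N : ℝ)) := by ring
  have h3 : 0 ≤ Q / (Fintype.card N : ℝ) := by positivity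
  rw [abs_le] at h
  rw [e1] at ht ⊢
  rw [e2]
  constructor <;> linarith

/-- Trace formula: `|avg <f_h, X f_h> - ntr X| ≤ N tau` when `|X i j| ≤ 1`. -/
theorem avg_trace (f : H → N → ℝ) (tau : ℝ) (htau : 0 ≤ tau) (hcol : ColBd f tau)
    (X : N → N → ℂ) (hX : ∀ i j, ‖X i j‖ ≤ 1) :
    ‖(∑ h, qf f X h h) / (Fintype.card H : ℂ) - ntr X‖ ≤ tau * Fintype.card N := by
  have h := avg_core f tau htau hcol X
  have e : ∀ h : H, qf f X h h = ∑ i, ∑ j, X i j * ((f h i : ℂ) * (f h j : ℂ)) := by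
    intro h
    unfold qf
    refine Finset.sum_congr rfl fun i _ => Finset.sum_congr rfl fun j _ => by ring
  simp only [e]
  refine le_trans h ?_
  have h2 : ∑ i, ∑ j, ‖X i j‖ ≤ (Fintype.card N : ℝ) * Fintype.card N := by
    calc ∑ i, ∑ j, ‖X i j‖ ≤ ∑ _i : N, ∑ _j : N, (1 : ℝ) :=
          Finset.sum_le_sum fun i _ => Finset.sum_le_sum fun j _ => hX i j
      _ = _ := by simp [Finset.card_univ]
  rcases Nat.eq_zero_or_pos (Fintype.card N) with h0 | hpos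
  · rw [h0]; simp
  have hNp : (0 : ℝ) < Fintype.card N := by exact_mod_cast hpos
  calc tau / (Fintype.card N : ℝ) * ∑ i, ∑ j, ‖X i j‖
      ≤ tau / (Fintype.card N : ℝ) * ((Fintype.card N : ℝ) * Fintype.card N) := by gcongr
    _ = tau * Fintype.card N := by field_simp

/-- Cross term (C3): two families, `|avg f i * g j| ≤ kap`, entries at most `1`. -/
theorem avg_cross {N' : Type*} [Fintype N'] (f : H → N → ℝ) (g : H → N' → ℝ) (kap : ℝ)
    (_hkap : 0 ≤ kap)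
    (hfg : ∀ i j, |(∑ h, f h i * g h j) / (Fintype.card H : ℝ)| ≤ kap)
    (X : N → N' → ℂ) (hX : ∀ i j, ‖X i j‖ ≤ 1) :
    ‖(∑ h, ∑ i, ∑ j, X i j * ((f h i : ℂ) * (g h j : ℂ))) / (Fintype.card H : ℂ)‖
      ≤ (Fintype.card N : ℝ) * (Fintype.card N' : ℝ) * kap := by
  rw [avg_expand]
  calc ‖∑ i, ∑ j, X i j * (((∑ h, f h i * g h j) / (Fintype.card H : ℝ) : ℝ) : ℂ)‖
      ≤ ∑ i, ∑ j, ‖X i j * (((∑ h, f h i * g h j) / (Fintype.card H : ℝ) : ℝ) : ℂ)‖ :=
        le_trans (norm_sum_le _ _) (Finset.sum_le_sum fun i _ => norm_sum_le _ _)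
    _ ≤ ∑ _i : N, ∑ _j : N', kap := by
        refine Finset.sum_le_sum fun i _ => Finset.sum_le_sum fun j _ => ?_
        rw [norm_mul, Complex.norm_real, Real.norm_eq_abs]
        calc ‖X i j‖ * |(∑ h, f h i * g h j) / (Fintype.card H : ℝ)|
            ≤ 1 * kap := mul_le_mul (hX i j) (hfg i j) (abs_nonneg _) zero_le_one
          _ = kap := one_mul _
    _ = _ := by
        simp only [Finset.sum_const, Finset.card_univ, nsmul_eq_mul]
        ring

/-- Second moment of a linear image: if every `B a` has `l_2` norm at most `1` then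
`avg |∑ f a B a|^2 ≤ 1 + N tau`. -/
theorem avg_image {J : Type*} [Fintype J] (f : H → N → ℝ) (tau : ℝ) (htau : 0 ≤ tau)
    (hcol : ColBd f tau) (B : N → J → ℂ) (hB : ∀ a, ∑ j, ‖B a j‖ ^ 2 ≤ 1) :
    (∑ h, ∑ j, ‖∑ a, (f h a : ℂ) * B a j‖ ^ 2) / (Fintype.card H : ℝ)
      ≤ 1 + Fintype.card N * tau := by
  rcases Nat.eq_zero_or_pos (Fintype.card N) with h0 | hpos
  · have : IsEmpty N := Fintype.card_eq_zero_iff.mp h0
    simp
  have hNp : (0 : ℝ) < Fintype.card N := by exact_mod_cast hpos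
  have h := avg_core f tau htau hcol (fun a a' => ∑ j, B a j * (starRingEnd ℂ) (B a' j))
  have e1 : ∀ h : H, ∑ i, ∑ j, (∑ x, B i x * (starRingEnd ℂ) (B j x)) * ((f h i : ℂ) * (f h j : ℂ))
      = ((∑ j, ‖∑ a, (f h a : ℂ) * B a j‖ ^ 2 : ℝ) : ℂ) := by
    intro h
    have : ∀ x : J, ((‖∑ a, (f h a : ℂ) * B a x‖ ^ 2 : ℝ) : ℂ)
        = ∑ i, ∑ j, B i x * (starRingEnd ℂ) (B j x) * ((f h i : ℂ) * (f h j : ℂ)) := by
      intro x
      rw [← Complex.normSq_eq_norm_sq, ← Complex.mul_conj, map_sum, Finset.sum_mul_sum]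
      refine Finset.sum_congr rfl fun i _ => Finset.sum_congr rfl fun j _ => ?_
      rw [map_mul, Complex.conj_ofReal]
      ring
    rw [Complex.ofReal_sum]
    simp only [this]
    have e3 : ∀ i j : N, (∑ x, B i x * (starRingEnd ℂ) (B j x)) * ((f h i : ℂ) * (f h j : ℂ))
        = ∑ x, B i x * (starRingEnd ℂ) (B j x) * ((f h i : ℂ) * (f h j : ℂ)) := fun i j =>
      Finset.sum_mul _ _ _
    simp only [e3]
    calc ∑ i, ∑ j, ∑ x, B i x * (starRingEnd ℂ) (B j x) * ((f h i : ℂ) * (f h j : ℂ))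
        = ∑ i, ∑ x, ∑ j, B i x * (starRingEnd ℂ) (B j x) * ((f h i : ℂ) * (f h j : ℂ)) :=
          Finset.sum_congr rfl fun i _ => Finset.sum_comm
      _ = _ := Finset.sum_comm
  have e2 : ∑ i, ∑ x, B i x * (starRingEnd ℂ) (B i x) = ((∑ i, ∑ x, ‖B i x‖ ^ 2 : ℝ) : ℂ) := by
    push_cast
    refine Finset.sum_congr rfl fun i _ => Finset.sum_congr rfl fun x _ => ?_
    rw [Complex.mul_conj, Complex.normSq_eq_norm_sq]
    push_cast
    rfl
  simp only [e1] at h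
  rw [e2, ← Complex.ofReal_sum, ← Complex.ofReal_natCast, ← Complex.ofReal_natCast,
    ← Complex.ofReal_div, ← Complex.ofReal_div, ← Complex.ofReal_sub, Complex.norm_real,
    Real.norm_eq_abs] at h
  have hF : ∀ a a' : N, ‖∑ j, B a j * (starRingEnd ℂ) (B a' j)‖ ≤ 1 := by
    intro a a'
    calc ‖∑ j, B a j * (starRingEnd ℂ) (B a' j)‖ ≤ ∑ j, ‖B a j * (starRingEnd ℂ) (B a' j)‖ :=
          norm_sum_le _ _
      _ = ∑ j, ‖B a j‖ * ‖B a' j‖ := by
          refine Finset.sum_congr rfl fun j _ => ?_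
          rw [norm_mul, RCLike.norm_conj]
      _ ≤ Real.sqrt (∑ j, ‖B a j‖ ^ 2) * Real.sqrt (∑ j, ‖B a' j‖ ^ 2) :=
          Real.sum_mul_le_sqrt_mul_sqrt _ _ _
      _ ≤ 1 * 1 := by
          gcongr
          · exact Real.sqrt_le_one.mpr (hB a)
          · exact Real.sqrt_le_one.mpr (hB a')
      _ = 1 := one_mul _
  have hsum : ∑ a, ∑ a', ‖∑ j, B a j * (starRingEnd ℂ) (B a' j)‖
      ≤ (Fintype.card N : ℝ) * Fintype.card N := by
    calc _ ≤ ∑ _i : N, ∑ _j : N, (1 : ℝ) :=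
          Finset.sum_le_sum fun i _ => Finset.sum_le_sum fun j _ => hF i j
      _ = _ := by simp [Finset.card_univ]
  have hdiag : (∑ i, ∑ x, ‖B i x‖ ^ 2) / (Fintype.card N : ℝ) ≤ 1 := by
    rw [div_le_one hNp]
    calc ∑ i, ∑ x, ‖B i x‖ ^ 2 ≤ ∑ _i : N, (1 : ℝ) := Finset.sum_le_sum fun i _ => hB i
      _ = _ := by simp [Finset.card_univ]
  have hoff : tau / (Fintype.card N : ℝ) * ∑ a, ∑ a', ‖∑ j, B a j * (starRingEnd ℂ) (B a' j)‖
      ≤ Fintype.card N * tau := by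
    calc _ ≤ tau / (Fintype.card N : ℝ) * ((Fintype.card N : ℝ) * Fintype.card N) := by gcongr
      _ = _ := by field_simp
  have := (abs_le.mp h).2
  linarith

end HUN
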