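import Mathlib

/-!
Block (ii) of the negative answer for `MP_5c7eee_an`: the functionals of the same block, with the
count of the bad indices (matching from rigidity, Bessel with coherence).
-/

namespace HUN

open Finset

variable {H N : Type*} [Fintype H] [Fintype N]

/-- `qf f X k h = <f_k, X f_h>` (complex matrix, real vectors). -/
noncomputable def qf (f : H → N → ℝ) (X : N → N → ℂ) (k h : H) : ℂ :=
  ∑ a, ∑ a', (f k a : ℂ) * X a a' * (f h a' : ℂ)

/-- `qr f b k h = <f_k, b f_h>` (real matrix). -/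
noncomputable def qr (f : H → N → ℝ) (b : N → N → ℝ) (k h : H) : ℝ :=
  ∑ a, ∑ a', f k a * b a a' * f h a'

/-- Normalised trace. -/
noncomputable def ntr (X : N → N → ℂ) : ℂ := (∑ a, X a a) / (Fintype.card N : ℂ)

/-- Normalised trace, real. -/
noncomputable def ntrR (b : N → N → ℝ) : ℝ := (∑ a, b a a) / (Fintype.card N : ℝ)

/-- Rigidity (C4): both statements, for all real matrices of norm at most `bet`. -/
def Rigid (f : H → N → ℝ) (w : ℕ) (eta bet : ℝ) : Prop :=
  ∀ b : N → N → ℝ,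
    (∀ v : N → ℝ, ∑ a, (∑ a', b a a' * v a') ^ 2 ≤ bet ^ 2 * ∑ a, v a ^ 2) →
    (∀ h k : Fin w → H, Function.Injective (Sum.elim h k) → ∃ i, |qr f b (k i) (h i)| < eta) ∧
    (∀ h : Fin w → H, Function.Injective h → ∃ i, |qr f b (h i) (h i) - ntrR b| < eta)

omit [Fintype H] in
/-- Bessel with coherence. -/
theorem bessel_coh (f : H → N → ℝ) (c : ℝ) (hc : 0 ≤ c)
    (hf1 : ∀ h, ∑ a, f h a ^ 2 = 1) (hfc : ∀ h k, h ≠ k → |∑ a, f h a * f k a| ≤ c)
    (z : N → ℝ) (hz : ∀ w : N → ℝ, (∑ a, z a * w a) ^ 2 ≤ ∑ a, w a ^ 2) (S : Finset H) :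
    ∑ h ∈ S, (∑ a, z a * f h a) ^ 2 ≤ 1 + c * S.card := by
  classical
  set s : H → ℝ := fun h => ∑ a, z a * f h a with hs
  set Q : ℝ := ∑ h ∈ S, s h ^ 2 with hQ
  have hQ0 : 0 ≤ Q := Finset.sum_nonneg fun h _ => sq_nonneg _
  -- the vector
  set w : N → ℝ := fun a => ∑ h ∈ S, s h * f h a with hw
  have h1 : ∑ a, z a * w a = Q := by
    simp only [hw, hQ, Finset.mul_sum]
    rw [Finset.sum_comm]
    refine Finset.sum_congr rfl fun h _ => ?_
    have : s h ^ 2 = s h * ∑ a, z a * f h a := by rw [sq]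
    rw [this, Finset.mul_sum]
    refine Finset.sum_congr rfl fun a _ => by ring
  have h2 : ∑ a, w a ^ 2 = ∑ h ∈ S, ∑ k ∈ S, s h * s k * ∑ a, f h a * f k a := by
    have : ∀ a, w a ^ 2 = ∑ h ∈ S, ∑ k ∈ S, s h * s k * (f h a * f k a) := by
      intro a
      rw [sq, hw]
      simp only
      rw [Finset.sum_mul_sum]
      refine Finset.sum_congr rfl fun h _ => Finset.sum_congr rfl fun k _ => by ring
    simp_rw [this]
    rw [Finset.sum_comm]
    refine Finset.sum_congr rfl fun h _ => ?_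
    rw [Finset.sum_comm]
    refine Finset.sum_congr rfl fun k _ => ?_
    exact (Finset.mul_sum _ _ _).symm
  have h3 : ∑ a, w a ^ 2 ≤ Q + c * (∑ h ∈ S, |s h|) ^ 2 := by
    rw [h2, sq (∑ h ∈ S, |s h|), Finset.sum_mul_sum, Finset.mul_sum, hQ, ← Finset.sum_add_distrib]
    refine Finset.sum_le_sum fun h hh => ?_
    rw [← Finset.add_sum_erase S (fun k => s h * s k * ∑ a, f h a * f k a) hh]
    have e1 : s h * s h * ∑ a, f h a * f h a = s h ^ 2 := by
      have : ∑ a, f h a * f h a = 1 := by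
        rw [← hf1 h]
        exact Finset.sum_congr rfl fun a _ => by ring
      rw [this]; ring
    rw [e1]
    have e2 : ∑ k ∈ S.erase h, s h * s k * ∑ a, f h a * f k a
        ≤ ∑ k ∈ S.erase h, c * (|s h| * |s k|) := by
      refine Finset.sum_le_sum fun k hk => ?_
      have hne : h ≠ k := fun e => (Finset.mem_erase.mp hk).1 e.symm
      calc s h * s k * ∑ a, f h a * f k a ≤ |s h * s k * ∑ a, f h a * f k a| := le_abs_self _
        _ = |s h| * |s k| * |∑ a, f h a * f k a| := by rw [abs_mul, abs_mul]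
        _ ≤ |s h| * |s k| * c := by
            exact mul_le_mul_of_nonneg_left (hfc h k hne) (by positivity)
        _ = c * (|s h| * |s k|) := by ring
    have e3 : ∑ k ∈ S.erase h, c * (|s h| * |s k|) ≤ ∑ k ∈ S, c * (|s h| * |s k|) :=
      Finset.sum_le_sum_of_subset_of_nonneg (Finset.erase_subset _ _)
        (fun k _ _ => by positivity)
    rw [Finset.mul_sum]
    linarith
  have h4 : (∑ h ∈ S, |s h|) ^ 2 ≤ S.card * Q := by
    have := sq_sum_le_card_mul_sum_sq (s := S) (f := fun h => |s h|)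
    simpa [sq_abs] using this
  have h5 : Q ^ 2 ≤ (1 + c * S.card) * Q := by
    calc Q ^ 2 = (∑ a, z a * w a) ^ 2 := by rw [h1]
      _ ≤ ∑ a, w a ^ 2 := hz w
      _ ≤ Q + c * (∑ h ∈ S, |s h|) ^ 2 := h3
      _ ≤ Q + c * (S.card * Q) := by gcongr
      _ = _ := by ring
  rcases hQ0.eq_or_lt with h0 | h0
  · rw [← h0]; positivity
  · have : Q * Q ≤ (1 + c * S.card) * Q := by rw [← sq]; exact h5
    exact le_of_mul_le_mul_right this h0

omit [Fintype H] in
/-- Degree bound. -/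
theorem deg_le (f : H → N → ℝ) (c eta : ℝ) (hc : 0 ≤ c) (heta : 0 < eta) (hce : c ≤ eta ^ 2 / 2)
    (hf1 : ∀ h, ∑ a, f h a ^ 2 = 1) (hfc : ∀ h k, h ≠ k → |∑ a, f h a * f k a| ≤ c)
    (b : N → N → ℝ) (k : H)
    (hz : ∀ w : N → ℝ, (∑ a, ∑ a', f k a * b a a' * w a') ^ 2 ≤ ∑ a, w a ^ 2)
    (S : Finset H) (hS : ∀ h ∈ S, eta ≤ |qr f b k h|) :
    (S.card : ℝ) ≤ 2 / eta ^ 2 := by
  classical
  set z : N → ℝ := fun a' => ∑ a, f k a * b a a' with hzdef
  have hzw : ∀ w : N → ℝ, ∑ a', z a' * w a' = ∑ a, ∑ a', f k a * b a a' * w a' := by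
    intro w
    simp only [hzdef, Finset.sum_mul]
    rw [Finset.sum_comm]
  have hB := bessel_coh f c hc hf1 hfc z (fun w => by rw [hzw]; exact hz w) S
  have h1 : (S.card : ℝ) * eta ^ 2 ≤ ∑ h ∈ S, (∑ a, z a * f h a) ^ 2 := by
    rw [← nsmul_eq_mul, ← Finset.sum_const]
    refine Finset.sum_le_sum fun h hh => ?_
    rw [hzw]
    have := hS h hh
    unfold qr at this
    rw [← sq_abs (∑ a, ∑ a', f k a * b a a' * f h a')]
    gcongr
  have h2 : (S.card : ℝ) * (eta ^ 2 / 2) ≤ 1 := by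
    have : c * S.card ≤ eta ^ 2 / 2 * S.card := by gcongr
    nlinarith
  rw [le_div_iff₀ (by positivity)]
  linarith

omit [Fintype H] in
/-- Greedy matching. -/
theorem matching_le [DecidableEq H] (P : H → H → Prop) (d : ℕ)
    (hd : ∀ k, ∀ S : Finset H, (∀ h ∈ S, P h k) → S.card ≤ d)
    (D : Finset H) (hD : ∀ h ∈ D, ∃ k, k ≠ h ∧ P h k) :
    ∀ m : ℕ, 2 * m * (1 + d) < D.card + 2 * (1 + d) →
      ∃ h k : Fin m → H, Function.Injective (Sum.elim h k) ∧ ∀ i, P (h i) (k i) := by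
  classical
  intro m
  induction m with
  | zero =>
    intro _
    refine ⟨fun i => i.elim0, fun i => i.elim0, ?_, fun i => i.elim0⟩
    intro x y _
    rcases x with x | x <;> exact x.elim0
  | succ m ih =>
    intro hm
    have hm' : 2 * m * (1 + d) < D.card := by
      have : 2 * (m + 1) * (1 + d) = 2 * m * (1 + d) + 2 * (1 + d) := by ring
      omega
    obtain ⟨h, k, hinj, hP⟩ := ih (by omega)
    choose! g hg using hD
    -- used set
    set U : Finset H := Finset.univ.image (Sum.elim h k) with hU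
    have hUc : U.card ≤ 2 * m := by
      calc U.card ≤ (Finset.univ : Finset (Fin m ⊕ Fin m)).card := Finset.card_image_le
        _ = 2 * m := by
          rw [Finset.card_univ, Fintype.card_sum, Fintype.card_fin]; ring
    -- bad ones
    have h1 : (D.filter (fun x => x ∈ U)).card ≤ 2 * m := by
      refine le_trans (Finset.card_le_card ?_) hUc
      intro x hx
      exact (Finset.mem_filter.mp hx).2
    have h2 : (D.filter (fun x => g x ∈ U)).card ≤ 2 * m * d := by
      have : D.filter (fun x => g x ∈ U) ⊆ U.biUnion (fun y => D.filter (fun x => g x = y)) := by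
        intro x hx
        rw [Finset.mem_filter] at hx
        rw [Finset.mem_biUnion]
        exact ⟨g x, hx.2, Finset.mem_filter.mpr ⟨hx.1, rfl⟩⟩
      refine le_trans (Finset.card_le_card this) ?_
      refine le_trans Finset.card_biUnion_le ?_
      calc ∑ y ∈ U, (D.filter (fun x => g x = y)).card ≤ ∑ _y ∈ U, d := by
            refine Finset.sum_le_sum fun y _ => ?_
            refine hd y _ ?_
            intro x hx
            rw [Finset.mem_filter] at hx
            have := (hg x hx.1).2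
            rwa [hx.2] at this
        _ = U.card * d := by rw [Finset.sum_const, smul_eq_mul]
        _ ≤ 2 * m * d := Nat.mul_le_mul_right _ hUc
    have h3 : ∃ x ∈ D, x ∉ U ∧ g x ∉ U := by
      by_contra hcon
      push Not at hcon
      have hsub : D ⊆ D.filter (fun x => x ∈ U) ∪ D.filter (fun x => g x ∈ U) := by
        intro x hx
        rw [Finset.mem_union, Finset.mem_filter, Finset.mem_filter]
        by_cases hxU : x ∈ U
        · exact Or.inl ⟨hx, hxU⟩
        · exact Or.inr ⟨hx, hcon x hx hxU⟩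
      have := Finset.card_le_card hsub
      have h4 := Finset.card_union_le (D.filter (fun x => x ∈ U)) (D.filter (fun x => g x ∈ U))
      have : D.card ≤ 2 * m * (1 + d) := by
        calc D.card ≤ 2 * m + 2 * m * d := by omega
          _ = 2 * m * (1 + d) := by ring
      omega
    obtain ⟨x, hxD, hxU, hgU⟩ := h3
    have hgx := hg x hxD
    have hmemU : ∀ y : Fin m ⊕ Fin m, Sum.elim h k y ∈ U := fun y =>
      Finset.mem_image_of_mem _ (Finset.mem_univ _)
    refine ⟨Fin.cons x h, Fin.cons (g x) k, ?_, ?_⟩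
    · rw [Sum.elim_injective]
      have hi := (Sum.elim_injective (f := h) (g := k)).mp hinj
      refine ⟨?_, ?_, ?_⟩
      · rw [Fin.cons_injective_iff]
        refine ⟨?_, hi.1⟩
        rintro ⟨i, rfl⟩
        exact hxU (hmemU (Sum.inl i))
      · rw [Fin.cons_injective_iff]
        refine ⟨?_, hi.2.1⟩
        rintro ⟨i, hi'⟩
        exact hgU (hi' ▸ hmemU (Sum.inr i))
      · intro i j
        refine Fin.cases ?_ (fun i => ?_) i <;> refine Fin.cases ?_ (fun j => ?_) j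
        · simp only [Fin.cons_zero]
          exact fun e => hgx.1 e.symm
        · simp only [Fin.cons_zero, Fin.cons_succ]
          intro e
          exact hxU (e ▸ hmemU (Sum.inr j))
        · simp only [Fin.cons_zero, Fin.cons_succ]
          intro e
          exact hgU (e ▸ hmemU (Sum.inl i))
        · simp only [Fin.cons_succ]
          exact hi.2.2 i j
    · intro i
      refine Fin.cases ?_ (fun i => ?_) i
      · simpa using hgx.2
      · simpa using hP i

omit [Fintype H] in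
/-- Number of off-diagonal bad indices for a real matrix. -/
theorem off_card_le [DecidableEq H] (f : H → N → ℝ) (w : ℕ) (c eta bet : ℝ) (hc : 0 ≤ c)
    (heta : 0 < eta) (hce : c ≤ eta ^ 2 / 2)
    (hf1 : ∀ h, ∑ a, f h a ^ 2 = 1) (hfc : ∀ h k, h ≠ k → |∑ a, f h a * f k a| ≤ c)
    (hrig : Rigid f w eta bet) (b : N → N → ℝ)
    (hb : ∀ v : N → ℝ, ∑ a, (∑ a', b a a' * v a') ^ 2 ≤ bet ^ 2 * ∑ a, v a ^ 2)
    (hrow : ∀ k, ∀ v : N → ℝ, (∑ a, ∑ a', f k a * b a a' * v a') ^ 2 ≤ ∑ a, v a ^ 2)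
    (D : Finset H) (hD : ∀ h ∈ D, ∃ k, k ≠ h ∧ eta ≤ |qr f b k h|) :
    (D.card : ℝ) ≤ 2 * w * (1 + 2 / eta ^ 2) := by
  classical
  set d : ℕ := ⌊2 / eta ^ 2⌋₊ with hd
  have hdle : (d : ℝ) ≤ 2 / eta ^ 2 := Nat.floor_le (by positivity)
  have hdeg : ∀ k, ∀ S : Finset H, (∀ h ∈ S, eta ≤ |qr f b k h|) → S.card ≤ d := by
    intro k S hS
    exact Nat.le_floor (deg_le f c eta hc heta hce hf1 hfc b k (hrow k) S hS)
  have hnot : ¬ (2 * w * (1 + d) < D.card + 2 * (1 + d)) := by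
    intro hlt
    obtain ⟨h, k, hinj, hP⟩ := matching_le (fun h k => eta ≤ |qr f b k h|) d hdeg D hD w hlt
    obtain ⟨i, hi⟩ := (hrig b hb).1 h k hinj
    exact absurd (hP i) (not_le.mpr hi)
  have h1 : D.card ≤ 2 * w * (1 + d) := by omega
  calc (D.card : ℝ) ≤ ((2 * w * (1 + d) : ℕ) : ℝ) := by exact_mod_cast h1
    _ = 2 * w * (1 + d) := by push_cast; ring
    _ ≤ _ := by gcongr

omit [Fintype H] in
/-- Number of diagonal bad indices for a real matrix. -/
theorem diag_card_le (f : H → N → ℝ) (w : ℕ) (eta bet : ℝ)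
    (hrig : Rigid f w eta bet) (b : N → N → ℝ)
    (hb : ∀ v : N → ℝ, ∑ a, (∑ a', b a a' * v a') ^ 2 ≤ bet ^ 2 * ∑ a, v a ^ 2)
    (E : Finset H) (hE : ∀ h ∈ E, eta ≤ |qr f b h h - ntrR b|) :
    (E.card : ℝ) ≤ w := by
  by_contra hcon
  push Not at hcon
  have hw : w ≤ E.card := by exact_mod_cast hcon.le
  obtain ⟨T, hT, hcard⟩ := Finset.exists_subset_card_eq hw
  obtain ⟨i, hi⟩ := (hrig b hb).2 (fun i => (T.equivFin.symm (Fin.cast hcard.symm i)).1) (by
    intro i j hij
    have := T.equivFin.symm.injective (Subtype.ext hij)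
    simpa using this)
  exact absurd (hE _ (hT (T.equivFin.symm (Fin.cast hcard.symm i)).2)) (not_le.mpr hi)

omit [Fintype H] in
theorem qf_re (f : H → N → ℝ) (X : N → N → ℂ) (k h : H) :
    (qf f X k h).re = qr f (fun a a' => (X a a').re) k h := by
  unfold qf qr
  rw [Complex.re_sum]
  refine Finset.sum_congr rfl fun a _ => ?_
  rw [Complex.re_sum]
  refine Finset.sum_congr rfl fun a' _ => ?_
  simp

omit [Fintype H] in
theorem qf_im (f : H → N → ℝ) (X : N → N → ℂ) (k h : H) :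
    (qf f X k h).im = qr f (fun a a' => (X a a').im) k h := by
  unfold qf qr
  rw [Complex.im_sum]
  refine Finset.sum_congr rfl fun a _ => ?_
  rw [Complex.im_sum]
  refine Finset.sum_congr rfl fun a' _ => ?_
  simp

theorem ntr_re (X : N → N → ℂ) : (ntr X).re = ntrR (fun a a' => (X a a').re) := by
  unfold ntr ntrR
  rw [← Complex.ofReal_natCast, Complex.div_ofReal_re, Complex.re_sum]

theorem ntr_im (X : N → N → ℂ) : (ntr X).im = ntrR (fun a a' => (X a a').im) := by
  unfold ntr ntrR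
  rw [← Complex.ofReal_natCast, Complex.div_ofReal_im, Complex.im_sum]

theorem norm_re_of (X : N → N → ℂ) (bet : ℝ)
    (hX : ∀ v : N → ℝ, ∑ a, ‖∑ a', X a a' * (v a' : ℂ)‖ ^ 2 ≤ bet ^ 2 * ∑ a, v a ^ 2)
    (v : N → ℝ) : ∑ a, (∑ a', (X a a').re * v a') ^ 2 ≤ bet ^ 2 * ∑ a, v a ^ 2 := by
  refine le_trans (Finset.sum_le_sum fun a _ => ?_) (hX v)
  have : ∑ a', (X a a').re * v a' = (∑ a', X a a' * (v a' : ℂ)).re := by
    rw [Complex.re_sum]
    refine Finset.sum_congr rfl fun a' _ => by simp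
  rw [this, ← sq_abs]
  gcongr
  exact Complex.abs_re_le_norm _

theorem norm_im_of (X : N → N → ℂ) (bet : ℝ)
    (hX : ∀ v : N → ℝ, ∑ a, ‖∑ a', X a a' * (v a' : ℂ)‖ ^ 2 ≤ bet ^ 2 * ∑ a, v a ^ 2)
    (v : N → ℝ) : ∑ a, (∑ a', (X a a').im * v a') ^ 2 ≤ bet ^ 2 * ∑ a, v a ^ 2 := by
  refine le_trans (Finset.sum_le_sum fun a _ => ?_) (hX v)
  have : ∑ a', (X a a').im * v a' = (∑ a', X a a' * (v a' : ℂ)).im := by
    rw [Complex.im_sum]
    refine Finset.sum_congr rfl fun a' _ => by simp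
  rw [this, ← sq_abs]
  gcongr
  exact Complex.abs_im_le_norm _

omit [Fintype H] in
theorem row_re_of (f : H → N → ℝ) (X : N → N → ℂ) (k : H)
    (hX : ∀ v : N → ℝ, ‖∑ a, ∑ a', (f k a : ℂ) * X a a' * (v a' : ℂ)‖ ^ 2 ≤ ∑ a, v a ^ 2)
    (v : N → ℝ) : (∑ a, ∑ a', f k a * (X a a').re * v a') ^ 2 ≤ ∑ a, v a ^ 2 := by
  refine le_trans ?_ (hX v)
  have : ∑ a, ∑ a', f k a * (X a a').re * v a'
      = (∑ a, ∑ a', (f k a : ℂ) * X a a' * (v a' : ℂ)).re := by
    rw [Complex.re_sum]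
    refine Finset.sum_congr rfl fun a _ => ?_
    rw [Complex.re_sum]
    refine Finset.sum_congr rfl fun a' _ => by simp
  rw [this, ← sq_abs]
  gcongr
  exact Complex.abs_re_le_norm _

omit [Fintype H] in
theorem row_im_of (f : H → N → ℝ) (X : N → N → ℂ) (k : H)
    (hX : ∀ v : N → ℝ, ‖∑ a, ∑ a', (f k a : ℂ) * X a a' * (v a' : ℂ)‖ ^ 2 ≤ ∑ a, v a ^ 2)
    (v : N → ℝ) : (∑ a, ∑ a', f k a * (X a a').im * v a') ^ 2 ≤ ∑ a, v a ^ 2 := by
  refine le_trans ?_ (hX v)
  have : ∑ a, ∑ a', f k a * (X a a').im * v a'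
      = (∑ a, ∑ a', (f k a : ℂ) * X a a' * (v a' : ℂ)).im := by
    rw [Complex.im_sum]
    refine Finset.sum_congr rfl fun a _ => ?_
    rw [Complex.im_sum]
    refine Finset.sum_congr rfl fun a' _ => by simp
  rw [this, ← sq_abs]
  gcongr
  exact Complex.abs_im_le_norm _

/-- **Block (ii).** The contribution of the functionals of the same private block. -/
theorem same_block [DecidableEq H] (f : H → N → ℝ) (w : ℕ) (c eta bet del : ℝ) (hc : 0 ≤ c)
    (heta : 0 < eta) (heta1 : eta ≤ 1) (hce : c ≤ eta ^ 2 / 2) (hdel : 0 ≤ del)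
    (hf1 : ∀ h, ∑ a, f h a ^ 2 = 1) (hfc : ∀ h k, h ≠ k → |∑ a, f h a * f k a| ≤ c)
    (hrig : Rigid f w eta bet) (A B : N → N → ℂ)
    (hA : ∀ v : N → ℝ, ∑ a, ‖∑ a', A a a' * (v a' : ℂ)‖ ^ 2 ≤ bet ^ 2 * ∑ a, v a ^ 2)
    (hB : ∀ v : N → ℝ, ∑ a, ‖∑ a', B a a' * (v a' : ℂ)‖ ^ 2 ≤ bet ^ 2 * ∑ a, v a ^ 2)
    (hBrow : ∀ k, ∀ v : N → ℝ,
      ‖∑ a, ∑ a', (f k a : ℂ) * B a a' * (v a' : ℂ)‖ ^ 2 ≤ ∑ a, v a ^ 2)
    (nu : H → H → ℂ) (hnu : ∀ h, ∑ k, ‖nu h k‖ ≤ 1)
    (hdiag : ∀ h, ‖nu h h - qf f A h h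
      + ∑ k ∈ Finset.univ.erase h, nu h k * ((∑ a, f k a * f h a : ℝ) : ℂ)‖ ≤ del) :
    ‖(∑ h, ∑ k, nu h k * qf f B k h) / (Fintype.card H : ℂ)‖
      ≤ (‖ntr A‖ + 2 * eta + del + c) * (‖ntr B‖ + 2 * eta) + 2 * eta
        + 16 * w / (eta ^ 2 * Fintype.card H) := by
  classical
  set G : ℝ := (‖ntr A‖ + 2 * eta + del + c) * (‖ntr B‖ + 2 * eta) + 2 * eta with hG
  have hG0 : 0 ≤ G := by positivity
  -- the bad sets
  set Ar : N → N → ℝ := fun a a' => (A a a').re with hAr
  set Ai : N → N → ℝ := fun a a' => (A a a').im with hAi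
  set Br : N → N → ℝ := fun a a' => (B a a').re with hBr
  set Bi : N → N → ℝ := fun a a' => (B a a').im with hBi
  set E1 : Finset H := Finset.univ.filter fun h => eta ≤ |qr f Ar h h - ntrR Ar| with hE1
  set E2 : Finset H := Finset.univ.filter fun h => eta ≤ |qr f Ai h h - ntrR Ai| with hE2
  set E3 : Finset H := Finset.univ.filter fun h => eta ≤ |qr f Br h h - ntrR Br| with hE3
  set E4 : Finset H := Finset.univ.filter fun h => eta ≤ |qr f Bi h h - ntrR Bi| with hE4
  set D1 : Finset H := Finset.univ.filter fun h => ∃ k, k ≠ h ∧ eta ≤ |qr f Br k h| with hD1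
  set D2 : Finset H := Finset.univ.filter fun h => ∃ k, k ≠ h ∧ eta ≤ |qr f Bi k h| with hD2
  set Bad : Finset H := E1 ∪ E2 ∪ E3 ∪ E4 ∪ D1 ∪ D2 with hBad
  have c1 : (E1.card : ℝ) ≤ w := diag_card_le f w eta bet hrig Ar (norm_re_of A bet hA) E1
    (fun h hh => (Finset.mem_filter.mp hh).2)
  have c2 : (E2.card : ℝ) ≤ w := diag_card_le f w eta bet hrig Ai (norm_im_of A bet hA) E2
    (fun h hh => (Finset.mem_filter.mp hh).2)
  have c3 : (E3.card : ℝ) ≤ w := diag_card_le f w eta bet hrig Br (norm_re_of B bet hB) E3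
    (fun h hh => (Finset.mem_filter.mp hh).2)
  have c4 : (E4.card : ℝ) ≤ w := diag_card_le f w eta bet hrig Bi (norm_im_of B bet hB) E4
    (fun h hh => (Finset.mem_filter.mp hh).2)
  have c5 : (D1.card : ℝ) ≤ 2 * w * (1 + 2 / eta ^ 2) :=
    off_card_le f w c eta bet hc heta hce hf1 hfc hrig Br (norm_re_of B bet hB)
      (fun k => row_re_of f B k (hBrow k)) D1 (fun h hh => (Finset.mem_filter.mp hh).2)
  have c6 : (D2.card : ℝ) ≤ 2 * w * (1 + 2 / eta ^ 2) :=
    off_card_le f w c eta bet hc heta hce hf1 hfc hrig Bi (norm_im_of B bet hB)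
      (fun k => row_im_of f B k (hBrow k)) D2 (fun h hh => (Finset.mem_filter.mp hh).2)
  have hBadcard : (Bad.card : ℝ) ≤ 16 * w / eta ^ 2 := by
    have hu : Bad.card ≤ E1.card + E2.card + E3.card + E4.card + D1.card + D2.card := by
      have u1 := Finset.card_union_le E1 E2
      have u2 := Finset.card_union_le (E1 ∪ E2) E3
      have u3 := Finset.card_union_le (E1 ∪ E2 ∪ E3) E4
      have u4 := Finset.card_union_le (E1 ∪ E2 ∪ E3 ∪ E4) D1
      have u5 := Finset.card_union_le (E1 ∪ E2 ∪ E3 ∪ E4 ∪ D1) D2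
      rw [hBad]
      omega
    have hu' : (Bad.card : ℝ)
        ≤ E1.card + E2.card + E3.card + E4.card + D1.card + D2.card := by exact_mod_cast hu
    have hge : (w : ℝ) ≤ w / eta ^ 2 := by
      rw [le_div_iff₀ (by positivity)]
      have : eta ^ 2 ≤ 1 := pow_le_one₀ heta.le heta1
      exact mul_le_of_le_one_right (Nat.cast_nonneg w) this
    have e1 : 2 * (w : ℝ) * (1 + 2 / eta ^ 2) = 2 * w + 4 * (w / eta ^ 2) := by ring
    have e2 : 16 * (w : ℝ) / eta ^ 2 = 16 * (w / eta ^ 2) := by ring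
    rw [e1] at c5 c6
    rw [e2]
    linarith
  -- the bound for one index
  have habs : ∀ z : ℂ, ‖z‖ ≤ |z.re| + |z.im| := Complex.norm_le_abs_re_add_abs_im
  have hnuk : ∀ h k, ‖nu h k‖ ≤ 1 := fun h k =>
    le_trans (Finset.single_le_sum (f := fun k => ‖nu h k‖) (fun _ _ => norm_nonneg _)
      (Finset.mem_univ k)) (hnu h)
  have hone : ∀ h k, ‖qf f B k h‖ ≤ 1 := by
    intro h k
    have := hBrow k (f h)
    rw [hf1 h] at this
    have h2 : ‖qf f B k h‖ ^ 2 ≤ 1 := this
    nlinarith [norm_nonneg (qf f B k h)]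
  have hmain : ∀ h, ‖∑ k, nu h k * qf f B k h‖ ≤ G + (if h ∈ Bad then 1 else 0) := by
    intro h
    by_cases hh : h ∈ Bad
    · rw [if_pos hh]
      calc ‖∑ k, nu h k * qf f B k h‖ ≤ ∑ k, ‖nu h k * qf f B k h‖ := norm_sum_le _ _
        _ ≤ ∑ k, ‖nu h k‖ := by
            refine Finset.sum_le_sum fun k _ => ?_
            rw [norm_mul]
            exact mul_le_of_le_one_right (norm_nonneg _) (hone h k)
        _ ≤ 1 := hnu h
        _ ≤ G + 1 := by linarith
    · rw [if_neg hh, add_zero]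
      have hn : h ∉ E1 ∧ h ∉ E2 ∧ h ∉ E3 ∧ h ∉ E4 ∧ h ∉ D1 ∧ h ∉ D2 := by
        simp only [hBad, Finset.mem_union, not_or] at hh
        tauto
      obtain ⟨n1, n2, n3, n4, n5, n6⟩ := hn
      have m1 : |qr f Ar h h - ntrR Ar| < eta := by
        by_contra hc'; exact n1 (Finset.mem_filter.mpr ⟨Finset.mem_univ _, not_lt.mp hc'⟩)
      have m2 : |qr f Ai h h - ntrR Ai| < eta := by
        by_contra hc'; exact n2 (Finset.mem_filter.mpr ⟨Finset.mem_univ _, not_lt.mp hc'⟩)
      have m3 : |qr f Br h h - ntrR Br| < eta := by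
        by_contra hc'; exact n3 (Finset.mem_filter.mpr ⟨Finset.mem_univ _, not_lt.mp hc'⟩)
      have m4 : |qr f Bi h h - ntrR Bi| < eta := by
        by_contra hc'; exact n4 (Finset.mem_filter.mpr ⟨Finset.mem_univ _, not_lt.mp hc'⟩)
      have m5 : ∀ k, k ≠ h → |qr f Br k h| < eta := by
        intro k hk
        by_contra hc'
        exact n5 (Finset.mem_filter.mpr ⟨Finset.mem_univ _, k, hk, not_lt.mp hc'⟩)
      have m6 : ∀ k, k ≠ h → |qr f Bi k h| < eta := by
        intro k hk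
        by_contra hc'
        exact n6 (Finset.mem_filter.mpr ⟨Finset.mem_univ _, k, hk, not_lt.mp hc'⟩)
      have gA : ‖qf f A h h‖ ≤ ‖ntr A‖ + 2 * eta := by
        have h1 : ‖qf f A h h - ntr A‖ ≤ 2 * eta := by
          refine le_trans (habs _) ?_
          rw [Complex.sub_re, Complex.sub_im, qf_re, qf_im, ntr_re, ntr_im]
          linarith
        calc ‖qf f A h h‖ = ‖ntr A + (qf f A h h - ntr A)‖ := by ring_nf
          _ ≤ _ := norm_add_le _ _
          _ ≤ _ := by linarith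
      have gB : ‖qf f B h h‖ ≤ ‖ntr B‖ + 2 * eta := by
        have h1 : ‖qf f B h h - ntr B‖ ≤ 2 * eta := by
          refine le_trans (habs _) ?_
          rw [Complex.sub_re, Complex.sub_im, qf_re, qf_im, ntr_re, ntr_im]
          linarith
        calc ‖qf f B h h‖ = ‖ntr B + (qf f B h h - ntr B)‖ := by ring_nf
          _ ≤ _ := norm_add_le _ _
          _ ≤ _ := by linarith
      have gBk : ∀ k, k ≠ h → ‖qf f B k h‖ ≤ 2 * eta := by
        intro k hk
        refine le_trans (habs _) ?_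
        rw [qf_re, qf_im]
        linarith [m5 k hk, m6 k hk]
      have herase : ∑ k ∈ Finset.univ.erase h, ‖nu h k‖ ≤ 1 :=
        le_trans (Finset.sum_le_sum_of_subset_of_nonneg (Finset.erase_subset _ _)
          (fun _ _ _ => norm_nonneg _)) (hnu h)
      have gnu : ‖nu h h‖ ≤ ‖ntr A‖ + 2 * eta + del + c := by
        have hs : ‖∑ k ∈ Finset.univ.erase h, nu h k * ((∑ a, f k a * f h a : ℝ) : ℂ)‖ ≤ c := by
          calc ‖∑ k ∈ Finset.univ.erase h, nu h k * ((∑ a, f k a * f h a : ℝ) : ℂ)‖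
              ≤ ∑ k ∈ Finset.univ.erase h, ‖nu h k * ((∑ a, f k a * f h a : ℝ) : ℂ)‖ :=
                norm_sum_le _ _
            _ ≤ ∑ k ∈ Finset.univ.erase h, ‖nu h k‖ * c := by
                refine Finset.sum_le_sum fun k hk => ?_
                rw [norm_mul, Complex.norm_real, Real.norm_eq_abs]
                exact mul_le_mul_of_nonneg_left
                  (hfc k h (Finset.mem_erase.mp hk).1) (norm_nonneg _)
            _ = (∑ k ∈ Finset.univ.erase h, ‖nu h k‖) * c := by rw [Finset.sum_mul]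
            _ ≤ 1 * c := by gcongr
            _ = c := one_mul c
        set s : ℂ := ∑ k ∈ Finset.univ.erase h, nu h k * ((∑ a, f k a * f h a : ℝ) : ℂ)
        have h1 := hdiag h
        calc ‖nu h h‖ = ‖(nu h h - qf f A h h + s) + (qf f A h h - s)‖ := by ring_nf
          _ ≤ ‖nu h h - qf f A h h + s‖ + ‖qf f A h h - s‖ := norm_add_le _ _
          _ ≤ del + (‖qf f A h h‖ + ‖s‖) := by gcongr; exact norm_sub_le _ _
          _ ≤ _ := by linarith
      calc ‖∑ k, nu h k * qf f B k h‖ ≤ ∑ k, ‖nu h k * qf f B k h‖ := norm_sum_le _ _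
        _ = ‖nu h h * qf f B h h‖ + ∑ k ∈ Finset.univ.erase h, ‖nu h k * qf f B k h‖ :=
            (Finset.add_sum_erase _ _ (Finset.mem_univ h)).symm
        _ ≤ (‖ntr A‖ + 2 * eta + del + c) * (‖ntr B‖ + 2 * eta)
            + ∑ k ∈ Finset.univ.erase h, ‖nu h k‖ * (2 * eta) := by
            refine add_le_add ?_ (Finset.sum_le_sum fun k hk => ?_)
            · rw [norm_mul]
              exact mul_le_mul gnu gB (norm_nonneg _) (by positivity)
            · rw [norm_mul]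
              exact mul_le_mul_of_nonneg_left (gBk k (Finset.mem_erase.mp hk).1) (norm_nonneg _)
        _ = (‖ntr A‖ + 2 * eta + del + c) * (‖ntr B‖ + 2 * eta)
            + (∑ k ∈ Finset.univ.erase h, ‖nu h k‖) * (2 * eta) := by rw [Finset.sum_mul]
        _ ≤ (‖ntr A‖ + 2 * eta + del + c) * (‖ntr B‖ + 2 * eta) + 1 * (2 * eta) := by gcongr
        _ = G := by rw [hG]; ring
  rcases Nat.eq_zero_or_pos (Fintype.card H) with h0 | hpos
  · rw [h0]
    simp only [Nat.cast_zero, div_zero, norm_zero, mul_zero]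
    linarith
  have hM : (0 : ℝ) < Fintype.card H := by exact_mod_cast hpos
  rw [norm_div, Complex.norm_natCast, div_le_iff₀ hM]
  calc ‖∑ h, ∑ k, nu h k * qf f B k h‖ ≤ ∑ h, ‖∑ k, nu h k * qf f B k h‖ := norm_sum_le _ _
    _ ≤ ∑ h, (G + (if h ∈ Bad then 1 else 0)) := Finset.sum_le_sum fun h _ => hmain h
    _ = Fintype.card H * G + Bad.card := by
        rw [Finset.sum_add_distrib, Finset.sum_const, Finset.card_univ, nsmul_eq_mul]
        congr 1
        rw [Finset.sum_ite_mem, Finset.univ_inter, Finset.sum_const, nsmul_eq_mul, mul_one]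
    _ ≤ Fintype.card H * G + 16 * w / eta ^ 2 := by gcongr
    _ = (G + 16 * w / (eta ^ 2 * Fintype.card H)) * Fintype.card H := by
        field_simp

end HUN
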