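import Pool.Agent.Lib.MP_5c7eee_an.Neg.Split
import Pool.Agent.Lib.MP_5c7eee_an.Neg.Same
import Pool.Agent.Lib.MP_5c7eee_an.Neg.Far
import Pool.Agent.Lib.MP_5c7eee_an.Neg.Frame

/-!
# MP_5c7eee_an: assembly of the main estimate (section 3) in finite form
-/

namespace HUN

open Finset

section L2

variable {J ι : Type*} [Fintype J] [Fintype ι]

/-- the l2 norm of a combination -/
theorem l2_comb_le (x : J → ℂ) (nu : ι → ℂ) (v : ι → J → ℝ) (R : ℝ) (hR : 1 ≤ R)
    (hv : ∀ i, ∑ j, v i j ^ 2 ≤ R ^ 2)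
    (h : Real.sqrt (∑ j, ‖x j‖ ^ 2) + ∑ i, ‖nu i‖ ≤ 1) :
    ∑ j, ‖x j + ∑ i, nu i * (v i j : ℂ)‖ ^ 2 ≤ R ^ 2 := by
  classical
  let X : EuclideanSpace ℂ J := WithLp.toLp 2 x
  let V : ι → EuclideanSpace ℂ J := fun i => WithLp.toLp 2 fun j => (v i j : ℂ)
  have hX : ‖X‖ = Real.sqrt (∑ j, ‖x j‖ ^ 2) := EuclideanSpace.norm_eq X
  have hV : ∀ i, ‖V i‖ ≤ R := by
    intro i
    rw [EuclideanSpace.norm_eq]
    refine Real.sqrt_le_iff.2 ⟨by linarith, ?_⟩
    refine le_trans (le_of_eq ?_) (hv i)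
    refine Finset.sum_congr rfl fun j _ => ?_
    show ‖(v i j : ℂ)‖ ^ 2 = _
    rw [Complex.norm_real, Real.norm_eq_abs, sq_abs]
  have h1 : ‖X + ∑ i, nu i • V i‖ ≤ R := by
    calc ‖X + ∑ i, nu i • V i‖ ≤ ‖X‖ + ∑ i, ‖nu i‖ * R := by
          refine (norm_add_le _ _).trans (add_le_add le_rfl ?_)
          refine (norm_sum_le _ _).trans (Finset.sum_le_sum fun i _ => ?_)
          rw [norm_smul]
          exact mul_le_mul_of_nonneg_left (hV i) (norm_nonneg _)
      _ ≤ R := by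
          rw [← Finset.sum_mul, hX]
          have h0 : 0 ≤ Real.sqrt (∑ j, ‖x j‖ ^ 2) := Real.sqrt_nonneg _
          nlinarith
  have h2 : ∑ j, ‖x j + ∑ i, nu i * (v i j : ℂ)‖ ^ 2 = ‖X + ∑ i, nu i • V i‖ ^ 2 := by
    rw [EuclideanSpace.norm_sq_eq]
    refine Finset.sum_congr rfl fun j _ => ?_
    congr 2
    simp [X, V, WithLp.ofLp_sum]
  rw [h2]
  gcongr

/-- Cauchy-Schwarz, summed over `h`. -/
theorem cs_sum {H : Type*} [Fintype H] (X Y : H → J → ℂ) (a b : ℝ) (ha : 0 ≤ a) (hb : 0 ≤ b)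
    (hX : ∑ h, ∑ j, ‖X h j‖ ^ 2 ≤ a ^ 2) (hY : ∑ h, ∑ j, ‖Y h j‖ ^ 2 ≤ b ^ 2) :
    ‖∑ h, ∑ j, X h j * Y h j‖ ≤ a * b := by
  have h0 : ‖∑ h, ∑ j, X h j * Y h j‖ ≤ ∑ p : H × J, ‖X p.1 p.2‖ * ‖Y p.1 p.2‖ := by
    rw [Fintype.sum_prod_type]
    refine (norm_sum_le _ _).trans (Finset.sum_le_sum fun h _ => ?_)
    refine (norm_sum_le _ _).trans (Finset.sum_le_sum fun j _ => ?_)
    rw [norm_mul]
  have h1 := Finset.sum_mul_sq_le_sq_mul_sq (Finset.univ : Finset (H × J))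
    (fun p => ‖X p.1 p.2‖) (fun p => ‖Y p.1 p.2‖)
  rw [Fintype.sum_prod_type (f := fun p : H × J => ‖X p.1 p.2‖ ^ 2),
    Fintype.sum_prod_type (f := fun p : H × J => ‖Y p.1 p.2‖ ^ 2)] at h1
  have h2 : (∑ p : H × J, ‖X p.1 p.2‖ * ‖Y p.1 p.2‖) ^ 2 ≤ (a * b) ^ 2 := by
    refine h1.trans ?_
    rw [mul_pow]
    exact mul_le_mul hX hY (Finset.sum_nonneg fun h _ => Finset.sum_nonneg fun j _ => by positivity)
      (sq_nonneg a)
  exact h0.trans (le_of_sq_le_sq h2 (by positivity))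

end L2


section Main

variable {J N H Il If : Type*} [Fintype J] [Fintype N] [Fintype H] [Fintype Il] [Fintype If]

/-- a vector of level `n`, extended by zero -/
noncomputable def ext (e : N → J) (y : N → ℂ) (j : J) : ℂ :=
  open Classical in ∑ a, if e a = j then y a else 0

omit [Fintype J] in
theorem ext_apply (e : N → J) (he : Function.Injective e) (y : N → ℂ) (a : N) :
    ext e y (e a) = y a := by
  classical
  unfold ext
  rw [Finset.sum_eq_single a]
  · simp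
  · intro a' _ h
    rw [if_neg (fun h' => h (he h'))]
  · intro h
    exact absurd (Finset.mem_univ a) h

omit [Fintype J] in
theorem ext_eq_zero (e : N → J) (y : N → ℂ) (j : J) (hj : ∀ a, e a ≠ j) :
    ext e y j = 0 := by
  classical
  unfold ext
  exact Finset.sum_eq_zero fun a _ => if_neg (hj a)

theorem sum_ext (e : N → J) (y : N → ℂ) (g : J → ℂ) :
    ∑ j, g j * ext e y j = ∑ a, g (e a) * y a := by
  classical
  unfold ext
  simp_rw [Finset.mul_sum]
  rw [Finset.sum_comm]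
  refine Finset.sum_congr rfl fun a _ => ?_
  rw [Finset.sum_eq_single (e a)]
  · simp
  · intro j _ h
    rw [if_neg (Ne.symm h), mul_zero]
  · intro h
    exact absurd (Finset.mem_univ _) h

theorem sum_ext' (e : N → J) (y : N → ℂ) (g : J → ℂ) :
    ∑ j, ext e y j * g j = ∑ a, y a * g (e a) := by
  have := sum_ext e y g
  simp_rw [mul_comm (ext e y _) _, mul_comm (y _) _]
  exact this

/-- **Main estimate, finite form.** -/
theorem main_fin [DecidableEq H] (e : N → J) (he : Function.Injective e) (far : J → Prop)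
    (hfe : ∀ a, ¬ far (e a)) (f : H → N → ℝ) (w : ℕ) (c t eta tau gam R b : ℝ)
    (hc0 : 0 < c) (ht : 0 < t) (htc : t ^ 2 = 2 * c) (heta : 0 < eta) (heta1 : eta ≤ 1)
    (hce : c ≤ eta ^ 2 / 2) (hb : 1 ≤ b) (hR : 1 ≤ R) (htau : 0 ≤ tau)
    (hNt : 2 * (Fintype.card N : ℝ) * tau ≤ 1)
    (hf1 : ∀ h, ∑ a, f h a ^ 2 = 1) (hfc : ∀ h k, h ≠ k → |∑ a, f h a * f k a| ≤ c)
    (hrig : Rigid f w eta b) (hcol : ColBd f tau)
    (hM : 16 * (Fintype.card N : ℝ) ≤ Fintype.card H) (hHpos : 0 < Fintype.card H)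
    (vl : Il → J → ℝ) (hvl : ∀ i, ∑ j, vl i j ^ 2 ≤ R ^ 2)
    (vf : If → J → ℝ) (hvf0 : ∀ i j, ¬ far j → vf i j = 0) (hg : 0 ≤ gam)
    (hvf : ∀ i i', i ≠ i' → |∑ j, vf i j * vf i' j| ≤ gam)
    (hgM : gam * (1 + Real.sqrt (Fintype.card H)) ^ 2 ≤ 1)
    (A : N → J → ℂ)
    (hA : ∀ (x : J → ℂ) (r : ℝ), 0 ≤ r → ∑ j, ‖x j‖ ^ 2 ≤ r ^ 2 →
      (∀ i, ‖∑ j, (vl i j : ℂ) * x j‖ ≤ r) → (∀ i, ‖∑ j, (vf i j : ℂ) * x j‖ ≤ r) →
      (∀ k, ‖∑ a, ((b * f k a : ℝ) : ℂ) * x (e a)‖ ≤ r) →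
      ∀ h, ‖∑ a, ((b * f h a : ℝ) : ℂ) * ∑ j, A a j * x j‖ ≤ r)
    (hA2 : ∀ v : N → ℝ, ∑ a, ‖∑ a', A a (e a') * (v a' : ℂ)‖ ^ 2 ≤ b ^ 2 * ∑ a, v a ^ 2)
    (B : J → N → ℂ) (hBcol : ∀ a, ∑ j, ‖B j a‖ ^ 2 ≤ 1)
    (hB2 : ∀ v : N → ℝ, ∑ a, ‖∑ a', B (e a) a' * (v a' : ℂ)‖ ^ 2 ≤ b ^ 2 * ∑ a, v a ^ 2)
    (hBf : ∀ i, ∀ w : N → ℂ, ‖∑ j, (vf i j : ℂ) * ∑ a, B j a * w a‖
      ≤ b * Real.sqrt (∑ a, ‖w a‖ ^ 2))
    (hBrow : ∀ k, ∀ v : N → ℝ,
      ‖∑ a, ∑ a', (f k a : ℂ) * B (e a) a' * (v a' : ℂ)‖ ^ 2 ≤ ∑ a, v a ^ 2)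
    (hAB : ∀ a a', ‖∑ j, A a j * B j a'‖ ≤ 1) :
    ‖ntr (fun a a' => ∑ j, A a j * B j a')‖
      ≤ (‖ntr (fun a a' => A a (e a'))‖ + 2 * eta + R / b + c)
          * (‖ntr (fun a a' => B (e a) a')‖ + 2 * eta) + 2 * eta
        + 16 * w / (eta ^ 2 * Fintype.card H) + (64 * t * b + 5 * (R + 1)) / b + 2 * R / b
        + tau * Fintype.card N := by
  classical
  have hb0 : 0 < b := by linarith
  have hbC : (b : ℂ) ≠ 0 := by exact_mod_cast hb0.ne'
  have hHr : (0 : ℝ) < Fintype.card H := by exact_mod_cast hHpos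
  -- the functionals
  let vs : H → J → ℂ := fun k => ext e (fun a => ((b * f k a : ℝ) : ℂ))
  let v : Il ⊕ (H ⊕ If) → J → ℂ :=
    Sum.elim (fun i j => (vl i j : ℂ)) (Sum.elim vs (fun i j => (vf i j : ℂ)))
  have hvs : ∀ k (y : J → ℂ), ∑ j, vs k j * y j = ∑ a, ((b * f k a : ℝ) : ℂ) * y (e a) :=
    fun k y => sum_ext' e _ y
  let psi : H → (J → ℂ) →ₗ[ℂ] ℂ := fun h =>
    ∑ a, ((b * f h a : ℝ) : ℂ) • ∑ j, A a j • (LinearMap.proj j : (J → ℂ) →ₗ[ℂ] ℂ)
  have hpsi : ∀ h (y : J → ℂ), psi h y = ∑ a, ((b * f h a : ℝ) : ℂ) * ∑ j, A a j * y j := by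
    intro h y
    simp [psi, LinearMap.sum_apply]
  have hsplit : ∀ h, ∃ (x : J → ℂ) (nu : Il ⊕ (H ⊕ If) → ℂ),
      (∀ y, psi h y = ∑ j, x j * y j + ∑ i, nu i * ∑ j, v i j * y j) ∧
      Real.sqrt (∑ j, ‖x j‖ ^ 2) + ∑ i, ‖nu i‖ ≤ 1 := by
    intro h
    refine hb_split_coord v (psi h) ?_
    intro y r hr hy hyv
    rw [hpsi]
    refine hA y r hr hy (fun i => hyv (Sum.inl i)) (fun i => hyv (Sum.inr (Sum.inr i)))
      (fun k => ?_) h
    have := hyv (Sum.inr (Sum.inl k))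
    rw [← hvs]
    exact this
  choose x nu hx hxn using hsplit
  let X : H → J → ℂ := fun h j => x h j + ∑ i : Il, nu h (Sum.inl i) * (vl i j : ℂ)
  let nuS : H → H → ℂ := fun h k => nu h (Sum.inr (Sum.inl k))
  let nuF : H → If → ℂ := fun h i => nu h (Sum.inr (Sum.inr i))
  have hnsum : ∀ h, ∑ i, ‖nu h i‖ = ∑ i : Il, ‖nu h (Sum.inl i)‖ + (∑ k, ‖nuS h k‖ + ∑ i, ‖nuF h i‖) := by
    intro h
    rw [Fintype.sum_sum_type, Fintype.sum_sum_type]
  have hX : ∀ h, ∑ j, ‖X h j‖ ^ 2 ≤ R ^ 2 := by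
    intro h
    refine l2_comb_le (x h) (fun i => nu h (Sum.inl i)) vl R hR hvl ?_
    have h1 := hxn h
    rw [hnsum] at h1
    have h2 : 0 ≤ ∑ k, ‖nuS h k‖ := Finset.sum_nonneg fun _ _ => norm_nonneg _
    have h3 : 0 ≤ ∑ i, ‖nuF h i‖ := Finset.sum_nonneg fun _ _ => norm_nonneg _
    linarith
  have hnuS : ∀ h, ∑ k, ‖nuS h k‖ ≤ 1 := by
    intro h
    have h1 := hxn h
    rw [hnsum] at h1
    have h2 : 0 ≤ ∑ i : Il, ‖nu h (Sum.inl i)‖ := Finset.sum_nonneg fun _ _ => norm_nonneg _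
    have h3 : 0 ≤ ∑ i, ‖nuF h i‖ := Finset.sum_nonneg fun _ _ => norm_nonneg _
    have h4 : 0 ≤ Real.sqrt (∑ j, ‖x h j‖ ^ 2) := Real.sqrt_nonneg _
    linarith
  have hnuF : ∀ h, ∑ i, ‖nuF h i‖ ≤ 1 := by
    intro h
    have h1 := hxn h
    rw [hnsum] at h1
    have h2 : 0 ≤ ∑ i : Il, ‖nu h (Sum.inl i)‖ := Finset.sum_nonneg fun _ _ => norm_nonneg _
    have h3 : 0 ≤ ∑ k, ‖nuS h k‖ := Finset.sum_nonneg fun _ _ => norm_nonneg _
    have h4 : 0 ≤ Real.sqrt (∑ j, ‖x h j‖ ^ 2) := Real.sqrt_nonneg _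
    linarith
  -- the identity (*)
  have star : ∀ h (y : J → ℂ), ∑ a, ((b * f h a : ℝ) : ℂ) * ∑ j, A a j * y j
      = ∑ j, X h j * y j + ∑ k, nuS h k * ∑ a, ((b * f k a : ℝ) : ℂ) * y (e a)
        + ∑ i, nuF h i * ∑ j, (vf i j : ℂ) * y j := by
    intro h y
    rw [← hpsi, hx, Fintype.sum_sum_type, Fintype.sum_sum_type]
    have h1 : ∑ j, X h j * y j
        = ∑ j, x h j * y j + ∑ i : Il, nu h (Sum.inl i) * ∑ j, v (Sum.inl i) j * y j := by
      simp only [X, add_mul, Finset.sum_add_distrib, Finset.sum_mul]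
      congr 1
      rw [Finset.sum_comm]
      refine Finset.sum_congr rfl fun i _ => ?_
      rw [Finset.mul_sum]
      refine Finset.sum_congr rfl fun j _ => ?_
      show _ = nu h (Sum.inl i) * ((vl i j : ℂ) * y j)
      ring
    rw [h1]
    have h2 : ∑ k : H, nu h (Sum.inr (Sum.inl k)) * ∑ j, v (Sum.inr (Sum.inl k)) j * y j
        = ∑ k, nuS h k * ∑ a, ((b * f k a : ℝ) : ℂ) * y (e a) := by
      refine Finset.sum_congr rfl fun k _ => ?_
      rw [← hvs]
      rfl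
    rw [h2, ← add_assoc, ← add_assoc]
    rfl
  -- abbreviations
  let AN : N → N → ℂ := fun a a' => A a (e a')
  let BN : N → N → ℂ := fun a a' => B (e a) a'
  let AB : N → N → ℂ := fun a a' => ∑ j, A a j * B j a'
  let cc : H → J → ℂ := fun h j => ∑ a, B j a * (f h a : ℂ)
  have hqAB : ∀ h, (b : ℂ) * qf f AB h h = ∑ a, ((b * f h a : ℝ) : ℂ) * ∑ j, A a j * cc h j := by
    intro h
    unfold qf
    rw [Finset.mul_sum]
    refine Finset.sum_congr rfl fun a _ => ?_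
    simp only [AB, cc]
    push_cast
    have h3 : ∑ j, A a j * ∑ a', B j a' * (f h a' : ℂ)
        = ∑ a', (∑ j, A a j * B j a') * (f h a' : ℂ) := by
      simp_rw [Finset.mul_sum, Finset.sum_mul]
      rw [Finset.sum_comm]
      refine Finset.sum_congr rfl fun a' _ => Finset.sum_congr rfl fun j _ => by ring
    rw [h3, Finset.mul_sum, Finset.mul_sum]
    refine Finset.sum_congr rfl fun a' _ => by ring
  have hqB : ∀ k h, (b : ℂ) * qf f BN k h = ∑ a, ((b * f k a : ℝ) : ℂ) * cc h (e a) := by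
    intro k h
    unfold qf
    rw [Finset.mul_sum]
    refine Finset.sum_congr rfl fun a _ => ?_
    simp only [BN, cc]
    push_cast
    rw [Finset.mul_sum, Finset.mul_sum]
    refine Finset.sum_congr rfl fun a' _ => by ring
  have hmain : ∀ h, (b : ℂ) * qf f AB h h = ∑ j, X h j * cc h j
      + (b : ℂ) * ∑ k, nuS h k * qf f BN k h + ∑ i, nuF h i * ∑ j, (vf i j : ℂ) * cc h j := by
    intro h
    rw [hqAB, star]
    congr 2
    rw [Finset.mul_sum]
    refine Finset.sum_congr rfl fun k _ => ?_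
    rw [← hqB]
    ring
  -- averages of `cc`
  have hccs : ∑ h, ∑ j, ‖cc h j‖ ^ 2 ≤ 2 * Fintype.card H := by
    have h1 := avg_image f tau htau hcol (fun a j => B j a) hBcol
    rw [div_le_iff₀ hHr] at h1
    have h2 : ∑ h, ∑ j, ‖cc h j‖ ^ 2 = ∑ h, ∑ j, ‖∑ a, (f h a : ℂ) * B j a‖ ^ 2 := by
      refine Finset.sum_congr rfl fun h _ => Finset.sum_congr rfl fun j _ => ?_
      simp only [cc]
      congr 2
      refine Finset.sum_congr rfl fun a _ => by ring
    rw [h2]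
    refine h1.trans ?_
    have h3 : (Fintype.card N : ℝ) * tau ≤ 1 := by
      have : 0 ≤ (Fintype.card N : ℝ) * tau := by positivity
      linarith
    nlinarith
  -- (i)
  have hI : ‖∑ h, ∑ j, X h j * cc h j‖ ≤ 2 * R * Fintype.card H := by
    have h1 : ∑ h, ∑ j, ‖X h j‖ ^ 2 ≤ (R * Real.sqrt (Fintype.card H)) ^ 2 := by
      rw [mul_pow, Real.sq_sqrt hHr.le]
      calc ∑ h, ∑ j, ‖X h j‖ ^ 2 ≤ ∑ _h : H, R ^ 2 := Finset.sum_le_sum fun h _ => hX h
        _ = _ := by simp [mul_comm]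
    have h2 : ∑ h, ∑ j, ‖cc h j‖ ^ 2 ≤ (2 * Real.sqrt (Fintype.card H)) ^ 2 := by
      rw [mul_pow, Real.sq_sqrt hHr.le]
      linarith
    refine (cs_sum X cc _ _ (by positivity) (by positivity) h1 h2).trans (le_of_eq ?_)
    have := Real.mul_self_sqrt hHr.le
    linear_combination 2 * R * this
  -- (ii)
  have hII : ‖(∑ h, ∑ k, nuS h k * qf f BN k h) / (Fintype.card H : ℂ)‖
      ≤ (‖ntr AN‖ + 2 * eta + R / b + c) * (‖ntr BN‖ + 2 * eta) + 2 * eta
        + 16 * w / (eta ^ 2 * Fintype.card H) := by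
    refine same_block f w c eta b (R / b) hc0.le heta heta1 hce (by positivity) hf1 hfc hrig AN BN
      hA2 hB2 hBrow nuS hnuS ?_
    intro h
    have h1 := star h (ext e fun a => (f h a : ℂ))
    have h2 : ∑ a, ((b * f h a : ℝ) : ℂ) * ∑ j, A a j * ext e (fun a => (f h a : ℂ)) j
        = b * qf f AN h h := by
      unfold qf
      rw [Finset.mul_sum]
      refine Finset.sum_congr rfl fun a _ => ?_
      rw [sum_ext]
      simp only [AN]
      push_cast
      rw [Finset.mul_sum, Finset.mul_sum]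
      refine Finset.sum_congr rfl fun a' _ => by ring
    have h3 : ∑ i, nuF h i * ∑ j, (vf i j : ℂ) * ext e (fun a => (f h a : ℂ)) j = 0 := by
      refine Finset.sum_eq_zero fun i _ => ?_
      rw [sum_ext]
      rw [Finset.sum_eq_zero, mul_zero]
      intro a _
      rw [hvf0 i (e a) (hfe a)]
      simp
    have h4 : ∑ k, nuS h k * ∑ a, ((b * f k a : ℝ) : ℂ) * ext e (fun a => (f h a : ℂ)) (e a)
        = b * ∑ k, nuS h k * ((∑ a, f k a * f h a : ℝ) : ℂ) := by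
      rw [Finset.mul_sum]
      refine Finset.sum_congr rfl fun k _ => ?_
      have : ∑ a, ((b * f k a : ℝ) : ℂ) * ext e (fun a => (f h a : ℂ)) (e a)
          = b * ((∑ a, f k a * f h a : ℝ) : ℂ) := by
        push_cast
        rw [Finset.mul_sum]
        refine Finset.sum_congr rfl fun a _ => ?_
        rw [ext_apply e he]
        ring
      rw [this]
      ring
    rw [h2, h3, h4, sum_ext, add_zero] at h1
    have h5 : ∑ k, nuS h k * ((∑ a, f k a * f h a : ℝ) : ℂ)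
        = nuS h h + ∑ k ∈ Finset.univ.erase h, nuS h k * ((∑ a, f k a * f h a : ℝ) : ℂ) := by
      rw [← Finset.add_sum_erase _ _ (Finset.mem_univ h)]
      congr 1
      have : ∑ a, f h a * f h a = 1 := by
        rw [← hf1 h]
        refine Finset.sum_congr rfl fun a _ => by ring
      rw [this]
      simp
    rw [h5] at h1
    have h6 : nuS h h - qf f AN h h
        + ∑ k ∈ Finset.univ.erase h, nuS h k * ((∑ a, f k a * f h a : ℝ) : ℂ)
        = -(∑ a, X h (e a) * (f h a : ℂ)) / b := by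
      rw [eq_div_iff hbC]
      linear_combination -h1
    rw [h6, norm_div, norm_neg, Complex.norm_real, Real.norm_of_nonneg hb0.le]
    refine div_le_div_of_nonneg_right ?_ hb0.le
    have h7 : ‖∑ a, X h (e a) * (f h a : ℂ)‖ ≤ ∑ a, ‖X h (e a)‖ * |f h a| := by
      refine (norm_sum_le _ _).trans (Finset.sum_le_sum fun a _ => ?_)
      rw [norm_mul, Complex.norm_real, Real.norm_eq_abs]
    refine h7.trans ?_
    have h8 := Finset.sum_mul_sq_le_sq_mul_sq (Finset.univ : Finset N)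
      (fun a => ‖X h (e a)‖) (fun a => |f h a|)
    have h9 : ∑ a, ‖X h (e a)‖ ^ 2 ≤ ∑ j, ‖X h j‖ ^ 2 := by
      have := Finset.sum_le_sum_of_subset_of_nonneg (f := fun j => ‖X h j‖ ^ 2)
        (Finset.subset_univ (Finset.univ.image e)) fun _ _ _ => by positivity
      rwa [Finset.sum_image fun a _ a' _ haa => he haa] at this
    have h10 : ∑ a, |f h a| ^ 2 = 1 := by
      rw [← hf1 h]
      exact Finset.sum_congr rfl fun a _ => sq_abs _
    rw [h10, mul_one] at h8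
    exact le_of_sq_le_sq (h8.trans (h9.trans (hX h))) (by linarith)
  -- (iii)
  have hIII : ‖∑ h, ∑ i, nuF h i * ∑ j, (vf i j : ℂ) * ∑ a, B j a * (f h a : ℂ)‖
      ≤ (64 * t * b + 5 * (R + 1)) * Fintype.card H := by
    have key := Pool.Agent.Lib.MP_5c7eee_an.Neg.far_block f c t hf1 hfc hc0 ht htc hM
      (fun w => ?_) (fun w => ?_) vf gam hg hvf hgM nuF hnuF
      (fun h j => if far j then X h j else 0) R (by linarith) (fun h => ?_)
      (fun a j => if far j then (b : ℂ) * A a j else 0) (fun h j => ?_)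
      (fun a j => B j a) b hb0.le hccs (fun i w => ?_)
    · exact key
    · -- lower frame bound
      have h1 := (frame_bounds f tau htau hcol hNt w).1
      rcases Nat.eq_zero_or_pos (Fintype.card N) with h0 | hpos
      · have : IsEmpty N := Fintype.card_eq_zero_iff.mp h0
        simp
      · have hNp : (0 : ℝ) < 2 * Fintype.card N := by positivity
        rw [div_le_div_iff₀ hNp hHr] at h1
        linarith
    · have h1 := (frame_bounds f tau htau hcol hNt w).2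
      rcases Nat.eq_zero_or_pos (Fintype.card N) with h0 | hpos
      · have : IsEmpty N := Fintype.card_eq_zero_iff.mp h0
        simp
      · have hNp : (0 : ℝ) < Fintype.card N := by positivity
        rw [div_le_div_iff₀ hHr hNp] at h1
        linarith
    · refine le_trans (Finset.sum_le_sum fun j _ => ?_) (hX h)
      split_ifs
      · exact le_rfl
      · simp
    · by_cases hj : far j
      · rw [if_pos hj]
        have h1 := star h (Pi.single j 1)
        have h2 : ∀ g : J → ℂ, ∑ j', g j' * (Pi.single j 1 : J → ℂ) j' = g j := by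
          intro g
          rw [Finset.sum_eq_single j]
          · simp
          · intro j' _ h'
            rw [Pi.single_eq_of_ne h', mul_zero]
          · intro h'
            exact absurd (Finset.mem_univ _) h'
        have h3 : ∀ a, (Pi.single j 1 : J → ℂ) (e a) = 0 := by
          intro a
          refine Pi.single_eq_of_ne ?_ _
          rintro rfl
          exact hfe a hj
        simp only [h2, h3, mul_zero, Finset.sum_const_zero, add_zero] at h1
        rw [← h1]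
        refine Finset.sum_congr rfl fun a _ => ?_
        rw [if_pos hj]
        push_cast
        ring
      · rw [if_neg hj, zero_add]
        rw [Finset.sum_eq_zero fun i _ => ?_, Finset.sum_eq_zero fun a _ => ?_]
        · rw [if_neg hj, zero_mul]
        · rw [hvf0 i j hj]
          simp
    · have h1 := hBf i w
      have h2 : ∑ a, w a * ∑ j, (vf i j : ℂ) * B j a = ∑ j, (vf i j : ℂ) * ∑ a, B j a * w a := by
        simp_rw [Finset.mul_sum]
        rw [Finset.sum_comm]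
        refine Finset.sum_congr rfl fun j _ => Finset.sum_congr rfl fun a _ => by ring
      rw [h2]
      refine h1.trans ?_
      have : 0 ≤ Real.sqrt (∑ a, ‖w a‖ ^ 2) := Real.sqrt_nonneg _
      nlinarith
  -- the end
  have hsum : (b : ℂ) * ∑ h, qf f AB h h = ∑ h, ∑ j, X h j * cc h j
      + (b : ℂ) * ∑ h, ∑ k, nuS h k * qf f BN k h
      + ∑ h, ∑ i, nuF h i * ∑ j, (vf i j : ℂ) * cc h j := by
    rw [Finset.mul_sum, Finset.sum_congr rfl fun h _ => hmain h, Finset.sum_add_distrib,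
      Finset.sum_add_distrib, ← Finset.mul_sum]
  have hHC : (Fintype.card H : ℂ) ≠ 0 := by exact_mod_cast hHpos.ne'
  have hdecomp : (∑ h, qf f AB h h) / (Fintype.card H : ℂ)
      = (∑ h, ∑ j, X h j * cc h j) / ((b : ℂ) * (Fintype.card H : ℂ))
        + (∑ h, ∑ k, nuS h k * qf f BN k h) / (Fintype.card H : ℂ)
        + (∑ h, ∑ i, nuF h i * ∑ j, (vf i j : ℂ) * cc h j) / ((b : ℂ) * (Fintype.card H : ℂ)) := by
    have h1 : ∑ h, qf f AB h h = (∑ h, ∑ j, X h j * cc h j) / b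
        + ∑ h, ∑ k, nuS h k * qf f BN k h
        + (∑ h, ∑ i, nuF h i * ∑ j, (vf i j : ℂ) * cc h j) / b := by
      field_simp
      linear_combination hsum
    rw [h1]
    field_simp
  have htr := avg_trace f tau htau hcol AB hAB
  have hbH : 0 < b * Fintype.card H := by positivity
  have n1 : ‖(∑ h, ∑ j, X h j * cc h j) / ((b : ℂ) * (Fintype.card H : ℂ))‖ ≤ 2 * R / b := by
    rw [norm_div, norm_mul, Complex.norm_real, Real.norm_of_nonneg hb0.le, Complex.norm_natCast,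
      div_le_div_iff₀ hbH hb0]
    nlinarith [mul_le_mul_of_nonneg_right hI hb0.le]
  have n3 : ‖(∑ h, ∑ i, nuF h i * ∑ j, (vf i j : ℂ) * cc h j) / ((b : ℂ) * (Fintype.card H : ℂ))‖
      ≤ (64 * t * b + 5 * (R + 1)) / b := by
    rw [norm_div, norm_mul, Complex.norm_real, Real.norm_of_nonneg hb0.le, Complex.norm_natCast,
      div_le_div_iff₀ hbH hb0]
    nlinarith [mul_le_mul_of_nonneg_right hIII hb0.le]
  have e1 : ntr AB = (∑ h, qf f AB h h) / (Fintype.card H : ℂ)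
      - ((∑ h, qf f AB h h) / (Fintype.card H : ℂ) - ntr AB) := by ring
  have n4 : ‖(∑ h, qf f AB h h) / (Fintype.card H : ℂ)‖ ≤ 2 * R / b
      + ((‖ntr AN‖ + 2 * eta + R / b + c) * (‖ntr BN‖ + 2 * eta) + 2 * eta
        + 16 * w / (eta ^ 2 * Fintype.card H)) + (64 * t * b + 5 * (R + 1)) / b := by
    rw [hdecomp]
    refine (norm_add_le _ _).trans (add_le_add ((norm_add_le _ _).trans (add_le_add n1 hII)) n3)
  have n5 : ‖ntr AB‖ ≤ ‖(∑ h, qf f AB h h) / (Fintype.card H : ℂ)‖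
      + ‖(∑ h, qf f AB h h) / (Fintype.card H : ℂ) - ntr AB‖ := by
    conv_lhs => rw [e1]
    exact norm_sub_le _ _
  show ‖ntr AB‖ ≤ (‖ntr AN‖ + 2 * eta + R / b + c) * (‖ntr BN‖ + 2 * eta) + 2 * eta
        + 16 * w / (eta ^ 2 * Fintype.card H) + (64 * t * b + 5 * (R + 1)) / b + 2 * R / b
        + tau * Fintype.card N
  linarith

end Main

end HUN
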