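import Pool.Agent.Lib.MP_5c7eee_an.Neg.SignsNet

/-!
# Existence of the sign vectors of one level
-/

namespace HUN

open Finset

noncomputable section

section

variable {T : Type*} [Fintype T] [DecidableEq T]

/-- Tail with the normalisation used below. -/
lemma tailL {n : ℕ} (hn : 0 < n) (φ : Fin n → T) (hφ : Function.Injective φ)
    (z : Fin n → (T → Bool) → ℝ) (hz1 : ∀ i u, z i u ^ 2 = 1)
    (hflip : ∀ i j u, z i (flip (φ j) u) = z i u) {c Λ : ℝ} (hc : 0 ≤ c)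
    (h : 2 * Λ ≤ c ^ 2 * n) :
    Pr (fun u : T → Bool => c * n < |∑ i, sg (u (φ i)) * z i u|) ≤ 2 * Real.exp (-Λ) := by
  have hn' : (0 : ℝ) < n := by exact_mod_cast hn
  have ht := tail_two Finset.univ φ hφ.injOn z (fun i _ j _ u => hflip i j u) (n : ℝ) hn'
    (fun u => by simp [hz1]) (c * n) (by positivity)
  refine (Pr_mono fun u hu => le_of_lt hu).trans (ht.trans ?_)
  have : Real.exp (-((c * n) ^ 2 / (2 * n))) ≤ Real.exp (-Λ) := by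
    apply Real.exp_le_exp.mpr
    have h1 : (c * n) ^ 2 / (2 * (n : ℝ)) = c ^ 2 * n / 2 := by field_simp
    rw [h1]
    linarith
  linarith

/-- Union of at most `W²` events of that kind. -/
lemma unionL {I : Type*} [Fintype I] (E : I → (T → Bool) → Prop) {Λ W : ℝ}
    (hE : ∀ i, Pr (E i) ≤ 2 * Real.exp (-Λ)) (hI : (Fintype.card I : ℝ) ≤ W ^ 2) :
    Pr (fun u => ∃ i, E i u) ≤ 2 * (W ^ 2 * Real.exp (-Λ)) := by
  refine (Pr_exists_le E _ hE).trans ?_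
  have h1 : 0 ≤ 2 * Real.exp (-Λ) := by positivity
  have h2 := mul_le_mul_of_nonneg_right hI h1
  linarith

lemma Pr_and_le {p : Prop} {E : (T → Bool) → Prop} {x : ℝ} (hx : 0 ≤ x) (h : p → Pr E ≤ x) :
    Pr (fun u => p ∧ E u) ≤ x := by
  by_cases hp : p
  · exact (Pr_mono fun u hu => hu.2).trans (h hp)
  · refine (Pr_mono (q := fun _ => False) fun u hu => hp hu.1).trans ?_
    rw [Pr_false]; exact hx

end

/-- Existence of the signs of one level (with the in-part of the linking block, which lives in the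
next level). -/
theorem level_exists (N N' M L Mi : ℕ) (hN : 0 < N) (hN' : 0 < N') (hM : 0 < M) (hL : 0 < L)
    (z0 : ℕ → ℕ → ℝ) (hz0 : ∀ k j, z0 k j = 1 ∨ z0 k j = -1)
    {c c' τu τl η β Λ X W : ℝ} (hc : 0 ≤ c) (hc' : 0 ≤ c') (hτu : 0 ≤ τu) (hτl : 0 ≤ τl)
    (hcN : 2 * Λ ≤ c ^ 2 * N) (hcN' : 2 * Λ ≤ c' ^ 2 * N') (hτM : 2 * Λ ≤ τu ^ 2 * M)
    (hτL : 2 * Λ ≤ τl ^ 2 * L)
    (hW1 : (M : ℝ) ≤ W) (hW2 : (L : ℝ) ≤ W) (hW3 : (Mi : ℝ) ≤ W) (hW4 : (N : ℝ) ≤ W)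
    (hW5 : (N' : ℝ) ≤ W) (hsm : 20 * (W ^ 2 * Real.exp (-Λ)) ≤ 1 / 2)
    (hη : 0 < η) (hβ : η / 4 ≤ β) (Q : ℕ)
    (hQ : β / (η / (4 * N)) + 1 ≤ Q) (hX : X ≤ η ^ 2 * N / (512 * β ^ 2))
    (hsmall : (2 * Q + 1 : ℝ) * M ^ 2 * 2 * Real.exp (-X) ≤ 1 / 8) :
    ∃ u v z : ℕ → ℕ → ℝ, (∀ h j, u h j = 1 ∨ u h j = -1) ∧ (∀ k j, v k j = 1 ∨ v k j = -1) ∧
      (∀ k j, z k j = 1 ∨ z k j = -1) ∧
      (∀ h h', h < M → h' < M → h ≠ h' → |∑ j : Fin N, u h j * u h' j| ≤ c * N) ∧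
      (∀ k k', k < L → k' < L → k ≠ k' → |∑ j : Fin N, v k j * v k' j| ≤ c * N) ∧
      (∀ h k, h < M → k < L → |∑ j : Fin N, u h j * v k j| ≤ c * N) ∧
      (∀ k k', k < L → k' < L → k ≠ k' → |∑ j : Fin N', z k j * z k' j| ≤ c' * N') ∧
      (∀ h k, h < M → k < Mi → |∑ j : Fin N, u h j * z0 k j| ≤ c * N) ∧
      (∀ k k', k < L → k' < Mi → |∑ j : Fin N, v k j * z0 k' j| ≤ c * N) ∧
      (∀ i j, i < N → j < N → i ≠ j → |∑ h : Fin M, u h i * u h j| ≤ τu * M) ∧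
      (∀ i j, i < N → j < N → i ≠ j → |∑ k : Fin L, v k i * v k j| ≤ τl * L) ∧
      (∀ i j, i < N' → j < N' → i ≠ j → |∑ k : Fin L, z k i * z k j| ≤ τl * L) ∧
      (∀ i j, i < N → j < N' → |∑ k : Fin L, v k i * z k j| ≤ τl * L) ∧
      HUC.Rigid N M (fun h j => u h j) β η (N ^ 2) := by
  classical
  set T := (Fin M × Fin N) ⊕ ((Fin L × Fin N) ⊕ (Fin L × Fin N')) with hT
  let φu : Fin M × Fin N → T := Sum.inl
  let φv : Fin L × Fin N → T := fun p => Sum.inr (Sum.inl p)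
  let φz : Fin L × Fin N' → T := fun p => Sum.inr (Sum.inr p)
  have hφu : Function.Injective φu := Sum.inl_injective
  have hφv : Function.Injective φv := Sum.inr_injective.comp Sum.inl_injective
  have hφz : Function.Injective φz := Sum.inr_injective.comp Sum.inr_injective
  have hW0 : 0 ≤ W := le_trans (Nat.cast_nonneg _) hW1
  have hcard : ∀ x y : ℝ, 0 ≤ x → 0 ≤ y → x ≤ W → y ≤ W → x * y ≤ W ^ 2 := by
    intro x y hx0 hy0 hx hy
    rw [sq]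
    exact mul_le_mul hx hy hy0 hW0
  have hexp0 : 0 ≤ 2 * Real.exp (-Λ) := by positivity
  -- the ten events
  let E1 : Fin M × Fin M → (T → Bool) → Prop := fun p u => p.1 ≠ p.2 ∧
    c * N < |∑ j : Fin N, sg (u (φu (p.1, j))) * sg (u (φu (p.2, j)))|
  let E2 : Fin L × Fin L → (T → Bool) → Prop := fun p u => p.1 ≠ p.2 ∧
    c * N < |∑ j : Fin N, sg (u (φv (p.1, j))) * sg (u (φv (p.2, j)))|
  let E3 : Fin M × Fin L → (T → Bool) → Prop := fun p u =>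
    c * N < |∑ j : Fin N, sg (u (φu (p.1, j))) * sg (u (φv (p.2, j)))|
  let E4 : Fin L × Fin L → (T → Bool) → Prop := fun p u => p.1 ≠ p.2 ∧
    c' * N' < |∑ j : Fin N', sg (u (φz (p.1, j))) * sg (u (φz (p.2, j)))|
  let E5 : Fin M × Fin Mi → (T → Bool) → Prop := fun p u =>
    c * N < |∑ j : Fin N, sg (u (φu (p.1, j))) * z0 p.2 j|
  let E6 : Fin L × Fin Mi → (T → Bool) → Prop := fun p u =>
    c * N < |∑ j : Fin N, sg (u (φv (p.1, j))) * z0 p.2 j|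
  let E7 : Fin N × Fin N → (T → Bool) → Prop := fun p u => p.1 ≠ p.2 ∧
    τu * M < |∑ h : Fin M, sg (u (φu (h, p.1))) * sg (u (φu (h, p.2)))|
  let E8 : Fin N × Fin N → (T → Bool) → Prop := fun p u => p.1 ≠ p.2 ∧
    τl * L < |∑ h : Fin L, sg (u (φv (h, p.1))) * sg (u (φv (h, p.2)))|
  let E9 : Fin N' × Fin N' → (T → Bool) → Prop := fun p u => p.1 ≠ p.2 ∧
    τl * L < |∑ h : Fin L, sg (u (φz (h, p.1))) * sg (u (φz (h, p.2)))|
  let E10 : Fin N × Fin N' → (T → Bool) → Prop := fun p u =>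
    τl * L < |∑ h : Fin L, sg (u (φv (h, p.1))) * sg (u (φz (h, p.2)))|
  let E11 : (T → Bool) → Prop := fun u =>
    ¬ HUC.Rigid N M (fun h j => sg (u (φu (h, j)))) β η (N ^ 2)
  have hz0sq : ∀ k j, z0 k j ^ 2 = 1 := by
    intro k j
    rcases hz0 k j with h | h <;> rw [h] <;> norm_num
  have P1 : Pr (fun u => ∃ p, E1 p u) ≤ 2 * (W ^ 2 * Real.exp (-Λ)) := by
    refine unionL E1 (fun p => Pr_and_le hexp0 fun hne => ?_) ?_
    · refine tailL hN (fun j => φu (p.1, j)) (fun i j hij => (Prod.mk.inj (hφu hij)).2)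
        (fun j u => sg (u (φu (p.2, j)))) (fun i u => sg_sq _) (fun i j u => ?_) hc hcN
      rw [flip_ne]
      exact fun h => hne (Prod.mk.inj (hφu h)).1.symm
    · rw [Fintype.card_prod, Fintype.card_fin]; push_cast
      exact hcard _ _ (Nat.cast_nonneg _) (Nat.cast_nonneg _) hW1 hW1
  have P2 : Pr (fun u => ∃ p, E2 p u) ≤ 2 * (W ^ 2 * Real.exp (-Λ)) := by
    refine unionL E2 (fun p => Pr_and_le hexp0 fun hne => ?_) ?_
    · refine tailL hN (fun j => φv (p.1, j)) (fun i j hij => (Prod.mk.inj (hφv hij)).2)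
        (fun j u => sg (u (φv (p.2, j)))) (fun i u => sg_sq _) (fun i j u => ?_) hc hcN
      rw [flip_ne]
      exact fun h => hne (Prod.mk.inj (hφv h)).1.symm
    · rw [Fintype.card_prod, Fintype.card_fin]; push_cast
      exact hcard _ _ (Nat.cast_nonneg _) (Nat.cast_nonneg _) hW2 hW2
  have P3 : Pr (fun u => ∃ p, E3 p u) ≤ 2 * (W ^ 2 * Real.exp (-Λ)) := by
    refine unionL E3 (fun p => ?_) ?_
    · refine tailL hN (fun j => φu (p.1, j)) (fun i j hij => (Prod.mk.inj (hφu hij)).2)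
        (fun j u => sg (u (φv (p.2, j)))) (fun i u => sg_sq _) (fun i j u => ?_) hc hcN
      rw [flip_ne]
      exact fun h => by cases h
    · rw [Fintype.card_prod, Fintype.card_fin, Fintype.card_fin]; push_cast
      exact hcard _ _ (Nat.cast_nonneg _) (Nat.cast_nonneg _) hW1 hW2
  have P4 : Pr (fun u => ∃ p, E4 p u) ≤ 2 * (W ^ 2 * Real.exp (-Λ)) := by
    refine unionL E4 (fun p => Pr_and_le hexp0 fun hne => ?_) ?_
    · refine tailL hN' (fun j => φz (p.1, j)) (fun i j hij => (Prod.mk.inj (hφz hij)).2)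
        (fun j u => sg (u (φz (p.2, j)))) (fun i u => sg_sq _) (fun i j u => ?_) hc' hcN'
      rw [flip_ne]
      exact fun h => hne (Prod.mk.inj (hφz h)).1.symm
    · rw [Fintype.card_prod, Fintype.card_fin]; push_cast
      exact hcard _ _ (Nat.cast_nonneg _) (Nat.cast_nonneg _) hW2 hW2
  have P5 : Pr (fun u => ∃ p, E5 p u) ≤ 2 * (W ^ 2 * Real.exp (-Λ)) := by
    refine unionL E5 (fun p => ?_) ?_
    · exact tailL hN (fun j => φu (p.1, j)) (fun i j hij => (Prod.mk.inj (hφu hij)).2)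
        (fun j _ => z0 p.2 j) (fun i u => hz0sq _ _) (fun i j u => rfl) hc hcN
    · rw [Fintype.card_prod, Fintype.card_fin, Fintype.card_fin]; push_cast
      exact hcard _ _ (Nat.cast_nonneg _) (Nat.cast_nonneg _) hW1 hW3
  have P6 : Pr (fun u => ∃ p, E6 p u) ≤ 2 * (W ^ 2 * Real.exp (-Λ)) := by
    refine unionL E6 (fun p => ?_) ?_
    · exact tailL hN (fun j => φv (p.1, j)) (fun i j hij => (Prod.mk.inj (hφv hij)).2)
        (fun j _ => z0 p.2 j) (fun i u => hz0sq _ _) (fun i j u => rfl) hc hcN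
    · rw [Fintype.card_prod, Fintype.card_fin, Fintype.card_fin]; push_cast
      exact hcard _ _ (Nat.cast_nonneg _) (Nat.cast_nonneg _) hW2 hW3
  have P7 : Pr (fun u => ∃ p, E7 p u) ≤ 2 * (W ^ 2 * Real.exp (-Λ)) := by
    refine unionL E7 (fun p => Pr_and_le hexp0 fun hne => ?_) ?_
    · refine tailL hM (fun h => φu (h, p.1)) (fun i j hij => (Prod.mk.inj (hφu hij)).1)
        (fun h u => sg (u (φu (h, p.2)))) (fun i u => sg_sq _) (fun i j u => ?_) hτu hτM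
      rw [flip_ne]
      exact fun h => hne (Prod.mk.inj (hφu h)).2.symm
    · rw [Fintype.card_prod, Fintype.card_fin]; push_cast
      exact hcard _ _ (Nat.cast_nonneg _) (Nat.cast_nonneg _) hW4 hW4
  have P8 : Pr (fun u => ∃ p, E8 p u) ≤ 2 * (W ^ 2 * Real.exp (-Λ)) := by
    refine unionL E8 (fun p => Pr_and_le hexp0 fun hne => ?_) ?_
    · refine tailL hL (fun h => φv (h, p.1)) (fun i j hij => (Prod.mk.inj (hφv hij)).1)
        (fun h u => sg (u (φv (h, p.2)))) (fun i u => sg_sq _) (fun i j u => ?_) hτl hτL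
      rw [flip_ne]
      exact fun h => hne (Prod.mk.inj (hφv h)).2.symm
    · rw [Fintype.card_prod, Fintype.card_fin]; push_cast
      exact hcard _ _ (Nat.cast_nonneg _) (Nat.cast_nonneg _) hW4 hW4
  have P9 : Pr (fun u => ∃ p, E9 p u) ≤ 2 * (W ^ 2 * Real.exp (-Λ)) := by
    refine unionL E9 (fun p => Pr_and_le hexp0 fun hne => ?_) ?_
    · refine tailL hL (fun h => φz (h, p.1)) (fun i j hij => (Prod.mk.inj (hφz hij)).1)
        (fun h u => sg (u (φz (h, p.2)))) (fun i u => sg_sq _) (fun i j u => ?_) hτl hτL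
      rw [flip_ne]
      exact fun h => hne (Prod.mk.inj (hφz h)).2.symm
    · rw [Fintype.card_prod, Fintype.card_fin]; push_cast
      exact hcard _ _ (Nat.cast_nonneg _) (Nat.cast_nonneg _) hW5 hW5
  have P10 : Pr (fun u => ∃ p, E10 p u) ≤ 2 * (W ^ 2 * Real.exp (-Λ)) := by
    refine unionL E10 (fun p => ?_) ?_
    · refine tailL hL (fun h => φv (h, p.1)) (fun i j hij => (Prod.mk.inj (hφv hij)).1)
        (fun h u => sg (u (φz (h, p.2)))) (fun i u => sg_sq _) (fun i j u => ?_) hτl hτL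
      rw [flip_ne]
      exact fun h => by cases h
    · rw [Fintype.card_prod, Fintype.card_fin, Fintype.card_fin]; push_cast
      exact hcard _ _ (Nat.cast_nonneg _) (Nat.cast_nonneg _) hW4 hW5
  have P11 : Pr E11 ≤ 1 / 4 :=
    Pr_not_rigid φu hφu hη hβ hN Q hQ hX hM hsmall
  obtain ⟨ω, hω⟩ := exists_not_of_Pr_lt_one (fun u => (∃ p, E1 p u) ∨ (∃ p, E2 p u) ∨
      (∃ p, E3 p u) ∨ (∃ p, E4 p u) ∨ (∃ p, E5 p u) ∨ (∃ p, E6 p u) ∨ (∃ p, E7 p u) ∨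
      (∃ p, E8 p u) ∨ (∃ p, E9 p u) ∨ (∃ p, E10 p u) ∨ E11 u) (by
    have o10 := Pr_or (fun u => ∃ p, E10 p u) E11
    have o9 := Pr_or (fun u => ∃ p, E9 p u) (fun u => (∃ p, E10 p u) ∨ E11 u)
    have o8 := Pr_or (fun u => ∃ p, E8 p u) (fun u => (∃ p, E9 p u) ∨ (∃ p, E10 p u) ∨ E11 u)
    have o7 := Pr_or (fun u => ∃ p, E7 p u) (fun u => (∃ p, E8 p u) ∨ (∃ p, E9 p u) ∨
      (∃ p, E10 p u) ∨ E11 u)
    have o6 := Pr_or (fun u => ∃ p, E6 p u) (fun u => (∃ p, E7 p u) ∨ (∃ p, E8 p u) ∨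
      (∃ p, E9 p u) ∨ (∃ p, E10 p u) ∨ E11 u)
    have o5 := Pr_or (fun u => ∃ p, E5 p u) (fun u => (∃ p, E6 p u) ∨ (∃ p, E7 p u) ∨
      (∃ p, E8 p u) ∨ (∃ p, E9 p u) ∨ (∃ p, E10 p u) ∨ E11 u)
    have o4 := Pr_or (fun u => ∃ p, E4 p u) (fun u => (∃ p, E5 p u) ∨ (∃ p, E6 p u) ∨
      (∃ p, E7 p u) ∨ (∃ p, E8 p u) ∨ (∃ p, E9 p u) ∨ (∃ p, E10 p u) ∨ E11 u)
    have o3 := Pr_or (fun u => ∃ p, E3 p u) (fun u => (∃ p, E4 p u) ∨ (∃ p, E5 p u) ∨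
      (∃ p, E6 p u) ∨ (∃ p, E7 p u) ∨ (∃ p, E8 p u) ∨ (∃ p, E9 p u) ∨ (∃ p, E10 p u) ∨ E11 u)
    have o2 := Pr_or (fun u => ∃ p, E2 p u) (fun u => (∃ p, E3 p u) ∨ (∃ p, E4 p u) ∨
      (∃ p, E5 p u) ∨ (∃ p, E6 p u) ∨ (∃ p, E7 p u) ∨ (∃ p, E8 p u) ∨ (∃ p, E9 p u) ∨
      (∃ p, E10 p u) ∨ E11 u)
    have o1 := Pr_or (fun u => ∃ p, E1 p u) (fun u => (∃ p, E2 p u) ∨ (∃ p, E3 p u) ∨
      (∃ p, E4 p u) ∨ (∃ p, E5 p u) ∨ (∃ p, E6 p u) ∨ (∃ p, E7 p u) ∨ (∃ p, E8 p u) ∨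
      (∃ p, E9 p u) ∨ (∃ p, E10 p u) ∨ E11 u)
    linarith)
  push Not at hω
  obtain ⟨n1, n2, n3, n4, n5, n6, n7, n8, n9, n10, n11⟩ := hω
  -- extension to natural indices
  let U : ℕ → ℕ → ℝ := fun h j => if hh : h < M ∧ j < N then sg (ω (φu (⟨h, hh.1⟩, ⟨j, hh.2⟩))) else 1
  let V : ℕ → ℕ → ℝ := fun h j => if hh : h < L ∧ j < N then sg (ω (φv (⟨h, hh.1⟩, ⟨j, hh.2⟩))) else 1
  let Zz : ℕ → ℕ → ℝ := fun h j =>
    if hh : h < L ∧ j < N' then sg (ω (φz (⟨h, hh.1⟩, ⟨j, hh.2⟩))) else 1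
  have hU : ∀ (h : Fin M) (j : Fin N), U h j = sg (ω (φu (h, j))) := by
    intro h j
    show (if hh : (h : ℕ) < M ∧ (j : ℕ) < N then sg (ω (φu (⟨h, hh.1⟩, ⟨j, hh.2⟩))) else 1) = _
    rw [dif_pos ⟨h.2, j.2⟩]
  have hV : ∀ (h : Fin L) (j : Fin N), V h j = sg (ω (φv (h, j))) := by
    intro h j
    show (if hh : (h : ℕ) < L ∧ (j : ℕ) < N then sg (ω (φv (⟨h, hh.1⟩, ⟨j, hh.2⟩))) else 1) = _
    rw [dif_pos ⟨h.2, j.2⟩]
  have hZ : ∀ (h : Fin L) (j : Fin N'), Zz h j = sg (ω (φz (h, j))) := by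
    intro h j
    show (if hh : (h : ℕ) < L ∧ (j : ℕ) < N' then sg (ω (φz (⟨h, hh.1⟩, ⟨j, hh.2⟩))) else 1) = _
    rw [dif_pos ⟨h.2, j.2⟩]
  refine ⟨U, V, Zz, ?_, ?_, ?_, ?_, ?_, ?_, ?_, ?_, ?_, ?_, ?_, ?_, ?_, ?_⟩
  · intro h j
    show (if hh : h < M ∧ j < N then sg (ω (φu (⟨h, hh.1⟩, ⟨j, hh.2⟩))) else 1) = 1 ∨
      (if hh : h < M ∧ j < N then sg (ω (φu (⟨h, hh.1⟩, ⟨j, hh.2⟩))) else 1) = -1
    split_ifs with hh
    · exact sg_eq _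
    · exact Or.inl rfl
  · intro h j
    show (if hh : h < L ∧ j < N then sg (ω (φv (⟨h, hh.1⟩, ⟨j, hh.2⟩))) else 1) = 1 ∨
      (if hh : h < L ∧ j < N then sg (ω (φv (⟨h, hh.1⟩, ⟨j, hh.2⟩))) else 1) = -1
    split_ifs with hh
    · exact sg_eq _
    · exact Or.inl rfl
  · intro h j
    show (if hh : h < L ∧ j < N' then sg (ω (φz (⟨h, hh.1⟩, ⟨j, hh.2⟩))) else 1) = 1 ∨
      (if hh : h < L ∧ j < N' then sg (ω (φz (⟨h, hh.1⟩, ⟨j, hh.2⟩))) else 1) = -1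
    split_ifs with hh
    · exact sg_eq _
    · exact Or.inl rfl
  · intro h h' hh hh' hne
    have := n1 (⟨h, hh⟩, ⟨h', hh'⟩)
    have hne' : (⟨h, hh⟩ : Fin M) ≠ ⟨h', hh'⟩ := fun e => hne (by simpa using e)
    have h2 : ¬ (c * N < |∑ j : Fin N, sg (ω (φu (⟨h, hh⟩, j))) * sg (ω (φu (⟨h', hh'⟩, j)))|) :=
      fun hc => this ⟨hne', hc⟩
    have h3 := not_lt.mp h2
    refine le_trans (le_of_eq ?_) h3
    congr 1
    refine Finset.sum_congr rfl fun j _ => ?_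
    rw [← hU ⟨h, hh⟩ j, ← hU ⟨h', hh'⟩ j]
  · intro h h' hh hh' hne
    have := n2 (⟨h, hh⟩, ⟨h', hh'⟩)
    have hne' : (⟨h, hh⟩ : Fin L) ≠ ⟨h', hh'⟩ := fun e => hne (by simpa using e)
    have h2 : ¬ (c * N < |∑ j : Fin N, sg (ω (φv (⟨h, hh⟩, j))) * sg (ω (φv (⟨h', hh'⟩, j)))|) :=
      fun hc => this ⟨hne', hc⟩
    have h3 := not_lt.mp h2
    refine le_trans (le_of_eq ?_) h3
    congr 1
    refine Finset.sum_congr rfl fun j _ => ?_
    rw [← hV ⟨h, hh⟩ j, ← hV ⟨h', hh'⟩ j]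
  · intro h k hh hk
    have h3 := not_lt.mp (n3 (⟨h, hh⟩, ⟨k, hk⟩))
    refine le_trans (le_of_eq ?_) h3
    congr 1
    refine Finset.sum_congr rfl fun j _ => ?_
    rw [← hU ⟨h, hh⟩ j, ← hV ⟨k, hk⟩ j]
  · intro h h' hh hh' hne
    have := n4 (⟨h, hh⟩, ⟨h', hh'⟩)
    have hne' : (⟨h, hh⟩ : Fin L) ≠ ⟨h', hh'⟩ := fun e => hne (by simpa using e)
    have h2 : ¬ (c' * N' < |∑ j : Fin N', sg (ω (φz (⟨h, hh⟩, j))) * sg (ω (φz (⟨h', hh'⟩, j)))|) :=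
      fun hc => this ⟨hne', hc⟩
    have h3 := not_lt.mp h2
    refine le_trans (le_of_eq ?_) h3
    congr 1
    refine Finset.sum_congr rfl fun j _ => ?_
    rw [← hZ ⟨h, hh⟩ j, ← hZ ⟨h', hh'⟩ j]
  · intro h k hh hk
    have h3 := not_lt.mp (n5 (⟨h, hh⟩, ⟨k, hk⟩))
    refine le_trans (le_of_eq ?_) h3
    congr 1
    refine Finset.sum_congr rfl fun j _ => ?_
    rw [← hU ⟨h, hh⟩ j]
  · intro h k hh hk
    have h3 := not_lt.mp (n6 (⟨h, hh⟩, ⟨k, hk⟩))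
    refine le_trans (le_of_eq ?_) h3
    congr 1
    refine Finset.sum_congr rfl fun j _ => ?_
    rw [← hV ⟨h, hh⟩ j]
  · intro i j hi hj hne
    have := n7 (⟨i, hi⟩, ⟨j, hj⟩)
    have hne' : (⟨i, hi⟩ : Fin N) ≠ ⟨j, hj⟩ := fun e => hne (by simpa using e)
    have h2 : ¬ (τu * M < |∑ h : Fin M, sg (ω (φu (h, ⟨i, hi⟩))) * sg (ω (φu (h, ⟨j, hj⟩)))|) :=
      fun hc => this ⟨hne', hc⟩
    have h3 := not_lt.mp h2
    refine le_trans (le_of_eq ?_) h3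
    congr 1
    refine Finset.sum_congr rfl fun h _ => ?_
    rw [← hU h ⟨i, hi⟩, ← hU h ⟨j, hj⟩]
  · intro i j hi hj hne
    have := n8 (⟨i, hi⟩, ⟨j, hj⟩)
    have hne' : (⟨i, hi⟩ : Fin N) ≠ ⟨j, hj⟩ := fun e => hne (by simpa using e)
    have h2 : ¬ (τl * L < |∑ h : Fin L, sg (ω (φv (h, ⟨i, hi⟩))) * sg (ω (φv (h, ⟨j, hj⟩)))|) :=
      fun hc => this ⟨hne', hc⟩
    have h3 := not_lt.mp h2
    refine le_trans (le_of_eq ?_) h3
    congr 1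
    refine Finset.sum_congr rfl fun h _ => ?_
    rw [← hV h ⟨i, hi⟩, ← hV h ⟨j, hj⟩]
  · intro i j hi hj hne
    have := n9 (⟨i, hi⟩, ⟨j, hj⟩)
    have hne' : (⟨i, hi⟩ : Fin N') ≠ ⟨j, hj⟩ := fun e => hne (by simpa using e)
    have h2 : ¬ (τl * L < |∑ h : Fin L, sg (ω (φz (h, ⟨i, hi⟩))) * sg (ω (φz (h, ⟨j, hj⟩)))|) :=
      fun hc => this ⟨hne', hc⟩
    have h3 := not_lt.mp h2
    refine le_trans (le_of_eq ?_) h3
    congr 1
    refine Finset.sum_congr rfl fun h _ => ?_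
    rw [← hZ h ⟨i, hi⟩, ← hZ h ⟨j, hj⟩]
  · intro i j hi hj
    have h3 := not_lt.mp (n10 (⟨i, hi⟩, ⟨j, hj⟩))
    refine le_trans (le_of_eq ?_) h3
    congr 1
    refine Finset.sum_congr rfl fun h _ => ?_
    rw [← hV h ⟨i, hi⟩, ← hZ h ⟨j, hj⟩]
  · have h4 : HUC.Rigid N M (fun h j => sg (ω (φu (h, j)))) β η (N ^ 2) := by
      by_contra hcon
      exact n11 hcon
    have h5 : (fun (h : Fin M) (j : Fin N) => U h j) = fun h j => sg (ω (φu (h, j))) := by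
      funext h j; exact hU h j
    rw [h5]
    exact h4

end

end HUN
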