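import Pool.Agent.BarCx.CptDefs

/-!
# The algebraic end of the counterexample

If some approximable operator on `X` is not a finite sum of products of two compact operators, then
neither the algebra of approximable operators nor the algebra of compact operators on `X` is
H-unital.
-/

open scoped TensorProduct

namespace HUN

open Pool.Agent.BarCx

universe u

/-- The linear span of the products of two compact operators. -/
def prodSpan (X : Type u) [NormedAddCommGroup X] [NormedSpace ℂ X] :
    Submodule ℂ (X →L[ℂ] X) :=
  Submodule.span ℂ {S | ∃ A B : X →L[ℂ] X, IsCompactOperator A ∧ IsCompactOperator B ∧ S = A * B}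

section Alg

variable {A : Type u} [NonUnitalRing A] [Module ℂ A] [IsScalarTower ℂ A A] [SMulCommClass ℂ A A]

/-- If the bar complex is exact at `A`, then `A` is the linear span of its products. -/
theorem mem_span_of_surj (h : Function.Surjective (bar A 0)) (a : A) :
    a ∈ Submodule.span ℂ {x : A | ∃ b c : A, x = b * c} := by
  have key : ∀ y : A ⊗[ℂ] A, (TensorProduct.lift (LinearMap.mul ℂ A)) y ∈
      Submodule.span ℂ {x : A | ∃ b c : A, x = b * c} := by
    intro y
    induction y using TensorProduct.induction_on with
    | zero => simp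
    | tmul b c =>
      rw [TensorProduct.lift.tmul]
      exact Submodule.subset_span ⟨b, c, rfl⟩
    | add y z hy hz =>
      rw [map_add]
      exact Submodule.add_mem _ hy hz
  obtain ⟨y, hy⟩ := h a
  have h2 := key y
  have h3 : (TensorProduct.lift (LinearMap.mul ℂ A)) y = a := hy
  rwa [h3] at h2

end Alg

section Ops

variable {X : Type u} [NormedAddCommGroup X] [NormedSpace ℂ X] [CompleteSpace X]

theorem compact_of_mem_opApprox {T : X →L[ℂ] X} (hT : T ∈ opApprox X) : IsCompactOperator T := by
  have hcl : IsClosed {T : X →L[ℂ] X | IsCompactOperator T} := isClosed_setOfPred_isCompactOperator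
  have hsub : closure ({T : X →L[ℂ] X | IsFinRank T}) ⊆ {T : X →L[ℂ] X | IsCompactOperator T} := by
    refine closure_minimal ?_ hcl
    intro S hS
    have hS' : FiniteDimensional ℂ (LinearMap.range (S : X →ₗ[ℂ] X)) := hS
    have hpr : ProperSpace (LinearMap.range (S : X →ₗ[ℂ] X)) := FiniteDimensional.proper ℂ _
    have h1 : IsCompactOperator (S.codRestrict (LinearMap.range (S : X →ₗ[ℂ] X))
        (fun x => ⟨x, rfl⟩)) := isCompactOperator_of_locallyCompactSpace_dom
          (S.codRestrict (LinearMap.range (S : X →ₗ[ℂ] X)) (fun x => ⟨x, rfl⟩))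
    exact h1.clm_comp (Submodule.subtypeL _)
  exact hsub hT

/-- From an approximable operator which is not a sum of products of compact operators. -/
theorem not_hunital (h : ∃ T ∈ opApprox X, (T : X →L[ℂ] X) ∉ prodSpan X) :
    ¬ ApproxHUnital X ∧ ¬ CompactHUnital X := by
  obtain ⟨T, hT, hTn⟩ := h
  constructor
  · intro hA
    apply hTn
    have h1 := mem_span_of_surj hA.1 (⟨T, hT⟩ : FW X)
    have h2 : ∀ x : FW X, x ∈ Submodule.span ℂ {x : FW X | ∃ b c : FW X, x = b * c} →
        (show X →L[ℂ] X from x.1) ∈ prodSpan X := by
      intro x hx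
      induction hx using Submodule.span_induction with
      | mem x hx =>
        obtain ⟨b, c, rfl⟩ := hx
        exact Submodule.subset_span ⟨b.1, c.1, compact_of_mem_opApprox b.2,
          compact_of_mem_opApprox c.2, rfl⟩
      | zero => exact Submodule.zero_mem _
      | add x y _ _ hx hy => exact Submodule.add_mem _ hx hy
      | smul c x _ hx => exact Submodule.smul_mem _ c hx
    exact h2 _ h1
  · intro hA
    apply hTn
    have h1 := mem_span_of_surj hA.1 (⟨T, compact_of_mem_opApprox hT⟩ : KW X)
    have h2 : ∀ x : KW X, x ∈ Submodule.span ℂ {x : KW X | ∃ b c : KW X, x = b * c} →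
        (show X →L[ℂ] X from x.1) ∈ prodSpan X := by
      intro x hx
      induction hx using Submodule.span_induction with
      | mem x hx =>
        obtain ⟨b, c, rfl⟩ := hx
        exact Submodule.subset_span ⟨b.1, c.1, b.2, c.2, rfl⟩
      | zero => exact Submodule.zero_mem _
      | add x y _ _ hx hy => exact Submodule.add_mem _ hx hy
      | smul c x _ hx => exact Submodule.smul_mem _ c hx
    exact h2 _ h1

end Ops

end HUN
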