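import Mathlib

/-!
# Random signs: counting measure on the cube, exponential moments, tails

`Pr p` is the proportion of the points of a finite type with property `p`.
-/

namespace HUN

open Finset

noncomputable section

/-- The sign attached to a Boolean. -/
def sg (b : Bool) : ℝ := if b then 1 else -1

@[simp] lemma sg_true : sg true = 1 := rfl
@[simp] lemma sg_false : sg false = -1 := rfl

lemma sg_sq (b : Bool) : sg b ^ 2 = 1 := by cases b <;> simp [sg]

lemma sg_mul_self (b : Bool) : sg b * sg b = 1 := by cases b <;> simp [sg]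

lemma sg_not (b : Bool) : sg (!b) = - sg b := by cases b <;> simp [sg]

lemma sg_abs (b : Bool) : |sg b| = 1 := by cases b <;> simp [sg]

lemma sg_eq (b : Bool) : sg b = 1 ∨ sg b = -1 := by cases b <;> simp [sg]

section flip

variable {T : Type*} [DecidableEq T]

/-- Change the coordinate `t`. -/
def flip (t : T) (u : T → Bool) : T → Bool := Function.update u t (!u t)

@[simp] lemma flip_same (t : T) (u : T → Bool) : flip t u t = !u t := by simp [flip]

lemma flip_ne {t s : T} (h : s ≠ t) (u : T → Bool) : flip t u s = u s := by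
  simp [flip, Function.update_of_ne h]

lemma flip_flip (t : T) (u : T → Bool) : flip t (flip t u) = u := by
  funext s
  by_cases h : s = t
  · subst h; simp
  · rw [flip_ne h, flip_ne h]

/-- `flip t` as an equivalence. -/
def flipEquiv (t : T) : (T → Bool) ≃ (T → Bool) :=
  ⟨flip t, flip t, flip_flip t, flip_flip t⟩

end flip

section moment

variable {T : Type*} [Fintype T] [DecidableEq T] {ι : Type*} [DecidableEq ι]

/-- Exponential moment of a sum of signs with coefficients which do not depend on them. -/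
theorem exp_moment (S : Finset ι) (φ : ι → T) (hφ : Set.InjOn φ (S : Set ι))
    (g : (T → Bool) → ℝ) (z : ι → (T → Bool) → ℝ)
    (hg : ∀ j ∈ S, ∀ u, g (flip (φ j) u) = g u)
    (hz : ∀ i ∈ S, ∀ j ∈ S, ∀ u, z i (flip (φ j) u) = z i u) :
    ∑ u : T → Bool, Real.exp (g u + ∑ i ∈ S, sg (u (φ i)) * z i u)
      ≤ ∑ u : T → Bool, Real.exp (g u + ∑ i ∈ S, z i u ^ 2 / 2) := by
  induction S using Finset.induction_on generalizing g with
  | empty => simp
  | insert j S hj ih =>
    have hS : ∀ i ∈ S, i ∈ insert j S := fun i hi => Finset.mem_insert_of_mem hi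
    have hjj : j ∈ insert j S := Finset.mem_insert_self j S
    have hne : ∀ i ∈ S, φ i ≠ φ j := by
      intro i hi h
      have := hφ (by exact_mod_cast hS i hi) (by exact_mod_cast hjj) h
      exact hj (this ▸ hi)
    -- the part which does not depend on the coordinate `φ j`
    set F : (T → Bool) → ℝ := fun u => g u + ∑ i ∈ S, sg (u (φ i)) * z i u with hF
    have hFflip : ∀ u, F (flip (φ j) u) = F u := by
      intro u
      simp only [hF]
      rw [hg j hjj u]
      congr 1
      refine Finset.sum_congr rfl fun i hi => ?_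
      rw [hz i (hS i hi) j hjj u, flip_ne (hne i hi)]
    have e1 : ∑ u : T → Bool, Real.exp (g u + ∑ i ∈ insert j S, sg (u (φ i)) * z i u)
        = ∑ u : T → Bool, Real.exp (F u + sg (u (φ j)) * z j u) := by
      refine Finset.sum_congr rfl fun u _ => ?_
      rw [Finset.sum_insert hj]
      simp only [hF]
      congr 1; ring
    have e2 : ∑ u : T → Bool, Real.exp (F u + sg (u (φ j)) * z j u)
        = ∑ u : T → Bool, Real.exp (F u - sg (u (φ j)) * z j u) := by
      rw [← Equiv.sum_comp (flipEquiv (φ j))]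
      refine Finset.sum_congr rfl fun u _ => ?_
      have : flipEquiv (φ j) u = flip (φ j) u := rfl
      rw [this, hFflip, flip_same, sg_not, hz j hjj j hjj u]
      congr 1; ring
    have e3 : ∑ u : T → Bool, Real.exp (F u + sg (u (φ j)) * z j u)
        ≤ ∑ u : T → Bool, Real.exp (F u + z j u ^ 2 / 2) := by
      have h2 : 2 * ∑ u : T → Bool, Real.exp (F u + sg (u (φ j)) * z j u)
          ≤ 2 * ∑ u : T → Bool, Real.exp (F u + z j u ^ 2 / 2) := by
        calc 2 * ∑ u : T → Bool, Real.exp (F u + sg (u (φ j)) * z j u)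
            = ∑ u : T → Bool, (Real.exp (F u + sg (u (φ j)) * z j u)
                + Real.exp (F u - sg (u (φ j)) * z j u)) := by
              rw [Finset.sum_add_distrib, ← e2]; ring
          _ ≤ ∑ u : T → Bool, 2 * Real.exp (F u + z j u ^ 2 / 2) := by
              refine Finset.sum_le_sum fun u _ => ?_
              have hc := Real.cosh_le_exp_half_sq (sg (u (φ j)) * z j u)
              rw [Real.cosh_eq] at hc
              have hs : (sg (u (φ j)) * z j u) ^ 2 = z j u ^ 2 := by
                rw [mul_pow, sg_sq, one_mul]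
              rw [hs] at hc
              have hE : 0 < Real.exp (F u) := Real.exp_pos _
              rw [sub_eq_add_neg, Real.exp_add (F u) (sg (u (φ j)) * z j u),
                Real.exp_add (F u) (-(sg (u (φ j)) * z j u)), Real.exp_add (F u) (z j u ^ 2 / 2)]
              nlinarith
          _ = 2 * ∑ u : T → Bool, Real.exp (F u + z j u ^ 2 / 2) := by
              rw [Finset.mul_sum]
      linarith
    have e4 : ∑ u : T → Bool, Real.exp (F u + z j u ^ 2 / 2)
        = ∑ u : T → Bool, Real.exp ((g u + z j u ^ 2 / 2) + ∑ i ∈ S, sg (u (φ i)) * z i u) := by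
      refine Finset.sum_congr rfl fun u _ => ?_
      simp only [hF]; congr 1; ring
    have e5 := ih (hφ.mono (by simp)) (fun u => g u + z j u ^ 2 / 2)
      (fun i hi u => by
        show g (flip (φ i) u) + z j (flip (φ i) u) ^ 2 / 2 = _
        rw [hg i (hS i hi) u, hz j hjj i (hS i hi) u])
      (fun i hi k hk u => hz i (hS i hi) k (hS k hk) u)
    have e6 : ∑ u : T → Bool, Real.exp ((g u + z j u ^ 2 / 2) + ∑ i ∈ S, z i u ^ 2 / 2)
        = ∑ u : T → Bool, Real.exp (g u + ∑ i ∈ insert j S, z i u ^ 2 / 2) := by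
      refine Finset.sum_congr rfl fun u _ => ?_
      rw [Finset.sum_insert hj]; congr 1; ring
    rw [e1]
    calc _ ≤ _ := e3
      _ = _ := e4
      _ ≤ _ := e5
      _ = _ := e6

/-- The form used: no extra term, bounded sum of squares. -/
theorem exp_moment' (S : Finset ι) (φ : ι → T) (hφ : Set.InjOn φ (S : Set ι))
    (z : ι → (T → Bool) → ℝ)
    (hz : ∀ i ∈ S, ∀ j ∈ S, ∀ u, z i (flip (φ j) u) = z i u) (Z : ℝ)
    (hZ : ∀ u, ∑ i ∈ S, z i u ^ 2 ≤ Z) :
    ∑ u : T → Bool, Real.exp (∑ i ∈ S, sg (u (φ i)) * z i u)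
      ≤ (Fintype.card (T → Bool) : ℝ) * Real.exp (Z / 2) := by
  have h := exp_moment S φ hφ (fun _ => 0) z (fun _ _ _ => rfl) hz
  simp only [zero_add] at h
  refine h.trans ?_
  calc ∑ u : T → Bool, Real.exp (∑ i ∈ S, z i u ^ 2 / 2)
      ≤ ∑ _u : T → Bool, Real.exp (Z / 2) := by
        refine Finset.sum_le_sum fun u _ => ?_
        apply Real.exp_le_exp.mpr
        rw [← Finset.sum_div]
        have := hZ u
        linarith
    _ = _ := by
        rw [Finset.sum_const, nsmul_eq_mul, Finset.card_univ]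

end moment

section Pr

open Classical in
/-- Proportion of the points with property `p`. -/
def Pr {Ω : Type*} [Fintype Ω] (p : Ω → Prop) : ℝ :=
  ((Finset.univ.filter p).card : ℝ) / (Fintype.card Ω : ℝ)

variable {Ω : Type*} [Fintype Ω]

lemma Pr_nonneg (p : Ω → Prop) : 0 ≤ Pr p := by
  unfold Pr; positivity

lemma Pr_mono {p q : Ω → Prop} (h : ∀ ω, p ω → q ω) : Pr p ≤ Pr q := by
  classical
  unfold Pr
  refine div_le_div_of_nonneg_right ?_ (Nat.cast_nonneg _)
  refine Nat.cast_le.mpr (Finset.card_le_card ?_)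
  intro ω hω
  rw [Finset.mem_filter] at hω ⊢
  exact ⟨hω.1, h _ hω.2⟩

lemma Pr_or (p q : Ω → Prop) : Pr (fun ω => p ω ∨ q ω) ≤ Pr p + Pr q := by
  classical
  unfold Pr
  rw [← add_div]
  refine div_le_div_of_nonneg_right ?_ (Nat.cast_nonneg _)
  have h1 : (@Finset.filter Ω (fun ω => p ω ∨ q ω) (fun _ => Classical.propDecidable _)
      Finset.univ) ⊆ Finset.univ.filter p ∪ Finset.univ.filter q := by
    intro ω hω
    have h2 := ((@Finset.mem_filter Ω _ (fun _ => Classical.propDecidable _) _ _).mp hω).2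
    simpa using h2
  exact_mod_cast (Finset.card_le_card h1).trans (Finset.card_union_le _ _)

lemma Pr_exists {I : Type*} [Fintype I] (p : I → Ω → Prop) :
    Pr (fun ω => ∃ i, p i ω) ≤ ∑ i, Pr (p i) := by
  classical
  unfold Pr
  rw [← Finset.sum_div]
  refine div_le_div_of_nonneg_right ?_ (Nat.cast_nonneg _)
  have h1 : (@Finset.filter Ω (fun ω => ∃ i, p i ω) (fun _ => Classical.propDecidable _)
      Finset.univ) ⊆ Finset.univ.biUnion (fun i => Finset.univ.filter (p i)) := by
    intro ω hω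
    have h2 := ((@Finset.mem_filter Ω _ (fun _ => Classical.propDecidable _) _ _).mp hω).2
    simpa using h2
  exact_mod_cast (Finset.card_le_card h1).trans Finset.card_biUnion_le

/-- Union bound with a common bound. -/
lemma Pr_exists_le {I : Type*} [Fintype I] (p : I → Ω → Prop) (c : ℝ) (h : ∀ i, Pr (p i) ≤ c) :
    Pr (fun ω => ∃ i, p i ω) ≤ (Fintype.card I : ℝ) * c := by
  refine (Pr_exists p).trans ?_
  calc ∑ i, Pr (p i) ≤ ∑ _i : I, c := Finset.sum_le_sum fun i _ => h i
    _ = _ := by rw [Finset.sum_const, nsmul_eq_mul, Finset.card_univ]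

lemma Pr_false : Pr (fun _ : Ω => False) = 0 := by
  classical
  unfold Pr
  simp

lemma exists_not_of_Pr_lt_one [Nonempty Ω] (p : Ω → Prop) (h : Pr p < 1) : ∃ ω, ¬ p ω := by
  classical
  by_contra hcon
  push Not at hcon
  have : (Finset.univ.filter p) = Finset.univ := by
    ext ω; simp [hcon ω]
  unfold Pr at h
  rw [this, Finset.card_univ, div_self] at h
  · exact lt_irrefl _ h
  · exact_mod_cast Fintype.card_ne_zero

/-- Markov. -/
lemma Pr_le_of_exp [Nonempty Ω] (p : Ω → Prop) (X : Ω → ℝ) (L E : ℝ) (h : ∀ ω, p ω → L ≤ X ω)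
    (hE : ∑ ω, Real.exp (X ω) ≤ (Fintype.card Ω : ℝ) * Real.exp E) :
    Pr p ≤ Real.exp (E - L) := by
  classical
  unfold Pr
  have hc : (0 : ℝ) < Fintype.card Ω := by exact_mod_cast Fintype.card_pos
  rw [div_le_iff₀ hc]
  have h1 : ((Finset.univ.filter p).card : ℝ) * Real.exp L ≤ ∑ ω, Real.exp (X ω) := by
    calc ((Finset.univ.filter p).card : ℝ) * Real.exp L
        = ∑ ω ∈ Finset.univ.filter p, Real.exp L := by rw [Finset.sum_const, nsmul_eq_mul]
      _ ≤ ∑ ω ∈ Finset.univ.filter p, Real.exp (X ω) := by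
          refine Finset.sum_le_sum fun ω hω => ?_
          apply Real.exp_le_exp.mpr
          exact h ω (Finset.mem_filter.mp hω).2
      _ ≤ ∑ ω, Real.exp (X ω) :=
          Finset.sum_le_sum_of_subset_of_nonneg (Finset.filter_subset _ _)
            fun _ _ _ => (Real.exp_pos _).le
  have h2 := h1.trans hE
  have h3 : ((Finset.univ.filter p).card : ℝ)
      = ((Finset.univ.filter p).card : ℝ) * Real.exp L * Real.exp (-L) := by
    rw [mul_assoc, ← Real.exp_add]; simp
  rw [h3]
  calc _ ≤ (Fintype.card Ω : ℝ) * Real.exp E * Real.exp (-L) := by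
        apply mul_le_mul_of_nonneg_right h2 (Real.exp_pos _).le
    _ = Real.exp (E - L) * (Fintype.card Ω : ℝ) := by
        rw [sub_eq_add_neg, Real.exp_add]; ring

end Pr

section tail

variable {T : Type*} [Fintype T] [DecidableEq T] {ι : Type*} [DecidableEq ι]

/-- One sided tail of a sum of signs. -/
theorem tail_one (S : Finset ι) (φ : ι → T) (hφ : Set.InjOn φ (S : Set ι))
    (z : ι → (T → Bool) → ℝ)
    (hz : ∀ i ∈ S, ∀ j ∈ S, ∀ u, z i (flip (φ j) u) = z i u) (Z : ℝ) (hZ0 : 0 < Z)
    (hZ : ∀ u, ∑ i ∈ S, z i u ^ 2 ≤ Z) (L : ℝ) :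
    Pr (fun u : T → Bool => L ≤ ∑ i ∈ S, sg (u (φ i)) * z i u) ≤ Real.exp (-(L ^ 2 / (2 * Z)))
      ∨ L < 0 := by
  by_cases hL : L < 0
  · exact Or.inr hL
  left
  push Not at hL
  set lam := L / Z with hlam
  have hlam0 : 0 ≤ lam := div_nonneg hL hZ0.le
  have hm := exp_moment' S φ hφ (fun i u => lam * z i u)
    (fun i hi j hj u => by simp only [hz i hi j hj u]) (lam ^ 2 * Z)
    (fun u => by
      have : ∑ i ∈ S, (lam * z i u) ^ 2 = lam ^ 2 * ∑ i ∈ S, z i u ^ 2 := by
        rw [Finset.mul_sum]; exact Finset.sum_congr rfl fun i _ => by ring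
      rw [this]
      exact mul_le_mul_of_nonneg_left (hZ u) (sq_nonneg _))
  have h := Pr_le_of_exp (fun u : T → Bool => L ≤ ∑ i ∈ S, sg (u (φ i)) * z i u)
    (fun u => ∑ i ∈ S, sg (u (φ i)) * (lam * z i u)) (lam * L) (lam ^ 2 * Z / 2)
    (fun u hu => by
      have : ∑ i ∈ S, sg (u (φ i)) * (lam * z i u) = lam * ∑ i ∈ S, sg (u (φ i)) * z i u := by
        rw [Finset.mul_sum]; exact Finset.sum_congr rfl fun i _ => by ring
      rw [this]
      exact mul_le_mul_of_nonneg_left hu hlam0) hm
  refine h.trans (le_of_eq ?_)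
  congr 1
  rw [hlam]
  field_simp
  ring

theorem tail_two (S : Finset ι) (φ : ι → T) (hφ : Set.InjOn φ (S : Set ι))
    (z : ι → (T → Bool) → ℝ)
    (hz : ∀ i ∈ S, ∀ j ∈ S, ∀ u, z i (flip (φ j) u) = z i u) (Z : ℝ) (hZ0 : 0 < Z)
    (hZ : ∀ u, ∑ i ∈ S, z i u ^ 2 ≤ Z) (L : ℝ) (hL : 0 ≤ L) :
    Pr (fun u : T → Bool => L ≤ |∑ i ∈ S, sg (u (φ i)) * z i u|)
      ≤ 2 * Real.exp (-(L ^ 2 / (2 * Z))) := by
  have h1 := (tail_one S φ hφ z hz Z hZ0 hZ L).resolve_right (not_lt.mpr hL)
  have h2 := (tail_one S φ hφ (fun i u => - z i u) (fun i hi j hj u => by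
    simp only [hz i hi j hj u]) Z hZ0 (fun u => by simpa using hZ u) L).resolve_right
    (not_lt.mpr hL)
  have h3 : Pr (fun u : T → Bool => L ≤ |∑ i ∈ S, sg (u (φ i)) * z i u|)
      ≤ Pr (fun u : T → Bool => L ≤ ∑ i ∈ S, sg (u (φ i)) * z i u ∨
          L ≤ ∑ i ∈ S, sg (u (φ i)) * (- z i u)) := by
    apply Pr_mono
    intro u hu
    rcases le_abs.mp hu with h | h
    · exact Or.inl h
    · right
      simpa [Finset.sum_neg_distrib] using h
  have h4 := Pr_or (fun u : T → Bool => L ≤ ∑ i ∈ S, sg (u (φ i)) * z i u)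
    (fun u : T → Bool => L ≤ ∑ i ∈ S, sg (u (φ i)) * (- z i u))
  linarith

end tail

end

end HUN
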