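import Pool.Agent.Lib.MP_5c7eee_an.Neg.SignsRig
import Pool.Agent.Lib.MP_5c7eee_an.Defs

/-!
# Rigidity of random signs for all matrices (grid net and union bound)
-/

namespace HUN

open Finset

noncomputable section

/-- The matrix with grid coordinates `q`. -/
def gridM {N Q : ℕ} (δ : ℝ) (q : Fin N → Fin N → Fin (2 * Q + 1)) (i j : Fin N) : ℝ :=
  δ * (((q i j : ℕ) : ℝ) - Q)

/-- Rounding a matrix with small entries. -/
lemma exists_grid {N : ℕ} (g : Fin N → Fin N → ℝ) {β δ : ℝ} (hδ : 0 < δ) (Q : ℕ)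
    (hQ : β / δ + 1 ≤ Q) (hg : ∀ i j, |g i j| ≤ β) :
    ∃ q : Fin N → Fin N → Fin (2 * Q + 1), ∀ i j, |g i j - gridM δ q i j| ≤ δ := by
  have key : ∀ i j, ∃ q : Fin (2 * Q + 1), |g i j - δ * (((q : ℕ) : ℝ) - Q)| ≤ δ := by
    intro i j
    set x : ℝ := g i j / δ + Q with hx
    have h1 : |g i j / δ| ≤ β / δ := by
      rw [abs_div, abs_of_pos hδ]
      exact div_le_div_of_nonneg_right (hg i j) hδ.le
    have h2 := abs_le.mp h1
    have hx0 : 0 ≤ x := by rw [hx]; linarith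
    have hx1 : x < 2 * Q := by rw [hx]; linarith
    have hfl : ⌊x⌋₊ < 2 * Q + 1 := by
      have : ⌊x⌋₊ < 2 * Q := by
        rw [Nat.floor_lt hx0]
        exact_mod_cast hx1
      omega
    refine ⟨⟨⌊x⌋₊, hfl⟩, ?_⟩
    have h3 : ((⌊x⌋₊ : ℕ) : ℝ) ≤ x := Nat.floor_le hx0
    have h4 : x < (⌊x⌋₊ : ℝ) + 1 := Nat.lt_floor_add_one x
    have h5 : g i j = δ * (x - Q) := by
      rw [hx]; field_simp; ring
    rw [h5, ← mul_sub, abs_mul, abs_of_pos hδ]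
    have h6 : |x - Q - (((⟨⌊x⌋₊, hfl⟩ : Fin (2 * Q + 1)) : ℕ) - (Q : ℝ))| ≤ 1 := by
      show |x - Q - ((⌊x⌋₊ : ℝ) - (Q : ℝ))| ≤ 1
      rw [abs_le]
      constructor <;> linarith
    calc δ * |x - Q - (((⟨⌊x⌋₊, hfl⟩ : Fin (2 * Q + 1)) : ℕ) - (Q : ℝ))| ≤ δ * 1 :=
          mul_le_mul_of_nonneg_left h6 hδ.le
      _ = δ := mul_one δ
  choose q hq using key
  exact ⟨q, hq⟩

lemma entry_le {N : ℕ} (g : Fin N → Fin N → ℝ) {β : ℝ} (hβ : 0 ≤ β)
    (hg : ∀ x : Fin N → ℝ, ∑ i, (∑ j, g i j * x j) ^ 2 ≤ β ^ 2 * ∑ j, x j ^ 2) (i j : Fin N) :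
    |g i j| ≤ β := by
  have h := hg (fun j' => if j' = j then 1 else 0)
  have h1 : ∀ i, ∑ j', g i j' * (if j' = j then (1 : ℝ) else 0) = g i j := by
    intro i; simp
  simp_rw [h1] at h
  have h2 : ∑ j', (if j' = j then (1 : ℝ) else 0) ^ 2 = 1 := by simp
  rw [h2, mul_one] at h
  have h3 : g i j ^ 2 ≤ ∑ i, g i j ^ 2 :=
    Finset.single_le_sum (f := fun i => g i j ^ 2) (fun _ _ => sq_nonneg _) (Finset.mem_univ i)
  exact abs_le_of_sq_le_sq (h3.trans h) hβ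

/-- The rounded matrix has twice the norm at most. -/
lemma grid_norm {N : ℕ} (g g' : Fin N → Fin N → ℝ) {β δ : ℝ} (hδ : 0 < δ)
    (hNδ : N * δ ≤ β)
    (hg : ∀ x : Fin N → ℝ, ∑ i, (∑ j, g i j * x j) ^ 2 ≤ β ^ 2 * ∑ j, x j ^ 2)
    (hd : ∀ i j, |g i j - g' i j| ≤ δ) (x : Fin N → ℝ) :
    ∑ i, (∑ j, g' i j * x j) ^ 2 ≤ (2 * β) ^ 2 * ∑ j, x j ^ 2 := by
  have hβ : 0 ≤ β := le_trans (by positivity) hNδ
  have h1 : ∀ i, (∑ j, (g i j - g' i j) * x j) ^ 2 ≤ (N * δ ^ 2) * ∑ j, x j ^ 2 := by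
    intro i
    have hcs := Finset.sum_mul_sq_le_sq_mul_sq Finset.univ (fun j => g i j - g' i j) x
    have h2 : ∑ j, (g i j - g' i j) ^ 2 ≤ N * δ ^ 2 := by
      calc ∑ j, (g i j - g' i j) ^ 2 ≤ ∑ _j : Fin N, δ ^ 2 := by
            refine Finset.sum_le_sum fun j _ => ?_
            rw [← sq_abs]
            exact pow_le_pow_left₀ (abs_nonneg _) (hd i j) 2
        _ = N * δ ^ 2 := by simp
    exact hcs.trans (mul_le_mul_of_nonneg_right h2 (Finset.sum_nonneg fun _ _ => sq_nonneg _))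
  have h3 : ∀ i, (∑ j, g' i j * x j) ^ 2
      ≤ 2 * (∑ j, g i j * x j) ^ 2 + 2 * (∑ j, (g i j - g' i j) * x j) ^ 2 := by
    intro i
    have : ∑ j, g' i j * x j = ∑ j, g i j * x j - ∑ j, (g i j - g' i j) * x j := by
      rw [← Finset.sum_sub_distrib]
      exact Finset.sum_congr rfl fun j _ => by ring
    rw [this]
    nlinarith [sq_nonneg (∑ j, g i j * x j + ∑ j, (g i j - g' i j) * x j)]
  have hx0 : 0 ≤ ∑ j, x j ^ 2 := Finset.sum_nonneg fun _ _ => sq_nonneg _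
  calc ∑ i, (∑ j, g' i j * x j) ^ 2
      ≤ ∑ i, (2 * (∑ j, g i j * x j) ^ 2 + 2 * (∑ j, (g i j - g' i j) * x j) ^ 2) :=
        Finset.sum_le_sum fun i _ => h3 i
    _ = 2 * ∑ i, (∑ j, g i j * x j) ^ 2 + 2 * ∑ i, (∑ j, (g i j - g' i j) * x j) ^ 2 := by
        rw [Finset.sum_add_distrib, Finset.mul_sum, Finset.mul_sum]
    _ ≤ 2 * (β ^ 2 * ∑ j, x j ^ 2) + 2 * ∑ _i : Fin N, (N * δ ^ 2) * ∑ j, x j ^ 2 := by
        have := hg x
        have h4 := Finset.sum_le_sum (s := Finset.univ) fun i (_ : i ∈ Finset.univ) => h1 i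
        linarith
    _ = (2 * β ^ 2 + 2 * (N * δ) ^ 2) * ∑ j, x j ^ 2 := by
        rw [Finset.sum_const, nsmul_eq_mul, Finset.card_univ, Fintype.card_fin]; ring
    _ ≤ (2 * β) ^ 2 * ∑ j, x j ^ 2 := by
        apply mul_le_mul_of_nonneg_right _ hx0
        have : (N * δ) ^ 2 ≤ β ^ 2 := pow_le_pow_left₀ (by positivity) hNδ 2
        nlinarith

/-- Bilinear form of a matrix with small entries. -/
lemma bil_le {N : ℕ} (d : Fin N → Fin N → ℝ) {δ : ℝ} (hd : ∀ i j, |d i j| ≤ δ)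
    (x y : Fin N → ℝ) (hx : ∀ i, |x i| = 1) (hy : ∀ i, |y i| = 1) :
    |∑ i, ∑ j, x i * d i j * y j| ≤ N * (N * δ) := by
  calc |∑ i, ∑ j, x i * d i j * y j| ≤ ∑ i, |∑ j, x i * d i j * y j| :=
        Finset.abs_sum_le_sum_abs _ _
    _ ≤ ∑ i, ∑ j, |x i * d i j * y j| :=
        Finset.sum_le_sum fun i _ => Finset.abs_sum_le_sum_abs _ _
    _ ≤ ∑ _i : Fin N, ∑ _j : Fin N, δ := by
        refine Finset.sum_le_sum fun i _ => Finset.sum_le_sum fun j _ => ?_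
        rw [abs_mul, abs_mul, hx, hy, one_mul, mul_one]
        exact hd i j
    _ = N * (N * δ) := by simp

lemma exists_sign (x : ℝ) : ∃ b : Bool, sg b * x = |x| := by
  rcases le_total 0 x with h | h
  · exact ⟨true, by rw [sg_true, one_mul, abs_of_nonneg h]⟩
  · exact ⟨false, by rw [sg_false, abs_of_nonpos h]; ring⟩

variable {T : Type*} [Fintype T] [DecidableEq T]

/-- Rigidity fails with small probability. -/
theorem Pr_not_rigid {N M : ℕ} (φ : Fin M × Fin N → T) (hφ : Function.Injective φ)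
    {β η : ℝ} (hη : 0 < η) (hβ : η / 4 ≤ β) (hN : 0 < N) (Q : ℕ)
    (hQ : β / (η / (4 * N)) + 1 ≤ Q) {X : ℝ} (hX : X ≤ η ^ 2 * N / (512 * β ^ 2))
    (hM : 1 ≤ M)
    (hsmall : (2 * Q + 1 : ℝ) * M ^ 2 * 2 * Real.exp (-X) ≤ 1 / 8) :
    Pr (fun u : T → Bool => ¬ HUC.Rigid N M (fun h j => sg (u (φ (h, j)))) β η (N ^ 2))
      ≤ 1 / 4 := by
  have hN' : (0 : ℝ) < N := by exact_mod_cast hN
  have hN1 : (1 : ℝ) ≤ N := by exact_mod_cast hN
  set δ : ℝ := η / (4 * N) with hδdef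
  have hδ : 0 < δ := by positivity
  have hβ0 : 0 < β := lt_of_lt_of_le (by positivity) hβ
  have hNδ : N * δ = η / 4 := by rw [hδdef]; field_simp
  have hw : 0 < N ^ 2 := by positivity
  -- index types of the union bounds
  set QT := Fin N → Fin N → Fin (2 * Q + 1) with hQT
  -- events
  let good : QT → Prop := fun q => ∀ x : Fin N → ℝ,
    ∑ i, (∑ j, gridM δ q i j * x j) ^ 2 ≤ (2 * β) ^ 2 * ∑ j, x j ^ 2
  let E1 : (QT × (Fin (N ^ 2) → Fin M) × (Fin (N ^ 2) → Fin M) × (Fin (N ^ 2) → Bool)) →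
      (T → Bool) → Prop := fun p u =>
    good p.1 ∧ Function.Injective p.2.2.1 ∧ (∀ s t, p.2.1 s ≠ p.2.2.1 t) ∧
      ∀ s, η / 2 ≤ sg (p.2.2.2 s) * ((1 / N : ℝ) * ∑ i, sg (u (φ (p.2.2.1 s, i))) *
        ∑ j, gridM δ p.1 i j * sg (u (φ (p.2.1 s, j))))
  let E2 : (QT × (Fin (N ^ 2) → Fin M) × (Fin (N ^ 2) → Bool)) → (T → Bool) → Prop := fun p u =>
    good p.1 ∧ Function.Injective p.2.1 ∧
      ∀ s, η / 2 ≤ sg (p.2.2 s) * ((1 / N : ℝ) * ∑ i, sg (u (φ (p.2.1 s, i))) *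
        ∑ j, gridM δ p.1 i j * sg (u (φ (p.2.1 s, j))) - (∑ i, gridM δ p.1 i i) / N)
  -- bounds of the single events
  have hexp1 : Real.exp (-(((N ^ 2 : ℕ) : ℝ) * (η / 2) ^ 2 * N / (2 * (2 * β) ^ 2)))
      ≤ Real.exp (-X) ^ (N ^ 2) := by
    rw [← Real.exp_nat_mul]
    apply Real.exp_le_exp.mpr
    have h1 : X ≤ (η / 2) ^ 2 * N / (2 * (2 * β) ^ 2) := by
      refine hX.trans ?_
      rw [div_le_div_iff₀ (by positivity) (by positivity)]
      have : 0 ≤ η ^ 2 * N * β ^ 2 := by positivity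
      nlinarith
    have h2 : (0 : ℝ) ≤ ((N ^ 2 : ℕ) : ℝ) := Nat.cast_nonneg _
    have h3 := mul_le_mul_of_nonneg_left h1 h2
    have h4 : ((N ^ 2 : ℕ) : ℝ) * (η / 2) ^ 2 * N / (2 * (2 * β) ^ 2)
        = ((N ^ 2 : ℕ) : ℝ) * ((η / 2) ^ 2 * N / (2 * (2 * β) ^ 2)) := by ring
    rw [h4]
    linarith
  have hexp2 : Real.exp (-(((N ^ 2 : ℕ) : ℝ) * (η / 2) ^ 2 * N / (32 * (2 * β) ^ 2)))
      ≤ Real.exp (-X) ^ (N ^ 2) := by
    rw [← Real.exp_nat_mul]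
    apply Real.exp_le_exp.mpr
    have h1 : X ≤ (η / 2) ^ 2 * N / (32 * (2 * β) ^ 2) := by
      refine hX.trans (le_of_eq ?_)
      field_simp
      ring
    have h2 : (0 : ℝ) ≤ ((N ^ 2 : ℕ) : ℝ) := Nat.cast_nonneg _
    have h3 := mul_le_mul_of_nonneg_left h1 h2
    have h4 : ((N ^ 2 : ℕ) : ℝ) * (η / 2) ^ 2 * N / (32 * (2 * β) ^ 2)
        = ((N ^ 2 : ℕ) : ℝ) * ((η / 2) ^ 2 * N / (32 * (2 * β) ^ 2)) := by ring
    rw [h4]
    linarith
  have hP1 : ∀ p, Pr (E1 p) ≤ Real.exp (-X) ^ (N ^ 2) := by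
    intro p
    by_cases hg : good p.1 ∧ Function.Injective p.2.2.1 ∧ (∀ s t, p.2.1 s ≠ p.2.2.1 t)
    · refine le_trans (Pr_mono (q := fun u : T → Bool => ∀ s, η / 2 ≤ sg (p.2.2.2 s) *
        ((1 / N : ℝ) * ∑ i, sg (u (φ (p.2.2.1 s, i))) *
          ∑ j, gridM δ p.1 i j * sg (u (φ (p.2.1 s, j))))) (fun u hu => hu.2.2.2)) ?_
      exact (off_fixed φ hφ (gridM δ p.1) (2 * β) (by positivity) hg.1 p.2.1 p.2.2.1 hg.2.1
        hg.2.2 (fun s => sg (p.2.2.2 s)) (fun s => (sg_abs _).le) (η / 2) (by positivity) hN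
        hw).trans hexp1
    · refine le_trans (Pr_mono (q := fun _ => False) (fun u hu => hg ⟨hu.1, hu.2.1, hu.2.2.1⟩)) ?_
      rw [Pr_false]
      positivity
  have hP2 : ∀ p, Pr (E2 p) ≤ Real.exp (-X) ^ (N ^ 2) := by
    intro p
    by_cases hg : good p.1 ∧ Function.Injective p.2.1
    · refine le_trans (Pr_mono (q := fun u : T → Bool => ∀ s, η / 2 ≤ sg (p.2.2 s) *
        ((1 / N : ℝ) * ∑ i, sg (u (φ (p.2.1 s, i))) *
          ∑ j, gridM δ p.1 i j * sg (u (φ (p.2.1 s, j))) - (∑ i, gridM δ p.1 i i) / N))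
          (fun u hu => hu.2.2)) ?_
      exact (diag_fixed φ hφ (gridM δ p.1) (2 * β) (by positivity) hg.1 p.2.1 hg.2
        (fun s => sg (p.2.2 s)) (fun s => (sg_abs _).le) (η / 2) (by positivity) hN).trans hexp2
    · refine le_trans (Pr_mono (q := fun _ => False) (fun u hu => hg ⟨hu.1, hu.2.1⟩)) ?_
      rw [Pr_false]
      positivity
  -- the failure of rigidity is covered
  have hcover : ∀ u : T → Bool, ¬ HUC.Rigid N M (fun h j => sg (u (φ (h, j)))) β η (N ^ 2) →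
      (∃ p, E1 p u) ∨ (∃ p, E2 p u) := by
    intro u hu
    unfold HUC.Rigid at hu
    push Not at hu
    obtain ⟨g, hg, hfail⟩ := hu
    obtain ⟨q, hq⟩ := exists_grid g hδ Q hQ (entry_le g hβ0.le hg)
    have hgood : good q := fun x => grid_norm g (gridM δ q) hδ (by rw [hNδ]; exact hβ) hg hq x
    have hform : ∀ h k : Fin M, (1 / N : ℝ) * ∑ i, sg (u (φ (k, i))) *
        ∑ j, gridM δ q i j * sg (u (φ (h, j)))
        = (1 / N : ℝ) * ∑ i, ∑ j, sg (u (φ (k, i))) * gridM δ q i j * sg (u (φ (h, j))) := by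
      intro h k
      congr 1
      refine Finset.sum_congr rfl fun i _ => ?_
      rw [Finset.mul_sum]
      exact Finset.sum_congr rfl fun j _ => by ring
    have hdiff : ∀ h k : Fin M, |∑ i, ∑ j, sg (u (φ (k, i))) * g i j * sg (u (φ (h, j)))
        - ∑ i, ∑ j, sg (u (φ (k, i))) * gridM δ q i j * sg (u (φ (h, j)))| ≤ N * (η / 4) := by
      intro h k
      have h1 : ∑ i, ∑ j, sg (u (φ (k, i))) * g i j * sg (u (φ (h, j)))
        - ∑ i, ∑ j, sg (u (φ (k, i))) * gridM δ q i j * sg (u (φ (h, j)))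
        = ∑ i, ∑ j, sg (u (φ (k, i))) * (g i j - gridM δ q i j) * sg (u (φ (h, j))) := by
        rw [← Finset.sum_sub_distrib]
        refine Finset.sum_congr rfl fun i _ => ?_
        rw [← Finset.sum_sub_distrib]
        exact Finset.sum_congr rfl fun j _ => by ring
      rw [h1, ← hNδ]
      exact bil_le _ hq _ _ (fun i => sg_abs _) (fun i => sg_abs _)
    by_cases hoff : ∀ h k : Fin (N ^ 2) → Fin M, Function.Injective h → Function.Injective k →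
        (∀ s t, h s ≠ k t) → ∃ s, |∑ i, ∑ j, sg (u (φ (k s, i))) * g i j *
          sg (u (φ (h s, j)))| < η * N
    · right
      obtain ⟨h, hh, hbad⟩ := hfail hoff
      choose ε hε using fun s => exists_sign ((1 / N : ℝ) * ∑ i, sg (u (φ (h s, i))) *
        ∑ j, gridM δ q i j * sg (u (φ (h s, j))) - (∑ i, gridM δ q i i) / N)
      refine ⟨(q, h, ε), hgood, hh, fun s => ?_⟩
      show η / 2 ≤ sg (ε s) * ((1 / N : ℝ) * ∑ i, sg (u (φ (h s, i))) *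
        ∑ j, gridM δ q i j * sg (u (φ (h s, j))) - (∑ i, gridM δ q i i) / N)
      rw [hε s, hform]
      have hb := hbad s
      have htr : |∑ i, g i i - ∑ i, gridM δ q i i| ≤ η / 4 := by
        rw [← Finset.sum_sub_distrib, ← hNδ]
        calc |∑ i, (g i i - gridM δ q i i)| ≤ ∑ i, |g i i - gridM δ q i i| :=
              Finset.abs_sum_le_sum_abs _ _
          _ ≤ ∑ _i : Fin N, δ := Finset.sum_le_sum fun i _ => hq i i
          _ = N * δ := by simp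
      have hd := hdiff (h s) (h s)
      set S1 := ∑ i, ∑ j, sg (u (φ (h s, i))) * g i j * sg (u (φ (h s, j)))
      set S2 := ∑ i, ∑ j, sg (u (φ (h s, i))) * gridM δ q i j * sg (u (φ (h s, j)))
      set t1 := ∑ i, g i i
      set t2 := ∑ i, gridM δ q i i
      have h2 : (1 / N : ℝ) * S2 - t2 / N = (S2 - t2) / N := by ring
      rw [h2, abs_div, abs_of_pos hN', le_div_iff₀ hN']
      have h3 : |S1 - t1| ≤ |S2 - t2| + |S1 - S2| + |t1 - t2| := by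
        calc |S1 - t1| = |(S2 - t2) + (S1 - S2) - (t1 - t2)| := by congr 1; ring
          _ ≤ |(S2 - t2) + (S1 - S2)| + |t1 - t2| := abs_sub _ _
          _ ≤ _ := by
              have := abs_add_le (S2 - t2) (S1 - S2)
              linarith
      have h4 : η / 4 ≤ N * (η / 4) := by
        have : 0 ≤ η / 4 := by positivity
        nlinarith
      have h5 : η * N ≤ |S1 - t1| := hb
      nlinarith
    · left
      push Not at hoff
      obtain ⟨h, k, hh, hk, hhk, hbad⟩ := hoff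
      choose ε hε using fun s => exists_sign ((1 / N : ℝ) * ∑ i, sg (u (φ (k s, i))) *
        ∑ j, gridM δ q i j * sg (u (φ (h s, j))))
      refine ⟨(q, h, k, ε), hgood, hk, hhk, fun s => ?_⟩
      show η / 2 ≤ sg (ε s) * ((1 / N : ℝ) * ∑ i, sg (u (φ (k s, i))) *
        ∑ j, gridM δ q i j * sg (u (φ (h s, j))))
      rw [hε s, hform]
      have hb := hbad s
      have hd := hdiff (h s) (k s)
      set S1 := ∑ i, ∑ j, sg (u (φ (k s, i))) * g i j * sg (u (φ (h s, j)))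
      set S2 := ∑ i, ∑ j, sg (u (φ (k s, i))) * gridM δ q i j * sg (u (φ (h s, j)))
      have h2 : (1 / N : ℝ) * S2 = S2 / N := by ring
      rw [h2, abs_div, abs_of_pos hN', le_div_iff₀ hN']
      have h3 : |S1| ≤ |S2| + |S1 - S2| := by
        calc |S1| = |S2 + (S1 - S2)| := by congr 1; ring
          _ ≤ _ := abs_add_le _ _
      have h5 : η * N ≤ |S1| := hb
      nlinarith
  -- counting
  have hc1 : ((Fintype.card (QT × (Fin (N ^ 2) → Fin M) × (Fin (N ^ 2) → Fin M) ×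
      (Fin (N ^ 2) → Bool)) : ℕ) : ℝ) = ((2 * Q + 1 : ℝ) * M ^ 2 * 2) ^ (N ^ 2) := by
    show ((Fintype.card ((Fin N → Fin N → Fin (2 * Q + 1)) × (Fin (N ^ 2) → Fin M) ×
      (Fin (N ^ 2) → Fin M) × (Fin (N ^ 2) → Bool)) : ℕ) : ℝ) = _
    simp only [Fintype.card_prod, Fintype.card_fun, Fintype.card_fin, Fintype.card_bool]
    push_cast
    have h1 : (((2 * Q + 1 : ℝ)) ^ N) ^ N = (2 * Q + 1 : ℝ) ^ (N ^ 2) := by
      rw [← pow_mul, ← pow_two N]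
    have h2 : ((M : ℝ) ^ 2) ^ (N ^ 2) = (M : ℝ) ^ (N ^ 2) * (M : ℝ) ^ (N ^ 2) := by
      rw [pow_two (M : ℝ), mul_pow]
    rw [h1, mul_pow, mul_pow, h2]
    ring
  have hc2 : ((Fintype.card (QT × (Fin (N ^ 2) → Fin M) × (Fin (N ^ 2) → Bool)) : ℕ) : ℝ)
      = ((2 * Q + 1 : ℝ) * M * 2) ^ (N ^ 2) := by
    show ((Fintype.card ((Fin N → Fin N → Fin (2 * Q + 1)) × (Fin (N ^ 2) → Fin M) ×
      (Fin (N ^ 2) → Bool)) : ℕ) : ℝ) = _
    simp only [Fintype.card_prod, Fintype.card_fun, Fintype.card_fin, Fintype.card_bool]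
    push_cast
    have h1 : (((2 * Q + 1 : ℝ)) ^ N) ^ N = (2 * Q + 1 : ℝ) ^ (N ^ 2) := by
      rw [← pow_mul, ← pow_two N]
    rw [h1, mul_pow, mul_pow]
    ring
  have hM1 : (1 : ℝ) ≤ M := by exact_mod_cast hM
  have hsmall2 : (2 * Q + 1 : ℝ) * M * 2 * Real.exp (-X) ≤ 1 / 8 := by
    refine le_trans ?_ hsmall
    have h1 : (M : ℝ) ≤ M ^ 2 := by nlinarith
    have h2 : 0 ≤ Real.exp (-X) := (Real.exp_pos _).le
    have h3 : (0 : ℝ) ≤ 2 * Q + 1 := by positivity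
    have h4 : (2 * Q + 1 : ℝ) * M ≤ (2 * Q + 1 : ℝ) * M ^ 2 := mul_le_mul_of_nonneg_left h1 h3
    nlinarith
  have hpow : ∀ y : ℝ, 0 ≤ y → y ≤ 1 / 8 → y ^ (N ^ 2) ≤ 1 / 8 := by
    intro y hy0 hy1
    calc y ^ (N ^ 2) ≤ y ^ 1 := pow_le_pow_of_le_one hy0 (by linarith) hw
      _ ≤ 1 / 8 := by rw [pow_one]; exact hy1
  have hU1 : Pr (fun u => ∃ p, E1 p u) ≤ 1 / 8 := by
    refine (Pr_exists_le E1 _ hP1).trans ?_
    rw [hc1, ← mul_pow]
    exact hpow _ (by positivity) hsmall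
  have hU2 : Pr (fun u => ∃ p, E2 p u) ≤ 1 / 8 := by
    refine (Pr_exists_le E2 _ hP2).trans ?_
    rw [hc2, ← mul_pow]
    exact hpow _ (by positivity) hsmall2
  calc Pr (fun u : T → Bool => ¬ HUC.Rigid N M (fun h j => sg (u (φ (h, j)))) β η (N ^ 2))
      ≤ Pr (fun u => (∃ p, E1 p u) ∨ (∃ p, E2 p u)) := Pr_mono hcover
    _ ≤ Pr (fun u => ∃ p, E1 p u) + Pr (fun u => ∃ p, E2 p u) := Pr_or _ _
    _ ≤ 1 / 4 := by linarith

end

end HUN
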