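import Pool.Agent.Lib.MP_5c7eee_an.Neg.SignsCore

/-!
# Rigidity of random signs, fixed matrix and fixed indices
-/

namespace HUN

open Finset

noncomputable section

variable {T : Type*} [Fintype T] [DecidableEq T] {R : Type*}

/-- Off-diagonal entries: fixed matrix, fixed pairs, fixed signs. -/
theorem off_fixed {N w : ℕ} (φ : R × Fin N → T) (hφ : Function.Injective φ)
    (b : Fin N → Fin N → ℝ) (B : ℝ) (hB0 : 0 < B)
    (hb : ∀ v : Fin N → ℝ, ∑ i, (∑ j, b i j * v j) ^ 2 ≤ B ^ 2 * ∑ j, v j ^ 2)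
    (h k : Fin w → R) (hk : Function.Injective k) (hhk : ∀ s s', h s ≠ k s')
    (ε : Fin w → ℝ) (hε : ∀ s, |ε s| ≤ 1) (η : ℝ) (hη : 0 ≤ η) (hN : 0 < N) (hw : 0 < w) :
    Pr (fun u : T → Bool => ∀ s, η ≤ ε s * ((1 / N : ℝ) * ∑ i, sg (u (φ (k s, i))) *
        ∑ j, b i j * sg (u (φ (h s, j)))))
      ≤ Real.exp (-(w * η ^ 2 * N / (2 * B ^ 2))) := by
  have hN' : (0 : ℝ) < N := by exact_mod_cast hN
  have hw' : (0 : ℝ) < w := by exact_mod_cast hw
  set z : Fin w × Fin N → (T → Bool) → ℝ :=
    fun p u => (ε p.1 / N) * ∑ j, b p.2 j * sg (u (φ (h p.1, j))) with hzdef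
  have hinj : Set.InjOn (fun p : Fin w × Fin N => φ (k p.1, p.2))
      ((Finset.univ : Finset (Fin w × Fin N)) : Set (Fin w × Fin N)) := by
    intro p _ q _ hpq
    have := hφ hpq
    rw [Prod.mk.injEq] at this
    exact Prod.ext (hk this.1) this.2
  have hz : ∀ p ∈ (Finset.univ : Finset (Fin w × Fin N)), ∀ q ∈ (Finset.univ : Finset (Fin w × Fin N)),
      ∀ u, z p (flip (φ (k q.1, q.2)) u) = z p u := by
    intro p _ q _ u
    simp only [hzdef]
    congr 1
    refine Finset.sum_congr rfl fun j _ => ?_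
    rw [flip_ne]
    intro hcon
    have := hφ hcon
    rw [Prod.mk.injEq] at this
    exact hhk p.1 q.1 this.1
  have hZ : ∀ u, ∑ p ∈ (Finset.univ : Finset (Fin w × Fin N)), z p u ^ 2 ≤ w * B ^ 2 / N := by
    intro u
    rw [← Finset.univ_product_univ, Finset.sum_product]
    have hs : ∀ s : Fin w, ∑ i : Fin N, z (s, i) u ^ 2 ≤ B ^ 2 / N := by
      intro s
      have h1 : ∑ i : Fin N, z (s, i) u ^ 2
          = (ε s / N) ^ 2 * ∑ i, (∑ j, b i j * sg (u (φ (h s, j)))) ^ 2 := by
        rw [Finset.mul_sum]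
        exact Finset.sum_congr rfl fun i _ => by simp only [hzdef]; ring
      have h2 := hb (fun j => sg (u (φ (h s, j))))
      have h3 : ∑ j : Fin N, sg (u (φ (h s, j))) ^ 2 = N := by
        simp [sg_sq]
      rw [h3] at h2
      have h4 : (ε s) ^ 2 ≤ 1 := by
        have := hε s
        rw [← sq_abs]
        exact pow_le_one₀ (abs_nonneg _) this
      rw [h1]
      calc (ε s / N) ^ 2 * ∑ i, (∑ j, b i j * sg (u (φ (h s, j)))) ^ 2
          ≤ (ε s / N) ^ 2 * (B ^ 2 * N) := by
            exact mul_le_mul_of_nonneg_left h2 (sq_nonneg _)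
        _ = ε s ^ 2 * (B ^ 2 / N) := by field_simp
        _ ≤ 1 * (B ^ 2 / N) := by
            exact mul_le_mul_of_nonneg_right h4 (by positivity)
        _ = B ^ 2 / N := one_mul _
    calc ∑ s : Fin w, ∑ i : Fin N, z (s, i) u ^ 2 ≤ ∑ _s : Fin w, B ^ 2 / N :=
          Finset.sum_le_sum fun s _ => hs s
      _ = w * B ^ 2 / N := by
          rw [Finset.sum_const, nsmul_eq_mul, Finset.card_univ, Fintype.card_fin]; ring
  have ht := (tail_one Finset.univ (fun p : Fin w × Fin N => φ (k p.1, p.2)) hinj z hz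
    (w * B ^ 2 / N) (by positivity) hZ (w * η)).resolve_right (not_lt.mpr (by positivity))
  refine le_trans (Pr_mono ?_) (ht.trans (le_of_eq ?_))
  · intro u hu
    have h1 : ∑ p ∈ (Finset.univ : Finset (Fin w × Fin N)), sg (u (φ (k p.1, p.2))) * z p u
        = ∑ s, ε s * ((1 / N : ℝ) * ∑ i, sg (u (φ (k s, i))) *
        ∑ j, b i j * sg (u (φ (h s, j)))) := by
      rw [← Finset.univ_product_univ, Finset.sum_product]
      refine Finset.sum_congr rfl fun s _ => ?_
      rw [Finset.mul_sum, Finset.mul_sum]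
      refine Finset.sum_congr rfl fun i _ => ?_
      simp only [hzdef]
      ring
    show (w : ℝ) * η ≤ _
    rw [h1]
    calc (w : ℝ) * η = ∑ _s : Fin w, η := by
          rw [Finset.sum_const, nsmul_eq_mul, Finset.card_univ, Fintype.card_fin]
      _ ≤ _ := Finset.sum_le_sum fun s _ => hu s
  · congr 1
    field_simp

/-! ## Decoupling -/

lemma sum_sg {ι : Type*} [Fintype ι] [DecidableEq ι] (i : ι) :
    ∑ I : ι → Bool, sg (I i) = 0 := by
  have h : ∑ I : ι → Bool, sg (I i) = ∑ I : ι → Bool, - sg (I i) := by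
    rw [← Equiv.sum_comp (flipEquiv i)]
    refine Finset.sum_congr rfl fun I _ => ?_
    show sg (flip i I i) = _
    rw [flip_same, sg_not]
  rw [Finset.sum_neg_distrib] at h
  linarith

lemma sum_sg_mul {ι : Type*} [Fintype ι] [DecidableEq ι] {i j : ι} (hij : i ≠ j) :
    ∑ I : ι → Bool, sg (I i) * sg (I j) = 0 := by
  have h : ∑ I : ι → Bool, sg (I i) * sg (I j) = ∑ I : ι → Bool, - (sg (I i) * sg (I j)) := by
    rw [← Equiv.sum_comp (flipEquiv i)]
    refine Finset.sum_congr rfl fun I _ => ?_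
    show sg (flip i I i) * sg (flip i I j) = _
    rw [flip_same, sg_not, flip_ne (Ne.symm hij)]
    ring
  rw [Finset.sum_neg_distrib] at h
  linarith

/-- The weight of the pair `(i,j)` in the cut `I`. -/
def cut {N : ℕ} (I : Fin N → Bool) (i j : Fin N) : ℝ := if I i = true ∧ I j = false then 1 else 0

lemma cut_eq {N : ℕ} (I : Fin N → Bool) (i j : Fin N) :
    cut I i j = (1 + sg (I i) - sg (I j) - sg (I i) * sg (I j)) / 4 := by
  unfold cut
  cases I i <;> cases I j <;> norm_num [sg]

lemma sum_cut {N : ℕ} (i j : Fin N) :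
    ∑ I : Fin N → Bool, cut I i j = if i = j then 0 else (2 : ℝ) ^ N / 4 := by
  have h1 : ∑ I : Fin N → Bool, cut I i j
      = ((∑ _I : Fin N → Bool, (1 : ℝ)) + ∑ I : Fin N → Bool, sg (I i)
        - ∑ I : Fin N → Bool, sg (I j) - ∑ I : Fin N → Bool, sg (I i) * sg (I j)) / 4 := by
    rw [← Finset.sum_add_distrib, ← Finset.sum_sub_distrib, ← Finset.sum_sub_distrib,
      Finset.sum_div]
    exact Finset.sum_congr rfl fun I _ => cut_eq I i j
  rw [h1, sum_sg, sum_sg]
  have h2 : (∑ _I : Fin N → Bool, (1 : ℝ)) = 2 ^ N := by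
    simp
  rw [h2]
  split_ifs with h
  · subst h
    have : ∑ I : Fin N → Bool, sg (I i) * sg (I i) = 2 ^ N := by
      simp [sg_mul_self]
    rw [this]; ring
  · rw [sum_sg_mul h]; ring

lemma decouple {N : ℕ} (a : Fin N → Fin N → ℝ) :
    ∑ i, ∑ j, (if i = j then 0 else a i j)
      = ∑ I : Fin N → Bool, ((2 : ℝ) ^ N)⁻¹ * (4 * ∑ i, ∑ j, cut I i j * a i j) := by
  have h1 : ∑ I : Fin N → Bool, ((2 : ℝ) ^ N)⁻¹ * (4 * ∑ i, ∑ j, cut I i j * a i j)
      = ((2 : ℝ) ^ N)⁻¹ * (4 * ∑ i, ∑ j, (∑ I : Fin N → Bool, cut I i j) * a i j) := by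
    rw [← Finset.mul_sum, ← Finset.mul_sum]
    congr 2
    rw [Finset.sum_comm]
    refine Finset.sum_congr rfl fun i _ => ?_
    rw [Finset.sum_comm]
    refine Finset.sum_congr rfl fun j _ => ?_
    rw [Finset.sum_mul]
  rw [h1, Finset.mul_sum, Finset.mul_sum]
  refine Finset.sum_congr rfl fun i _ => ?_
  rw [Finset.mul_sum, Finset.mul_sum]
  refine Finset.sum_congr rfl fun j _ => ?_
  rw [sum_cut]
  have h2 : (2 : ℝ) ^ N ≠ 0 := by positivity
  split_ifs with h
  · simp
  · field_simp

/-- Jensen for the average over the cuts. -/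
lemma exp_avg_le {N : ℕ} (X : (Fin N → Bool) → ℝ) :
    Real.exp (∑ I, ((2 : ℝ) ^ N)⁻¹ * X I) ≤ ∑ I, ((2 : ℝ) ^ N)⁻¹ * Real.exp (X I) := by
  have h := convexOn_exp.map_sum_le (t := (Finset.univ : Finset (Fin N → Bool)))
    (w := fun _ => ((2 : ℝ) ^ N)⁻¹) (p := X) (fun _ _ => by positivity)
    (by simp) (fun _ _ => Set.mem_univ _)
  simpa [smul_eq_mul] using h

/-- Exponential moment of the decoupled chaos for a fixed cut. -/
theorem cut_moment {N w : ℕ} (φ : R × Fin N → T) (hφ : Function.Injective φ)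
    (b : Fin N → Fin N → ℝ) (B : ℝ)
    (hb : ∀ v : Fin N → ℝ, ∑ i, (∑ j, b i j * v j) ^ 2 ≤ B ^ 2 * ∑ j, v j ^ 2)
    (h : Fin w → R) (hh : Function.Injective h)
    (ε : Fin w → ℝ) (hε : ∀ s, |ε s| ≤ 1) (lam : ℝ) (I : Fin N → Bool) :
    ∑ u : T → Bool, Real.exp (∑ s, lam * ε s * ∑ i, ∑ j, cut I i j *
        (b i j * sg (u (φ (h s, i))) * sg (u (φ (h s, j)))))
      ≤ (Fintype.card (T → Bool) : ℝ) * Real.exp (lam ^ 2 * w * B ^ 2 * N / 2) := by
  set S : Finset (Fin w × Fin N) := Finset.univ.filter (fun p => I p.2 = true) with hS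
  set z : Fin w × Fin N → (T → Bool) → ℝ :=
    fun p u => lam * ε p.1 * ∑ j, b p.2 j * (if I j = false then sg (u (φ (h p.1, j))) else 0)
    with hzdef
  have hinj : Set.InjOn (fun p : Fin w × Fin N => φ (h p.1, p.2)) (S : Set (Fin w × Fin N)) := by
    intro p _ q _ hpq
    have := hφ hpq
    rw [Prod.mk.injEq] at this
    exact Prod.ext (hh this.1) this.2
  have hz : ∀ p ∈ S, ∀ q ∈ S, ∀ u, z p (flip (φ (h q.1, q.2)) u) = z p u := by
    intro p _ q hq u
    simp only [hzdef]
    congr 1
    refine Finset.sum_congr rfl fun j _ => ?_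
    by_cases hj : I j = false
    · rw [if_pos hj, if_pos hj, flip_ne]
      intro hcon
      have := hφ hcon
      rw [Prod.mk.injEq] at this
      have hq2 : I q.2 = true := by
        have := (Finset.mem_filter.mp hq).2
        exact this
      rw [← this.2, hj] at hq2
      exact Bool.false_ne_true hq2
    · rw [if_neg hj, if_neg hj]
  have hZ : ∀ u, ∑ p ∈ S, z p u ^ 2 ≤ lam ^ 2 * w * B ^ 2 * N := by
    intro u
    calc ∑ p ∈ S, z p u ^ 2 ≤ ∑ p : Fin w × Fin N, z p u ^ 2 :=
          Finset.sum_le_sum_of_subset_of_nonneg (Finset.subset_univ _) fun _ _ _ => sq_nonneg _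
      _ = ∑ s : Fin w, ∑ i : Fin N, z (s, i) u ^ 2 := by
          rw [← Finset.univ_product_univ, Finset.sum_product]
      _ ≤ ∑ _s : Fin w, lam ^ 2 * (B ^ 2 * N) := by
          refine Finset.sum_le_sum fun s _ => ?_
          have h1 : ∑ i : Fin N, z (s, i) u ^ 2
              = (lam * ε s) ^ 2 * ∑ i, (∑ j, b i j *
                (if I j = false then sg (u (φ (h s, j))) else 0)) ^ 2 := by
            rw [Finset.mul_sum]
            exact Finset.sum_congr rfl fun i _ => by simp only [hzdef]; ring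
          have h2 := hb (fun j => if I j = false then sg (u (φ (h s, j))) else 0)
          have h3 : ∑ j : Fin N, (if I j = false then sg (u (φ (h s, j))) else 0) ^ 2 ≤ N := by
            calc ∑ j : Fin N, (if I j = false then sg (u (φ (h s, j))) else 0) ^ 2
                ≤ ∑ _j : Fin N, (1 : ℝ) := by
                  refine Finset.sum_le_sum fun j _ => ?_
                  split_ifs
                  · rw [sg_sq]
                  · norm_num
              _ = N := by simp
          have h4 : (ε s) ^ 2 ≤ 1 := by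
            have := hε s
            rw [← sq_abs]
            exact pow_le_one₀ (abs_nonneg _) this
          rw [h1, mul_pow]
          have h5 : ∑ i, (∑ j, b i j *
                (if I j = false then sg (u (φ (h s, j))) else 0)) ^ 2 ≤ B ^ 2 * N :=
            h2.trans (mul_le_mul_of_nonneg_left h3 (sq_nonneg _))
          have h6 : 0 ≤ ∑ i, (∑ j, b i j *
                (if I j = false then sg (u (φ (h s, j))) else 0)) ^ 2 :=
            Finset.sum_nonneg fun _ _ => sq_nonneg _
          calc lam ^ 2 * ε s ^ 2 * ∑ i, (∑ j, b i j *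
                (if I j = false then sg (u (φ (h s, j))) else 0)) ^ 2
              ≤ lam ^ 2 * 1 * ∑ i, (∑ j, b i j *
                (if I j = false then sg (u (φ (h s, j))) else 0)) ^ 2 := by
                apply mul_le_mul_of_nonneg_right _ h6
                exact mul_le_mul_of_nonneg_left h4 (sq_nonneg _)
            _ ≤ lam ^ 2 * 1 * (B ^ 2 * N) := by
                apply mul_le_mul_of_nonneg_left h5 (by positivity)
            _ = _ := by ring
      _ = lam ^ 2 * w * B ^ 2 * N := by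
          rw [Finset.sum_const, nsmul_eq_mul, Finset.card_univ, Fintype.card_fin]; ring
  have hm := exp_moment' S (fun p : Fin w × Fin N => φ (h p.1, p.2)) hinj z hz _ hZ
  refine le_trans (le_of_eq ?_) hm
  refine Finset.sum_congr rfl fun u _ => ?_
  congr 1
  have h7 : ∑ p ∈ S, sg (u (φ (h p.1, p.2))) * z p u
      = ∑ p : Fin w × Fin N, if I p.2 = true then sg (u (φ (h p.1, p.2))) * z p u else 0 := by
    rw [hS, Finset.sum_filter]
  rw [h7, ← Finset.univ_product_univ, Finset.sum_product]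
  refine Finset.sum_congr rfl fun s _ => ?_
  rw [Finset.mul_sum]
  refine Finset.sum_congr rfl fun i _ => ?_
  by_cases hi : I i = true
  · rw [if_pos hi]
    simp only [hzdef]
    rw [Finset.mul_sum, Finset.mul_sum, Finset.mul_sum]
    refine Finset.sum_congr rfl fun j _ => ?_
    unfold cut
    by_cases hj : I j = false
    · rw [if_pos ⟨hi, hj⟩, if_pos hj]
      ring
    · rw [if_neg (fun hc => hj hc.2), if_neg hj]
      ring
  · rw [if_neg hi]
    have : ∀ j, cut I i j = 0 := by
      intro j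
      unfold cut
      rw [if_neg]
      exact fun hc => hi hc.1
    simp [this]

/-- The diagonal: fixed matrix, fixed indices, fixed signs. -/
theorem diag_fixed {N w : ℕ} (φ : R × Fin N → T) (hφ : Function.Injective φ)
    (b : Fin N → Fin N → ℝ) (B : ℝ) (hB0 : 0 < B)
    (hb : ∀ v : Fin N → ℝ, ∑ i, (∑ j, b i j * v j) ^ 2 ≤ B ^ 2 * ∑ j, v j ^ 2)
    (h : Fin w → R) (hh : Function.Injective h)
    (ε : Fin w → ℝ) (hε : ∀ s, |ε s| ≤ 1) (η : ℝ) (hη : 0 ≤ η) (hN : 0 < N) :
    Pr (fun u : T → Bool => ∀ s, η ≤ ε s * ((1 / N : ℝ) * ∑ i, sg (u (φ (h s, i))) *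
        ∑ j, b i j * sg (u (φ (h s, j))) - (∑ i, b i i) / N))
      ≤ Real.exp (-(w * η ^ 2 * N / (32 * B ^ 2))) := by
  have hN' : (0 : ℝ) < N := by exact_mod_cast hN
  set lam : ℝ := η * N / (16 * B ^ 2) with hlam
  have hlam0 : 0 ≤ lam := by positivity
  set x : Fin w → (T → Bool) → Fin N → ℝ := fun s u i => sg (u (φ (h s, i))) with hx
  -- the quadratic form minus the trace is the off-diagonal part
  have hY : ∀ s u, (1 / N : ℝ) * ∑ i, x s u i * ∑ j, b i j * x s u j - (∑ i, b i i) / N
      = (1 / N : ℝ) * ∑ i, ∑ j, (if i = j then 0 else b i j * x s u i * x s u j) := by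
    intro s u
    have h1 : ∑ i, x s u i * ∑ j, b i j * x s u j
        = ∑ i, ∑ j, (if i = j then 0 else b i j * x s u i * x s u j) + ∑ i, b i i := by
      rw [← Finset.sum_add_distrib]
      refine Finset.sum_congr rfl fun i _ => ?_
      have h2 : ∑ j, (if i = j then 0 else b i j * x s u i * x s u j) + b i i
          = ∑ j, ((if i = j then 0 else b i j * x s u i * x s u j)
            + (if i = j then b i j else 0)) := by
        rw [Finset.sum_add_distrib]
        congr 1
        simp
      rw [h2, Finset.mul_sum]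
      refine Finset.sum_congr rfl fun j _ => ?_
      split_ifs with hij
      · subst hij
        have : x s u i * x s u i = 1 := sg_mul_self _
        calc x s u i * (b i i * x s u i) = b i i * (x s u i * x s u i) := by ring
          _ = 0 + b i i := by rw [this]; ring
      · ring
    rw [h1]; ring
  have hexp : ∑ u : T → Bool, Real.exp (∑ s, lam * ε s * ((1 / N : ℝ) * ∑ i, ∑ j,
        (if i = j then 0 else b i j * x s u i * x s u j)))
      ≤ (Fintype.card (T → Bool) : ℝ) * Real.exp ((4 * lam / N) ^ 2 * w * B ^ 2 * N / 2) := by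
    have hstep : ∀ u : T → Bool, Real.exp (∑ s, lam * ε s * ((1 / N : ℝ) * ∑ i, ∑ j,
        (if i = j then 0 else b i j * x s u i * x s u j)))
        ≤ ∑ I : Fin N → Bool, ((2 : ℝ) ^ N)⁻¹ * Real.exp (∑ s, (4 * lam / N) * ε s *
          ∑ i, ∑ j, cut I i j * (b i j * x s u i * x s u j)) := by
      intro u
      have h1 : ∑ s, lam * ε s * ((1 / N : ℝ) * ∑ i, ∑ j,
        (if i = j then 0 else b i j * x s u i * x s u j))
        = ∑ I : Fin N → Bool, ((2 : ℝ) ^ N)⁻¹ * (∑ s, (4 * lam / N) * ε s *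
          ∑ i, ∑ j, cut I i j * (b i j * x s u i * x s u j)) := by
        have h2 : ∀ I : Fin N → Bool, ((2 : ℝ) ^ N)⁻¹ * (∑ s, (4 * lam / N) * ε s *
          ∑ i, ∑ j, cut I i j * (b i j * x s u i * x s u j))
          = ∑ s, (lam * ε s * (1 / N : ℝ)) * (((2 : ℝ) ^ N)⁻¹ * (4 *
            ∑ i, ∑ j, cut I i j * (b i j * x s u i * x s u j))) := by
          intro I
          rw [Finset.mul_sum]
          exact Finset.sum_congr rfl fun s _ => by ring
        simp_rw [h2]
        rw [Finset.sum_comm]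
        refine Finset.sum_congr rfl fun s _ => ?_
        rw [← Finset.mul_sum, ← decouple (fun i j => b i j * x s u i * x s u j)]
        ring
      rw [h1]
      exact exp_avg_le _
    calc _ ≤ ∑ u : T → Bool, ∑ I : Fin N → Bool, ((2 : ℝ) ^ N)⁻¹ * Real.exp (∑ s,
          (4 * lam / N) * ε s * ∑ i, ∑ j, cut I i j * (b i j * x s u i * x s u j)) :=
          Finset.sum_le_sum fun u _ => hstep u
      _ = ∑ I : Fin N → Bool, ((2 : ℝ) ^ N)⁻¹ * ∑ u : T → Bool, Real.exp (∑ s,
          (4 * lam / N) * ε s * ∑ i, ∑ j, cut I i j * (b i j * x s u i * x s u j)) := by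
          rw [Finset.sum_comm]
          exact Finset.sum_congr rfl fun I _ => by rw [Finset.mul_sum]
      _ ≤ ∑ _I : Fin N → Bool, ((2 : ℝ) ^ N)⁻¹ * ((Fintype.card (T → Bool) : ℝ) *
            Real.exp ((4 * lam / N) ^ 2 * w * B ^ 2 * N / 2)) := by
          refine Finset.sum_le_sum fun I _ => ?_
          apply mul_le_mul_of_nonneg_left _ (by positivity)
          exact cut_moment φ hφ b B hb h hh ε hε (4 * lam / N) I
      _ = _ := by
          rw [Finset.sum_const, nsmul_eq_mul, Finset.card_univ]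
          have : ((Fintype.card (Fin N → Bool) : ℕ) : ℝ) = 2 ^ N := by simp
          rw [this, ← mul_assoc, mul_inv_cancel₀ (by positivity), one_mul]
  have hP := Pr_le_of_exp (fun u : T → Bool => ∀ s, η ≤ ε s * ((1 / N : ℝ) *
      ∑ i, x s u i * ∑ j, b i j * x s u j - (∑ i, b i i) / N))
    (fun u => ∑ s, lam * ε s * ((1 / N : ℝ) * ∑ i, ∑ j,
        (if i = j then 0 else b i j * x s u i * x s u j)))
    (lam * (w * η)) _ (fun u hu => by
      calc lam * (w * η) = ∑ _s : Fin w, lam * η := by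
            rw [Finset.sum_const, nsmul_eq_mul, Finset.card_univ, Fintype.card_fin]; ring
        _ ≤ _ := by
            refine Finset.sum_le_sum fun s _ => ?_
            have := hu s
            rw [hY] at this
            rw [mul_assoc]
            exact mul_le_mul_of_nonneg_left this hlam0) hexp
  refine hP.trans (le_of_eq ?_)
  congr 1
  rw [hlam]
  field_simp
  ring

end

end HUN
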