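import Mathlib

/-!
# MP_5c7eee_an: Hahn-Banach splitting

A linear functional dominated by `max ‖c‖ (max_i ‖v i c‖)` is `x + ∑ i, ν i • v i` with
`‖x‖ + ∑ i, ‖ν i‖ ≤ 1`.
-/

namespace HUN

open scoped BigOperators

/-- a unimodular (or zero) phase -/
theorem exists_phase (z : ℂ) : ∃ θ : ℂ, ‖θ‖ ≤ 1 ∧ θ * z = (‖z‖ : ℂ) := by
  rcases eq_or_ne z 0 with rfl | hz
  · exact ⟨0, by simp, by simp⟩
  · refine ⟨(‖z‖ : ℂ) / z, ?_, by field_simp⟩
    rw [norm_div, Complex.norm_real, norm_norm, div_self (norm_ne_zero_iff.2 hz)]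

section

variable {V : Type*} [NormedAddCommGroup V] [NormedSpace ℂ V] {ι : Type*} [Fintype ι]

/-- **Hahn-Banach splitting.** -/
theorem hb_split (v : ι → V →L[ℂ] ℂ) (ψ : V →ₗ[ℂ] ℂ)
    (hψ : ∀ (c : V) (r : ℝ), ‖c‖ ≤ r → (∀ i, ‖v i c‖ ≤ r) → ‖ψ c‖ ≤ r) :
    ∃ (x : V →L[ℂ] ℂ) (ν : ι → ℂ), (∀ c, ψ c = x c + ∑ i, ν i * v i c) ∧
      ‖x‖ + ∑ i, ‖ν i‖ ≤ 1 := by
  classical
  -- the embedding `c ↦ (c, (v i c)_i)`
  let J : V →ₗ[ℂ] (V × (ι → ℂ)) := LinearMap.prod LinearMap.id (LinearMap.pi fun i => (v i : V →ₗ[ℂ] ℂ))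
  have hJ : ∀ c, J c = (c, fun i => v i c) := fun c => rfl
  have hJn : ∀ c, ‖ψ c‖ ≤ ‖J c‖ := by
    intro c
    refine hψ c _ ?_ ?_
    · exact norm_fst_le (J c)
    · intro i
      exact (norm_le_pi_norm (fun i => v i c) i).trans (norm_snd_le (J c))
  let p : Subspace ℂ (V × (ι → ℂ)) := LinearMap.range J
  -- the functional on the range
  let f₀ : p →ₗ[ℂ] ℂ := ψ ∘ₗ (LinearMap.fst ℂ V (ι → ℂ)) ∘ₗ p.subtype
  have hf₀ : ∀ y : p, ‖f₀ y‖ ≤ 1 * ‖y‖ := by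
    rintro ⟨_, c, rfl⟩
    rw [one_mul]
    exact hJn c
  let f : StrongDual ℂ p := f₀.mkContinuous 1 hf₀
  have hf : ‖f‖ ≤ 1 := LinearMap.mkContinuous_norm_le _ zero_le_one _
  obtain ⟨g, hg1, hg2⟩ := exists_extension_norm_eq p f
  have hg : ‖g‖ ≤ 1 := hg2 ▸ hf
  have hgJ : ∀ c, g (J c) = ψ c := fun c => hg1 ⟨J c, c, rfl⟩
  let x : V →L[ℂ] ℂ := g.comp (ContinuousLinearMap.inl ℂ V (ι → ℂ))
  let ν : ι → ℂ := fun i => g (0, Pi.single i 1)
  have hdec : ∀ (c : V) (t : ι → ℂ), g (c, t) = x c + ∑ i, ν i * t i := by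
    intro c t
    have h1 : (c, t) = ContinuousLinearMap.inl ℂ V (ι → ℂ) c +
        ∑ i, t i • ((0 : V), (Pi.single i 1 : ι → ℂ)) := by
      refine Prod.ext ?_ ?_
      · simp [Prod.fst_sum]
      · simp only [Prod.snd_add, ContinuousLinearMap.inl_apply, zero_add, Prod.snd_sum,
          Prod.smul_snd]
        funext j
        simp [Finset.sum_apply, Pi.single_apply]
    rw [h1, map_add, map_sum]
    refine congrArg₂ _ rfl (Finset.sum_congr rfl fun i _ => ?_)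
    rw [map_smul, smul_eq_mul, mul_comm]
  refine ⟨x, ν, fun c => ?_, ?_⟩
  · rw [← hgJ, hJ, hdec]
  · -- the norm estimate
    have key : ∀ c : V, ‖c‖ ≤ 1 → ‖x c‖ + ∑ i, ‖ν i‖ ≤ 1 := by
      intro c hc
      obtain ⟨θ, hθ, hθx⟩ := exists_phase (x c)
      choose φ hφ hφν using fun i => exists_phase (ν i)
      have h1 : g (θ • c, φ) = ((‖x c‖ + ∑ i, ‖ν i‖ : ℝ) : ℂ) := by
        rw [hdec, map_smul, smul_eq_mul, hθx]
        push_cast
        refine congrArg₂ _ rfl (Finset.sum_congr rfl fun i _ => ?_)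
        rw [mul_comm, hφν]
      have h2 : ‖((θ • c, φ) : V × (ι → ℂ))‖ ≤ 1 := by
        rw [Prod.norm_def]
        refine max_le ?_ ?_
        · show ‖θ • c‖ ≤ 1
          rw [norm_smul]
          exact mul_le_one₀ hθ (norm_nonneg _) hc
        · exact (pi_norm_le_iff_of_nonneg zero_le_one).2 hφ
      have h3 : ‖g (θ • c, φ)‖ ≤ 1 :=
        (g.le_opNorm _).trans (mul_le_one₀ hg (norm_nonneg _) h2)
      rw [h1, Complex.norm_real] at h3
      exact (le_abs_self _).trans h3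
    have h0 : ∑ i, ‖ν i‖ ≤ 1 := by
      have := key 0 (by simp)
      simpa using this
    have hx : ‖x‖ ≤ 1 - ∑ i, ‖ν i‖ := by
      refine ContinuousLinearMap.opNorm_le_bound _ (by linarith) ?_
      intro c
      rcases eq_or_ne c 0 with rfl | hc
      · simp
      · have hc' : 0 < ‖c‖ := norm_pos_iff.2 hc
        have h1 : ‖((‖c‖⁻¹ : ℝ) : ℂ) • c‖ = 1 := by
          rw [norm_smul, Complex.norm_real, norm_inv, norm_norm, inv_mul_cancel₀ hc'.ne']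
        have h2 := key _ h1.le
        rw [map_smul, norm_smul, Complex.norm_real, norm_inv, norm_norm] at h2
        have h3 : ‖c‖⁻¹ * ‖x c‖ ≤ 1 - ∑ i, ‖ν i‖ := by linarith
        rwa [inv_mul_le_iff₀ hc', mul_comm] at h3
    linarith

end

/-- the splitting in coordinates on a Euclidean space -/
theorem hb_split_coord {κ ι : Type*} [Fintype κ] [Fintype ι] (v : ι → κ → ℂ)
    (ψ : (κ → ℂ) →ₗ[ℂ] ℂ)
    (hψ : ∀ (c : κ → ℂ) (r : ℝ), 0 ≤ r → ∑ j, ‖c j‖ ^ 2 ≤ r ^ 2 →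
      (∀ i, ‖∑ j, v i j * c j‖ ≤ r) → ‖ψ c‖ ≤ r) :
    ∃ (x : κ → ℂ) (ν : ι → ℂ),
      (∀ c, ψ c = ∑ j, x j * c j + ∑ i, ν i * ∑ j, v i j * c j) ∧
      Real.sqrt (∑ j, ‖x j‖ ^ 2) + ∑ i, ‖ν i‖ ≤ 1 := by
  classical
  let e : EuclideanSpace ℂ κ ≃L[ℂ] (κ → ℂ) := EuclideanSpace.equiv κ ℂ
  let w : ι → EuclideanSpace ℂ κ →L[ℂ] ℂ := fun i =>
    LinearMap.toContinuousLinearMap
      ((∑ j, (v i j) • (LinearMap.proj j : (κ → ℂ) →ₗ[ℂ] ℂ)) ∘ₗ (e : EuclideanSpace ℂ κ →ₗ[ℂ] (κ → ℂ)))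
  have hw : ∀ i c, w i c = ∑ j, v i j * c j := by
    intro i c
    simp [w, e, EuclideanSpace.equiv]
  obtain ⟨x, ν, h1, h2⟩ := hb_split w (ψ ∘ₗ (e : EuclideanSpace ℂ κ →ₗ[ℂ] (κ → ℂ))) (by
    intro c r hc hi
    have hr : 0 ≤ r := (norm_nonneg _).trans hc
    refine hψ _ r hr ?_ fun i => ?_
    · have : ‖c‖ ^ 2 ≤ r ^ 2 := by gcongr
      rw [EuclideanSpace.norm_sq_eq] at this
      exact this
    · have := hi i
      rw [hw] at this
      exact this)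
  let x' : κ → ℂ := fun j => x (EuclideanSpace.single j 1)
  have hx' : ∀ c : EuclideanSpace ℂ κ, x c = ∑ j, x' j * c j := by
    intro c
    have hc : c = ∑ j, c j • (EuclideanSpace.single j (1 : ℂ)) := by
      ext i
      simp [Finset.sum_apply, Pi.single_apply]
    conv_lhs => rw [hc]
    rw [map_sum]
    refine Finset.sum_congr rfl fun j _ => ?_
    rw [map_smul, smul_eq_mul, mul_comm]
  refine ⟨x', ν, fun c => ?_, ?_⟩
  · have := h1 (e.symm c)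
    rw [hx'] at this
    have hc : ∀ j, (e.symm c) j = c j := fun j => rfl
    simp only [hw, hc] at this
    exact this
  · refine le_trans (add_le_add ?_ le_rfl) h2
    -- `|x'|₂ ≤ ‖x‖`
    let y : EuclideanSpace ℂ κ := WithLp.toLp 2 fun j => (starRingEnd ℂ) (x' j)
    have hy : ‖y‖ ^ 2 = ∑ j, ‖x' j‖ ^ 2 := by
      rw [EuclideanSpace.norm_sq_eq]
      refine Finset.sum_congr rfl fun j _ => ?_
      simp [y]
    have hxy : ‖x y‖ = ‖y‖ ^ 2 := by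
      rw [hx', hy]
      have : ∑ j, x' j * y j = ((∑ j, ‖x' j‖ ^ 2 : ℝ) : ℂ) := by
        push_cast
        refine Finset.sum_congr rfl fun j _ => ?_
        show x' j * (starRingEnd ℂ) (x' j) = _
        rw [Complex.mul_conj, Complex.normSq_eq_norm_sq]
        push_cast; rfl
      rw [this, Complex.norm_real, Real.norm_of_nonneg (Finset.sum_nonneg fun j _ => by positivity)]
    have hsq : Real.sqrt (∑ j, ‖x' j‖ ^ 2) = ‖y‖ := by
      rw [← hy, Real.sqrt_sq (norm_nonneg _)]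
    rw [hsq]
    rcases eq_or_ne ‖y‖ 0 with h0 | h0
    · rw [h0]; exact norm_nonneg _
    · have h3 := x.le_opNorm y
      rw [hxy, sq] at h3
      exact le_of_mul_le_mul_right h3 (lt_of_le_of_ne (norm_nonneg _) (Ne.symm h0))

end HUN
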