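import Mathlib

/-!
# Section 2 of the counterexample: averages of the diagonal of a compact operator

* `tele_bound`: telescoping bound;
* `unif_small`, `diag_small`, `avg_tendsto`: the diagonal of a compact operator tends to zero;
* `avg_link`: the average over the linking vectors of `⟨f + g, A (f - g)⟩` is the difference of the
  normalised traces on two consecutive levels, up to the column bound.
-/

open Filter Topology

namespace HUN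

/-- Telescoping. -/
theorem tele_bound {lam : ℕ → ℂ} {a : ℕ → ℝ} (ha : ∀ n, 0 < a n)
    (h2 : ∀ n, 2 * a n ≤ a (n + 1)) (hd : ∀ n, ‖lam n - lam (n + 1)‖ ≤ 3 / a n)
    (h0 : Tendsto lam atTop (𝓝 0)) (n : ℕ) : ‖lam n‖ ≤ 6 / a n := by
  have step : ∀ m, 3 / a m ≤ 6 / a m - 6 / a (m + 1) := by
    intro m
    have h : 6 / a (m + 1) ≤ 3 / a m := by
      rw [div_le_div_iff₀ (ha _) (ha _)]
      nlinarith [h2 m]
    have h' : 6 / a m = 3 / a m + 3 / a m := by ring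
    linarith
  have ind : ∀ m, ‖lam n - lam (n + m)‖ ≤ 6 / a n - 6 / a (n + m) := by
    intro m
    induction m with
    | zero => simp
    | succ m ih =>
      have h1 := hd (n + m)
      have h3 := step (n + m)
      have h4 : lam n - lam (n + (m + 1)) = (lam n - lam (n + m)) +
          (lam (n + m) - lam (n + m + 1)) := by
        rw [← add_assoc]; ring
      rw [h4]
      have h5 := norm_add_le (lam n - lam (n + m)) (lam (n + m) - lam (n + m + 1))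
      have h6 : a (n + (m + 1)) = a (n + m + 1) := by rw [← add_assoc]
      rw [h6]
      linarith
  have bd : ∀ m, ‖lam n‖ ≤ 6 / a n + ‖lam (n + m)‖ := by
    intro m
    have h1 := ind m
    have h2 : lam n = (lam n - lam (n + m)) + lam (n + m) := by ring
    have h3 := norm_add_le (lam n - lam (n + m)) (lam (n + m))
    rw [← h2] at h3
    have h4 : 0 < 6 / a (n + m) := div_pos (by norm_num) (ha _)
    linarith
  have hlim : Tendsto (fun m => 6 / a n + ‖lam (n + m)‖) atTop (𝓝 (6 / a n + 0)) := by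
    refine tendsto_const_nhds.add ?_
    have h := (h0.comp (tendsto_add_atTop_nat n)).norm
    rw [norm_zero] at h
    refine h.congr fun m => ?_
    simp [add_comm]
  rw [add_zero] at hlim
  exact ge_of_tendsto' hlim bd

section Compact

variable {X : Type*} [NormedAddCommGroup X] [NormedSpace ℂ X]

/-- Uniformly bounded functionals which tend to zero pointwise (uniformly over the level) tend to
zero uniformly on compact sets. -/
theorem unif_small {J : ℕ → Type*} (φ : (n : ℕ) → J n → X →L[ℂ] ℂ)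
    (h1 : ∀ n j, ‖φ n j‖ ≤ 1)
    (h0 : ∀ x : X, ∀ ε : ℝ, 0 < ε → ∀ᶠ n in atTop, ∀ j, ‖φ n j x‖ < ε)
    {K : Set X} (hK : IsCompact K) {ε : ℝ} (hε : 0 < ε) :
    ∀ᶠ n in atTop, ∀ j, ∀ x ∈ K, ‖φ n j x‖ < ε := by
  obtain ⟨t, _, ht, hKt⟩ := hK.finite_cover_balls (half_pos hε)
  have h2 : ∀ᶠ n in atTop, ∀ y ∈ t, ∀ j, ‖φ n j y‖ < ε / 2 :=
    (ht.eventually_all (l := atTop)).2 fun y _ => h0 y (ε / 2) (half_pos hε)
  filter_upwards [h2] with n hn j x hx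
  obtain ⟨y, hy, hxy⟩ := Set.mem_iUnion₂.1 (hKt hx)
  have h3 : ‖φ n j (x - y)‖ < ε / 2 := by
    calc ‖φ n j (x - y)‖ ≤ ‖φ n j‖ * ‖x - y‖ := (φ n j).le_opNorm _
      _ ≤ 1 * ‖x - y‖ := by gcongr; exact h1 n j
      _ = dist x y := by rw [one_mul, dist_eq_norm]
      _ < ε / 2 := hxy
  have h4 : φ n j x = φ n j (x - y) + φ n j y := by rw [← map_add]; simp
  calc ‖φ n j x‖ = ‖φ n j (x - y) + φ n j y‖ := by rw [← h4]
    _ ≤ ‖φ n j (x - y)‖ + ‖φ n j y‖ := norm_add_le _ _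
    _ < ε / 2 + ε / 2 := add_lt_add h3 (hn y hy j)
    _ = ε := by ring

/-- The diagonal entries of a compact operator tend to zero. -/
theorem diag_small {J : ℕ → Type*} (φ : (n : ℕ) → J n → X →L[ℂ] ℂ) (e : (n : ℕ) → J n → X)
    (h1 : ∀ n j, ‖φ n j‖ ≤ 1) (he : ∀ n j, ‖e n j‖ ≤ 1)
    (h0 : ∀ x : X, ∀ ε : ℝ, 0 < ε → ∀ᶠ n in atTop, ∀ j, ‖φ n j x‖ < ε)
    (A : X →L[ℂ] X) (hA : IsCompactOperator A) {ε : ℝ} (hε : 0 < ε) :
    ∀ᶠ n in atTop, ∀ j, ‖φ n j (A (e n j))‖ < ε := by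
  obtain ⟨K, hK, hKA⟩ :=
    IsCompactOperator.image_closedBall_subset_compact (f := (A : X →ₗ[ℂ] X)) hA 1
  filter_upwards [unif_small φ h1 h0 hK hε] with n hn j
  refine hn j _ (hKA ⟨e n j, ?_, rfl⟩)
  rw [mem_closedBall_zero_iff]
  exact he n j

/-- The normalised traces of a compact operator tend to zero. -/
theorem avg_tendsto {J : ℕ → Type*} [∀ n, Fintype (J n)] (φ : (n : ℕ) → J n → X →L[ℂ] ℂ)
    (e : (n : ℕ) → J n → X)
    (h1 : ∀ n j, ‖φ n j‖ ≤ 1) (he : ∀ n j, ‖e n j‖ ≤ 1)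
    (h0 : ∀ x : X, ∀ ε : ℝ, 0 < ε → ∀ᶠ n in atTop, ∀ j, ‖φ n j x‖ < ε)
    (A : X →L[ℂ] X) (hA : IsCompactOperator A) :
    Tendsto (fun n => (∑ j, φ n j (A (e n j))) / (Fintype.card (J n) : ℂ)) atTop (𝓝 0) := by
  rw [Metric.tendsto_atTop]
  intro ε hε
  have h := diag_small φ e h1 he h0 A hA (half_pos hε)
  obtain ⟨N, hN⟩ := eventually_atTop.1 h
  refine ⟨N, fun n hn => ?_⟩
  rw [dist_zero_right, norm_div, Complex.norm_natCast]
  have h2 : ‖∑ j, φ n j (A (e n j))‖ ≤ Fintype.card (J n) * (ε / 2) := by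
    calc ‖∑ j, φ n j (A (e n j))‖ ≤ ∑ j : J n, ε / 2 :=
          norm_sum_le_of_le _ fun j _ => (hN n hn j).le
      _ = Fintype.card (J n) * (ε / 2) := by simp
  rcases Nat.eq_zero_or_pos (Fintype.card (J n)) with h0 | h0
  · simp only [h0, Nat.cast_zero, div_zero]
    exact hε
  · have h3 : (0 : ℝ) < Fintype.card (J n) := by exact_mod_cast h0
    rw [div_lt_iff₀ h3]
    nlinarith

end Compact

section Link

variable {J₁ J₂ K : Type*} [Fintype J₁] [Fintype J₂] [Fintype K]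

/-- quadratic average of a matrix with bounded entries over vectors `u_k / √N` with nearly
uncorrelated coordinates -/
theorem avg_quad (u : K → J₁ → ℝ) (hu : ∀ k i, u k i ^ 2 = 1) {τ : ℝ}
    (hτ : ∀ i j, i ≠ j → |∑ k, u k i * u k j| ≤ τ * Fintype.card K)
    (A : J₁ → J₁ → ℂ) (hA : ∀ i j, ‖A i j‖ ≤ 1) (hτ0 : 0 ≤ τ) :
    ‖∑ k, ∑ i, ∑ j, (u k i : ℂ) * A i j * (u k j : ℂ) - Fintype.card K * ∑ i, A i i‖ ≤
      τ * Fintype.card K * (Fintype.card J₁ : ℝ) ^ 2 := by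
  classical
  have h1 : ∑ k, ∑ i, ∑ j, (u k i : ℂ) * A i j * (u k j : ℂ) =
      ∑ i, ∑ j, ((∑ k, u k i * u k j : ℝ) : ℂ) * A i j := by
    rw [Finset.sum_comm]
    refine Finset.sum_congr rfl fun i _ => ?_
    rw [Finset.sum_comm]
    refine Finset.sum_congr rfl fun j _ => ?_
    rw [Complex.ofReal_sum, Finset.sum_mul]
    refine Finset.sum_congr rfl fun k _ => ?_
    push_cast
    ring
  have h2 : (Fintype.card K : ℂ) * ∑ i, A i i =
      ∑ i, ∑ j, (if i = j then (Fintype.card K : ℂ) else 0) * A i j := by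
    rw [Finset.mul_sum]
    refine Finset.sum_congr rfl fun i _ => ?_
    simp
  rw [h1, h2, ← Finset.sum_sub_distrib]
  have h3 : ∀ i j, ‖((∑ k, u k i * u k j : ℝ) : ℂ) * A i j -
      (if i = j then (Fintype.card K : ℂ) else 0) * A i j‖ ≤ τ * Fintype.card K := by
    intro i j
    rw [← sub_mul, norm_mul]
    by_cases hij : i = j
    · subst hij
      have h4 : (∑ k, u k i * u k i : ℝ) = Fintype.card K := by
        have : ∀ k, u k i * u k i = 1 := fun k => by rw [← sq]; exact hu k i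
        simp [this]
      rw [h4]
      simp only [if_true, Complex.ofReal_natCast, sub_self, norm_zero, zero_mul]
      positivity
    · simp only [hij, if_false, sub_zero]
      calc ‖((∑ k, u k i * u k j : ℝ) : ℂ)‖ * ‖A i j‖ ≤ (τ * Fintype.card K) * 1 := by
            gcongr
            · rw [Complex.norm_real]; exact hτ i j hij
            · exact hA i j
        _ = _ := by ring
  calc _ ≤ ∑ i : J₁, ∑ j : J₁, τ * Fintype.card K := by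
        refine norm_sum_le_of_le _ fun i _ => ?_
        rw [← Finset.sum_sub_distrib]
        exact norm_sum_le_of_le _ fun j _ => h3 i j
    _ = _ := by simp; ring

/-- bilinear average over two families of vectors with nearly uncorrelated coordinates -/
theorem avg_cross_tele (u : K → J₁ → ℝ) (v : K → J₂ → ℝ) {τ : ℝ}
    (hτ : ∀ i j, |∑ k, u k i * v k j| ≤ τ * Fintype.card K)
    (A : J₁ → J₂ → ℂ) (hA : ∀ i j, ‖A i j‖ ≤ 1) (hτ0 : 0 ≤ τ) :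
    ‖∑ k, ∑ i, ∑ j, (u k i : ℂ) * A i j * (v k j : ℂ)‖ ≤
      τ * Fintype.card K * ((Fintype.card J₁ : ℝ) * Fintype.card J₂) := by
  have h1 : ∑ k, ∑ i, ∑ j, (u k i : ℂ) * A i j * (v k j : ℂ) =
      ∑ i, ∑ j, ((∑ k, u k i * v k j : ℝ) : ℂ) * A i j := by
    rw [Finset.sum_comm]
    refine Finset.sum_congr rfl fun i _ => ?_
    rw [Finset.sum_comm]
    refine Finset.sum_congr rfl fun j _ => ?_
    rw [Complex.ofReal_sum, Finset.sum_mul]
    refine Finset.sum_congr rfl fun k _ => ?_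
    push_cast
    ring
  rw [h1]
  calc _ ≤ ∑ i : J₁, ∑ j : J₂, τ * Fintype.card K := by
        refine norm_sum_le_of_le _ fun i _ => norm_sum_le_of_le _ fun j _ => ?_
        rw [norm_mul]
        calc ‖((∑ k, u k i * v k j : ℝ) : ℂ)‖ * ‖A i j‖ ≤ (τ * Fintype.card K) * 1 := by
              gcongr
              · rw [Complex.norm_real]; exact hτ i j
              · exact hA i j
          _ = _ := by ring
    _ = _ := by simp; ring

/-- The average over the linking vectors `f k = u k / √N₁`, `g k = v k / √N₂` of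
`⟨f k + g k, A (f k - g k)⟩` is the difference of the two normalised traces up to
`τ (√N₁ + √N₂)²`. -/
theorem avg_link [Nonempty K] [Nonempty J₁] [Nonempty J₂]
    (u : K → J₁ → ℝ) (v : K → J₂ → ℝ) (hu : ∀ k i, u k i ^ 2 = 1) (hv : ∀ k j, v k j ^ 2 = 1)
    {τ : ℝ} (hτ0 : 0 ≤ τ)
    (hτu : ∀ i j, i ≠ j → |∑ k, u k i * u k j| ≤ τ * Fintype.card K)
    (hτv : ∀ i j, i ≠ j → |∑ k, v k i * v k j| ≤ τ * Fintype.card K)
    (hτc : ∀ i j, |∑ k, u k i * v k j| ≤ τ * Fintype.card K)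
    (A₁₁ : J₁ → J₁ → ℂ) (A₁₂ : J₁ → J₂ → ℂ) (A₂₁ : J₂ → J₁ → ℂ) (A₂₂ : J₂ → J₂ → ℂ)
    (h₁₁ : ∀ i j, ‖A₁₁ i j‖ ≤ 1) (h₁₂ : ∀ i j, ‖A₁₂ i j‖ ≤ 1) (h₂₁ : ∀ i j, ‖A₂₁ i j‖ ≤ 1)
    (h₂₂ : ∀ i j, ‖A₂₂ i j‖ ≤ 1) (f : K → J₁ → ℝ) (g : K → J₂ → ℝ)
    (hf : ∀ k i, f k i = u k i / Real.sqrt (Fintype.card J₁))
    (hg : ∀ k j, g k j = v k j / Real.sqrt (Fintype.card J₂)) :
    ‖(∑ k, ((∑ i, ∑ j, (f k i : ℂ) * A₁₁ i j * (f k j : ℂ)) -
          (∑ i, ∑ j, (f k i : ℂ) * A₁₂ i j * (g k j : ℂ)) +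
          (∑ i, ∑ j, (g k i : ℂ) * A₂₁ i j * (f k j : ℂ)) -
          (∑ i, ∑ j, (g k i : ℂ) * A₂₂ i j * (g k j : ℂ)))) / (Fintype.card K : ℂ) -
        ((∑ i, A₁₁ i i) / (Fintype.card J₁ : ℂ) - (∑ i, A₂₂ i i) / (Fintype.card J₂ : ℂ))‖ ≤
      τ * (Real.sqrt (Fintype.card J₁) + Real.sqrt (Fintype.card J₂)) ^ 2 := by
  set M : ℝ := (Fintype.card K : ℝ) with hM
  set n₁ : ℝ := (Fintype.card J₁ : ℝ) with hn₁
  set n₂ : ℝ := (Fintype.card J₂ : ℝ) with hn₂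
  have hM0 : 0 < M := by rw [hM]; exact_mod_cast Fintype.card_pos
  have hn₁0 : 0 < n₁ := by rw [hn₁]; exact_mod_cast Fintype.card_pos
  have hn₂0 : 0 < n₂ := by rw [hn₂]; exact_mod_cast Fintype.card_pos
  have hs₁ : 0 < Real.sqrt n₁ := Real.sqrt_pos.2 hn₁0
  have hs₂ : 0 < Real.sqrt n₂ := Real.sqrt_pos.2 hn₂0
  have hq₁ : Real.sqrt n₁ * Real.sqrt n₁ = n₁ := Real.mul_self_sqrt hn₁0.le
  have hq₂ : Real.sqrt n₂ * Real.sqrt n₂ = n₂ := Real.mul_self_sqrt hn₂0.le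
  have c₁ : (Real.sqrt n₁ : ℂ) ≠ 0 := by exact_mod_cast hs₁.ne'
  have c₂ : (Real.sqrt n₂ : ℂ) ≠ 0 := by exact_mod_cast hs₂.ne'
  have cM : (M : ℂ) ≠ 0 := by exact_mod_cast hM0.ne'
  have cn₁ : ((Fintype.card J₁ : ℕ) : ℂ) = (Real.sqrt n₁ : ℂ) * (Real.sqrt n₁ : ℂ) := by
    rw [← Complex.ofReal_mul, hq₁, hn₁]; simp
  have cn₂ : ((Fintype.card J₂ : ℕ) : ℂ) = (Real.sqrt n₂ : ℂ) * (Real.sqrt n₂ : ℂ) := by
    rw [← Complex.ofReal_mul, hq₂, hn₂]; simp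
  have cK : ((Fintype.card K : ℕ) : ℂ) = (M : ℂ) := by rw [hM]; simp
  set E₁ := ∑ k, ∑ i, ∑ j, (u k i : ℂ) * A₁₁ i j * (u k j : ℂ) - Fintype.card K * ∑ i, A₁₁ i i
    with hE₁
  set E₂ := ∑ k, ∑ i, ∑ j, (u k i : ℂ) * A₁₂ i j * (v k j : ℂ) with hE₂
  set E₃ := ∑ k, ∑ i, ∑ j, (v k i : ℂ) * A₂₁ i j * (u k j : ℂ) with hE₃
  set E₄ := ∑ k, ∑ i, ∑ j, (v k i : ℂ) * A₂₂ i j * (v k j : ℂ) - Fintype.card K * ∑ i, A₂₂ i i
    with hE₄
  have b₁ : ‖E₁‖ ≤ τ * M * n₁ ^ 2 := avg_quad u hu hτu A₁₁ h₁₁ hτ0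
  have b₂ : ‖E₂‖ ≤ τ * M * (n₁ * n₂) := avg_cross_tele u v hτc A₁₂ h₁₂ hτ0
  have b₃ : ‖E₃‖ ≤ τ * M * (n₂ * n₁) := by
    refine avg_cross_tele v u (fun i j => ?_) A₂₁ h₂₁ hτ0
    have := hτc j i
    simpa only [mul_comm] using this
  have b₄ : ‖E₄‖ ≤ τ * M * n₂ ^ 2 := avg_quad v hv hτv A₂₂ h₂₂ hτ0
  have s₁ : ∑ k, (∑ i, ∑ j, (f k i : ℂ) * A₁₁ i j * (f k j : ℂ)) =
      (E₁ + M * ∑ i, A₁₁ i i) / ((Real.sqrt n₁ : ℂ) * (Real.sqrt n₁ : ℂ)) := by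
    rw [hE₁, cK, sub_add_cancel, Finset.sum_div]
    refine Finset.sum_congr rfl fun k _ => ?_
    rw [Finset.sum_div]
    refine Finset.sum_congr rfl fun i _ => ?_
    rw [Finset.sum_div]
    refine Finset.sum_congr rfl fun j _ => ?_
    rw [hf, hf]
    push_cast
    field_simp
  have s₂ : ∑ k, (∑ i, ∑ j, (f k i : ℂ) * A₁₂ i j * (g k j : ℂ)) =
      E₂ / ((Real.sqrt n₁ : ℂ) * (Real.sqrt n₂ : ℂ)) := by
    rw [hE₂, Finset.sum_div]
    refine Finset.sum_congr rfl fun k _ => ?_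
    rw [Finset.sum_div]
    refine Finset.sum_congr rfl fun i _ => ?_
    rw [Finset.sum_div]
    refine Finset.sum_congr rfl fun j _ => ?_
    rw [hf, hg]
    push_cast
    field_simp
  have s₃ : ∑ k, (∑ i, ∑ j, (g k i : ℂ) * A₂₁ i j * (f k j : ℂ)) =
      E₃ / ((Real.sqrt n₂ : ℂ) * (Real.sqrt n₁ : ℂ)) := by
    rw [hE₃, Finset.sum_div]
    refine Finset.sum_congr rfl fun k _ => ?_
    rw [Finset.sum_div]
    refine Finset.sum_congr rfl fun i _ => ?_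
    rw [Finset.sum_div]
    refine Finset.sum_congr rfl fun j _ => ?_
    rw [hf, hg]
    push_cast
    field_simp
  have s₄ : ∑ k, (∑ i, ∑ j, (g k i : ℂ) * A₂₂ i j * (g k j : ℂ)) =
      (E₄ + M * ∑ i, A₂₂ i i) / ((Real.sqrt n₂ : ℂ) * (Real.sqrt n₂ : ℂ)) := by
    rw [hE₄, cK, sub_add_cancel, Finset.sum_div]
    refine Finset.sum_congr rfl fun k _ => ?_
    rw [Finset.sum_div]
    refine Finset.sum_congr rfl fun i _ => ?_
    rw [Finset.sum_div]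
    refine Finset.sum_congr rfl fun j _ => ?_
    rw [hg, hg]
    push_cast
    field_simp
  have key : (∑ k, ((∑ i, ∑ j, (f k i : ℂ) * A₁₁ i j * (f k j : ℂ)) -
          (∑ i, ∑ j, (f k i : ℂ) * A₁₂ i j * (g k j : ℂ)) +
          (∑ i, ∑ j, (g k i : ℂ) * A₂₁ i j * (f k j : ℂ)) -
          (∑ i, ∑ j, (g k i : ℂ) * A₂₂ i j * (g k j : ℂ)))) / (Fintype.card K : ℂ) -
        ((∑ i, A₁₁ i i) / (Fintype.card J₁ : ℂ) - (∑ i, A₂₂ i i) / (Fintype.card J₂ : ℂ)) =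
      E₁ / ((M : ℂ) * ((Real.sqrt n₁ : ℂ) * (Real.sqrt n₁ : ℂ))) -
      E₂ / ((M : ℂ) * ((Real.sqrt n₁ : ℂ) * (Real.sqrt n₂ : ℂ))) +
      E₃ / ((M : ℂ) * ((Real.sqrt n₂ : ℂ) * (Real.sqrt n₁ : ℂ))) -
      E₄ / ((M : ℂ) * ((Real.sqrt n₂ : ℂ) * (Real.sqrt n₂ : ℂ))) := by
    rw [Finset.sum_sub_distrib, Finset.sum_add_distrib, Finset.sum_sub_distrib, s₁, s₂, s₃, s₄,
      cn₁, cn₂, cK]
    field_simp
    ring
  rw [key]
  have r₁ : ‖E₁ / ((M : ℂ) * ((Real.sqrt n₁ : ℂ) * (Real.sqrt n₁ : ℂ)))‖ ≤ τ * n₁ := by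
    rw [norm_div, ← Complex.ofReal_mul, ← Complex.ofReal_mul, Complex.norm_real, Real.norm_eq_abs,
      abs_of_pos (by positivity), div_le_iff₀ (by positivity), hq₁]
    calc ‖E₁‖ ≤ τ * M * n₁ ^ 2 := b₁
      _ = _ := by ring
  have r₂ : ‖E₂ / ((M : ℂ) * ((Real.sqrt n₁ : ℂ) * (Real.sqrt n₂ : ℂ)))‖ ≤
      τ * (Real.sqrt n₁ * Real.sqrt n₂) := by
    rw [norm_div, ← Complex.ofReal_mul, ← Complex.ofReal_mul, Complex.norm_real, Real.norm_eq_abs,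
      abs_of_pos (by positivity), div_le_iff₀ (by positivity)]
    calc ‖E₂‖ ≤ τ * M * (n₁ * n₂) := b₂
      _ = τ * M * ((Real.sqrt n₁ * Real.sqrt n₁) * (Real.sqrt n₂ * Real.sqrt n₂)) := by
          rw [hq₁, hq₂]
      _ = _ := by ring
  have r₃ : ‖E₃ / ((M : ℂ) * ((Real.sqrt n₂ : ℂ) * (Real.sqrt n₁ : ℂ)))‖ ≤
      τ * (Real.sqrt n₁ * Real.sqrt n₂) := by
    rw [norm_div, ← Complex.ofReal_mul, ← Complex.ofReal_mul, Complex.norm_real, Real.norm_eq_abs,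
      abs_of_pos (by positivity), div_le_iff₀ (by positivity)]
    calc ‖E₃‖ ≤ τ * M * (n₂ * n₁) := b₃
      _ = τ * M * ((Real.sqrt n₂ * Real.sqrt n₂) * (Real.sqrt n₁ * Real.sqrt n₁)) := by
          rw [hq₁, hq₂]
      _ = _ := by ring
  have r₄ : ‖E₄ / ((M : ℂ) * ((Real.sqrt n₂ : ℂ) * (Real.sqrt n₂ : ℂ)))‖ ≤ τ * n₂ := by
    rw [norm_div, ← Complex.ofReal_mul, ← Complex.ofReal_mul, Complex.norm_real, Real.norm_eq_abs,
      abs_of_pos (by positivity), div_le_iff₀ (by positivity), hq₂]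
    calc ‖E₄‖ ≤ τ * M * n₂ ^ 2 := b₄
      _ = _ := by ring
  refine (norm_sub_le _ _).trans ?_
  have t1 := norm_add_le (E₁ / ((M : ℂ) * ((Real.sqrt n₁ : ℂ) * (Real.sqrt n₁ : ℂ))) -
      E₂ / ((M : ℂ) * ((Real.sqrt n₁ : ℂ) * (Real.sqrt n₂ : ℂ))))
      (E₃ / ((M : ℂ) * ((Real.sqrt n₂ : ℂ) * (Real.sqrt n₁ : ℂ))))
  have t2 := norm_sub_le (E₁ / ((M : ℂ) * ((Real.sqrt n₁ : ℂ) * (Real.sqrt n₁ : ℂ))))
      (E₂ / ((M : ℂ) * ((Real.sqrt n₁ : ℂ) * (Real.sqrt n₂ : ℂ))))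
  have e1 : τ * (Real.sqrt n₁ + Real.sqrt n₂) ^ 2 = τ * n₁ + τ * n₂ +
      2 * (τ * (Real.sqrt n₁ * Real.sqrt n₂)) := by
    rw [add_sq, sq, sq, hq₁, hq₂]; ring
  rw [e1]
  linarith

end Link

end HUN
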